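import Mathlib
import Pool.Agent.Y141.MW.L
import Pool.Agent.Y163.MW.Lin

/-!
# Operators with a graded nilpotent leading part: kernels and images

`V` has a basis `b` of weight vectors for a representation of `sl(2)` with lowering operator `N`,
and `f = t N + (terms lowering the weights by at least 4)`.
-/

set_option autoImplicit false
set_option linter.unusedSectionVars false
set_option linter.unusedSimpArgs false

open Module

namespace Pool.Agent.K7.H8.TH

open Pool.Agent.Y163.MW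

universe u v

section sp

variable {K : Type u} [Field K] {V : Type v} [AddCommGroup V] [Module K V] {I : Type}
  (b : Basis I K V)

/-- The vectors whose coordinates outside `J` vanish. -/
def sp (J : Set I) : Submodule K V where
  carrier := {x | ∀ i, i ∉ J → b.repr x i = 0}
  add_mem' := by
    intro x y hx hy i hi
    rw [map_add, Finsupp.add_apply, hx i hi, hy i hi, add_zero]
  zero_mem' := by
    intro i _
    rw [map_zero, Finsupp.zero_apply]
  smul_mem' := by
    intro c x hx i hi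
    rw [map_smul, Finsupp.smul_apply, hx i hi, smul_zero]

lemma mem_sp {J : Set I} {x : V} : x ∈ sp b J ↔ ∀ i, i ∉ J → b.repr x i = 0 := Iff.rfl

lemma b_mem {J : Set I} {i : I} (h : i ∈ J) : b i ∈ sp b J := by
  classical
  intro j hj
  rw [b.repr_self, Finsupp.single_apply, if_neg]
  rintro rfl
  exact hj h

lemma sp_mono {J J' : Set I} (h : J ⊆ J') : sp b J ≤ sp b J' :=
  fun _ hx i hi => hx i fun h' => hi (h h')

lemma sp_inf (J J' : Set I) : sp b J ⊓ sp b J' = sp b (J ∩ J') := by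
  ext x
  constructor
  · rintro ⟨h1, h2⟩ i hi
    by_cases h : i ∈ J
    · exact h2 i fun h' => hi ⟨h, h'⟩
    · exact h1 i h
  · intro h
    exact ⟨fun i hi => h i fun h' => hi h'.1, fun i hi => h i fun h' => hi h'.2⟩

lemma sp_univ : sp b Set.univ = ⊤ := by
  rw [eq_top_iff]
  intro x _ i hi
  exact absurd (Set.mem_univ i) hi

lemma sp_empty {J : Set I} (h : J = ∅) : sp b J = ⊥ := by
  rw [eq_bot_iff]
  intro x hx
  rw [Submodule.mem_bot]
  apply b.repr.injective
  rw [map_zero]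
  ext i
  exact hx i (by rw [h]; exact Set.notMem_empty i)

lemma map_mem_sp {V' : Type*} [AddCommGroup V'] [Module K V'] (f : V →ₗ[K] V')
    {S : Submodule K V'} {J : Set I} (h : ∀ i ∈ J, f (b i) ∈ S) {x : V} (hx : x ∈ sp b J) :
    f x ∈ S := by
  rw [← b.linearCombination_repr x, Finsupp.linearCombination_apply, Finsupp.sum, map_sum]
  refine Submodule.sum_mem _ fun i hi => ?_
  rw [map_smul]
  refine Submodule.smul_mem _ _ (h i ?_)
  by_contra h'
  exact (Finsupp.mem_support_iff.1 hi) (hx i h')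

lemma sp_eq_span (J : Set I) : sp b J = Submodule.span K (b '' J) := by
  apply le_antisymm
  · intro x hx
    exact map_mem_sp b LinearMap.id (S := Submodule.span K (b '' J))
      (fun i hi => Submodule.subset_span (Set.mem_image_of_mem b hi)) hx
  · rw [Submodule.span_le]
    rintro _ ⟨i, hi, rfl⟩
    exact b_mem b hi

lemma finrank_sp [Finite I] (J : Set I) : finrank K (sp b J) = Nat.card J := by
  rw [sp_eq_span, finrank_span_image]

open Classical in
/-- The projection to `sp b J`. -/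
noncomputable def pr (J : Set I) : Module.End K V :=
  b.constr K fun i => if i ∈ J then b i else 0

lemma pr_b_mem {J : Set I} {i : I} (h : i ∈ J) : pr b J (b i) = b i := by
  rw [pr, b.constr_basis, if_pos h]

lemma pr_b_ne {J : Set I} {i : I} (h : i ∉ J) : pr b J (b i) = 0 := by
  rw [pr, b.constr_basis, if_neg h]

lemma pr_mem (J : Set I) (x : V) : pr b J x ∈ sp b J := by
  have hx : x ∈ sp b Set.univ := by rw [sp_univ]; trivial
  refine map_mem_sp b _ (fun i _ => ?_) hx
  by_cases h : i ∈ J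
  · rw [pr_b_mem b h]; exact b_mem b h
  · rw [pr_b_ne b h]; exact Submodule.zero_mem _

/-- Linear maps agree on `sp b J` if they agree on the basis vectors. -/
lemma eq_on {V' : Type*} [AddCommGroup V'] [Module K V'] {f g : V →ₗ[K] V'} {J : Set I}
    (h : ∀ i ∈ J, f (b i) = g (b i)) {x : V} (hx : x ∈ sp b J) : f x = g x := by
  have := map_mem_sp b (f - g) (S := ⊥) (J := J) (fun i hi => by
    rw [LinearMap.sub_apply, h i hi, sub_self]; exact Submodule.zero_mem _) hx
  rwa [Submodule.mem_bot, LinearMap.sub_apply, sub_eq_zero] at this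

lemma pr_eq {J J' : Set I} {x : V} (hx : x ∈ sp b J') (h : J' ⊆ J) : pr b J x = x :=
  eq_on b (g := LinearMap.id) (fun _ hi => pr_b_mem b (h hi)) hx

lemma pr_zero {J J' : Set I} {x : V} (hx : x ∈ sp b J') (h : Disjoint J J') : pr b J x = 0 :=
  eq_on b (g := 0) (fun _ hi => pr_b_ne b fun h' => Set.disjoint_left.1 h h' hi) hx

lemma sub_pr_mem {J J' : Set I} {x : V} (hx : x ∈ sp b J') : x - pr b J x ∈ sp b (J' \ J) := by
  refine map_mem_sp b (LinearMap.id - pr b J) (fun i hi => ?_) hx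
  by_cases h : i ∈ J
  · rw [LinearMap.sub_apply, pr_b_mem b h, LinearMap.id_apply, sub_self]
    exact Submodule.zero_mem _
  · rw [LinearMap.sub_apply, pr_b_ne b h, LinearMap.id_apply, sub_zero]
    exact b_mem b ⟨hi, h⟩

lemma pr_inter {J J' : Set I} {x : V} (hx : x ∈ sp b J') : pr b J x ∈ sp b (J' ∩ J) := by
  refine map_mem_sp b (pr b J) (fun i hi => ?_) hx
  by_cases h : i ∈ J
  · rw [pr_b_mem b h]
    exact b_mem b ⟨hi, h⟩
  · rw [pr_b_ne b h]
    exact Submodule.zero_mem _

end sp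

section main

variable {K : Type u} [Field K] [CharZero K] {V : Type v} [AddCommGroup V] [Module K V]
  {I : Type} [Fintype I] {b : Basis I K V} {a : I → ℤ} {N e h : Module.End K V}

/-- The weight vectors. -/
lemma mem_wt (H : IsSl2 N b a e h) {r : ℤ} {x : V} :
    h x = (r : K) • x ↔ x ∈ sp b {i | a i = r} := by
  constructor
  · intro hx i hi
    have h1 : b.repr (h x) i = (a i : K) * b.repr x i := by
      have h2 : ∀ y : V, b.repr (h y) i = (a i : K) * b.repr y i := by
        intro y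
        have : (Finsupp.lapply i ∘ₗ b.repr.toLinearMap ∘ₗ h : V →ₗ[K] K) =
            (a i : K) • (Finsupp.lapply i ∘ₗ b.repr.toLinearMap) := by
          refine b.ext fun j => ?_
          simp only [LinearMap.comp_apply, LinearEquiv.coe_coe, Finsupp.lapply_apply,
            LinearMap.smul_apply, H.wt, map_smul, b.repr_self, Finsupp.smul_apply, smul_eq_mul]
          by_cases hj : j = i
          · rw [hj]
          · rw [Finsupp.single_eq_of_ne (Ne.symm hj), mul_zero, mul_zero]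
        exact LinearMap.congr_fun this y
      exact h2 x
    rw [hx, map_smul, Finsupp.smul_apply, smul_eq_mul] at h1
    by_contra hne
    have h3 : (r : K) = (a i : K) := mul_right_cancel₀ hne h1
    exact hi (Int.cast_injective h3).symm
  · intro hx
    exact eq_on b (f := h) (g := (r : K) • LinearMap.id) (fun i hi => by
      rw [H.wt, LinearMap.smul_apply, LinearMap.id_apply, show a i = r from hi]) hx

lemma N_wt (H : IsSl2 N b a e h) {r : ℤ} {x : V} (hx : x ∈ sp b {i | a i = r}) :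
    N x ∈ sp b {i | a i = r - 2} := by
  rw [← mem_wt H] at hx ⊢
  have h1 := LinearMap.congr_fun H.hN x
  rw [LinearMap.sub_apply, Module.End.mul_apply, Module.End.mul_apply, LinearMap.smul_apply, hx,
    map_smul, sub_eq_iff_eq_add, ← add_smul] at h1
  rw [h1]
  push_cast
  congr 1
  ring

lemma N_pow_wt (H : IsSl2 N b a e h) {r : ℤ} {x : V} (hx : x ∈ sp b {i | a i = r}) (m : ℕ) :
    (N ^ m) x ∈ sp b {i | a i = r - 2 * m} := by
  induction m with
  | zero => simpa using hx
  | succ m ih =>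
    rw [pow_succ', Module.End.mul_apply]
    have := N_wt H ih
    rwa [show r - 2 * (m : ℤ) - 2 = r - 2 * ((m + 1 : ℕ) : ℤ) by push_cast; ring] at this

lemma N_inj (H : IsSl2 N b a e h) {r : ℤ} (hr : 1 ≤ r) {x : V} (hx : x ∈ sp b {i | a i = r})
    (h0 : N x = 0) : x = 0 := by
  obtain ⟨m, rfl⟩ : ∃ m : ℕ, r = m + 1 := ⟨(r - 1).toNat, by omega⟩
  refine (Pool.Agent.Y141.MW.stL K V N I b a e h H (m + 1)).1 x ?_ ?_
  · rw [← mem_wt H] at hx
    rw [hx]
    push_cast
    rfl
  · rw [pow_succ, Module.End.mul_apply, h0, map_zero]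

lemma N_surj (H : IsSl2 N b a e h) {r : ℤ} (hr : r ≤ -1) {y : V} (hy : y ∈ sp b {i | a i = r}) :
    ∃ x ∈ sp b {i | a i = r + 2}, N x = y := by
  obtain ⟨m, rfl⟩ : ∃ m : ℕ, r = -((m + 1 : ℕ) : ℤ) := ⟨(-r - 1).toNat, by push_cast; omega⟩
  obtain ⟨x, hx, hx'⟩ := (Pool.Agent.Y141.MW.stL K V N I b a e h H (m + 1)).2 y (by
    rw [← mem_wt H] at hy
    rw [hy]
    push_cast
    rfl)
  refine ⟨(N ^ m) x, ?_, ?_⟩
  · have h1 : x ∈ sp b {i | a i = ((m + 1 : ℕ) : ℤ)} := (mem_wt H).1 (by rw [hx]; push_cast; rfl)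
    have h2 := N_pow_wt H h1 m
    rwa [show ((m + 1 : ℕ) : ℤ) - 2 * (m : ℤ) = -((m + 1 : ℕ) : ℤ) + 2 by push_cast; ring] at h2
  · rw [← hx', pow_succ', Module.End.mul_apply]

/-- The hypotheses on a stable set `Q` of indices and on the operator `f`. -/
structure Lead (b : Basis I K V) (a : I → ℤ) (N f : Module.End K V) (t : K) (Q : Set I) :
    Prop where
  t0 : t ≠ 0
  stab : ∀ i ∈ Q, N (b i) ∈ sp b Q
  costab : ∀ i ∉ Q, N (b i) ∈ sp b Qᶜ
  lead : ∀ i ∈ Q, f (b i) - t • N (b i) ∈ sp b (Q ∩ {j | a j ≤ a i - 4})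

variable {f : Module.End K V} {t : K} {Q : Set I}

lemma pr_N (L : Lead b a N f t Q) (x : V) : pr b Q (N x) = N (pr b Q x) := by
  have hx : x ∈ sp b Set.univ := by rw [sp_univ]; trivial
  refine eq_on b (f := pr b Q ∘ₗ N) (g := N ∘ₗ pr b Q) (fun i _ => ?_) hx
  rw [LinearMap.comp_apply, LinearMap.comp_apply]
  by_cases hi : i ∈ Q
  · rw [pr_b_mem b hi]
    exact pr_eq b (L.stab i hi) subset_rfl
  · rw [pr_b_ne b hi, map_zero]
    exact pr_zero b (L.costab i hi) disjoint_compl_right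

/-- Surjectivity of `N` on the stable part. -/
lemma N_surj' (H : IsSl2 N b a e h) (L : Lead b a N f t Q) {r : ℤ} (hr : r ≤ -1) {y : V}
    (hy : y ∈ sp b (Q ∩ {i | a i = r})) : ∃ x ∈ sp b (Q ∩ {i | a i = r + 2}), N x = y := by
  obtain ⟨x, hx, rfl⟩ := N_surj H hr (sp_mono b Set.inter_subset_right hy)
  refine ⟨pr b Q x, ?_, ?_⟩
  · rw [Set.inter_comm]
    exact pr_inter b hx
  · rw [← pr_N L]
    exact pr_eq b (sp_mono b Set.inter_subset_left hy) subset_rfl

lemma N_wt' (H : IsSl2 N b a e h) (L : Lead b a N f t Q) {r : ℤ} {x : V}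
    (hx : x ∈ sp b (Q ∩ {i | a i = r})) : N x ∈ sp b (Q ∩ {i | a i = r - 2}) := by
  rw [← sp_inf] at hx ⊢
  exact ⟨map_mem_sp b N L.stab hx.1, N_wt H hx.2⟩

lemma N_le (H : IsSl2 N b a e h) (L : Lead b a N f t Q) {r : ℤ} {x : V}
    (hx : x ∈ sp b (Q ∩ {i | a i ≤ r})) : N x ∈ sp b (Q ∩ {i | a i ≤ r - 2}) := by
  refine map_mem_sp b N (fun i hi => ?_) hx
  have h1 := N_wt' H L (r := a i) (b_mem b (J := Q ∩ {j | a j = a i}) ⟨hi.1, rfl⟩)
  refine sp_mono b ?_ h1
  rintro j ⟨hj, hj'⟩
  have h2 : a i ≤ r := hi.2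
  have h3 : a j = a i - 2 := hj'
  exact ⟨hj, show a j ≤ r - 2 by omega⟩

lemma f_sub_le (L : Lead b a N f t Q) {r : ℤ} {x : V}
    (hx : x ∈ sp b (Q ∩ {i | a i ≤ r})) : f x - t • N x ∈ sp b (Q ∩ {i | a i ≤ r - 4}) := by
  refine map_mem_sp b (f - t • N) (fun i hi => ?_) hx
  refine sp_mono b ?_ (L.lead i hi.1)
  rintro j ⟨hj, hj'⟩
  have h2 : a i ≤ r := hi.2
  have h3 : a j ≤ a i - 4 := hj'
  exact ⟨hj, show a j ≤ r - 4 by omega⟩

lemma f_le (H : IsSl2 N b a e h) (L : Lead b a N f t Q) {r : ℤ} {x : V}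
    (hx : x ∈ sp b (Q ∩ {i | a i ≤ r})) : f x ∈ sp b (Q ∩ {i | a i ≤ r - 2}) := by
  have h1 := f_sub_le L hx
  have h2 := N_le H L hx
  have h3 : f x = (f x - t • N x) + t • N x := by abel
  rw [h3]
  refine Submodule.add_mem _ (sp_mono b ?_ h1) (Submodule.smul_mem _ _ h2)
  rintro j ⟨hj, hj'⟩
  have h4 : a j ≤ r - 4 := hj'
  exact ⟨hj, show a j ≤ r - 2 by omega⟩

/-- The leading term of a vector of the kernel of `f` is killed by `N`. -/
lemma lead_ker (H : IsSl2 N b a e h) (L : Lead b a N f t Q) {r : ℤ} {x : V}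
    (hx : x ∈ sp b (Q ∩ {i | a i ≤ r})) (h0 : f x = 0) : N (pr b {i | a i = r} x) = 0 := by
  set y := pr b {i | a i = r} x with hy
  have hy1 : y ∈ sp b (Q ∩ {i | a i = r}) := by
    refine sp_mono b ?_ (pr_inter b hx)
    rintro j ⟨⟨hj, -⟩, hj'⟩
    exact ⟨hj, hj'⟩
  have hz : x - y ∈ sp b (Q ∩ {i | a i ≤ r - 1}) := by
    refine sp_mono b ?_ (sub_pr_mem b hx)
    rintro j ⟨⟨hj, hj1⟩, hj'⟩
    have h1 : a j ≤ r := hj1
    have h2 : ¬ a j = r := hj'
    exact ⟨hj, show a j ≤ r - 1 by omega⟩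
  have h1 : t • N y ∈ sp b {i | a i ≤ r - 3} := by
    have e1 : t • N y = -(f y - t • N y) - f (x - y) := by
      rw [map_sub, h0]; abel
    rw [e1]
    refine Submodule.sub_mem _ (Submodule.neg_mem _ ?_) ?_
    · refine sp_mono b ?_ (f_sub_le L (r := r) (sp_mono b ?_ hy1))
      · rintro j ⟨-, hj⟩
        have h2 : a j ≤ r - 4 := hj
        exact show a j ≤ r - 3 by omega
      · rintro j ⟨hj, hj'⟩
        exact ⟨hj, le_of_eq hj'⟩
    · refine sp_mono b ?_ (f_le H L hz)
      rintro j ⟨-, hj⟩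
      have h2 : a j ≤ r - 1 - 2 := hj
      exact show a j ≤ r - 3 by omega
  have h2 : N y ∈ sp b {i | a i ≤ r - 3} := by
    have := Submodule.smul_mem _ t⁻¹ h1
    rwa [smul_smul, inv_mul_cancel₀ L.t0, one_smul] at this
  have h3 := sp_mono b Set.inter_subset_right (N_wt' H L hy1)
  have h4 : N y ∈ sp b ({i | a i ≤ r - 3} ∩ {i | a i = r - 2}) := by
    rw [← sp_inf]; exact ⟨h2, h3⟩
  rw [sp_empty b] at h4
  · exact (Submodule.mem_bot _).1 h4
  · ext j
    simp only [Set.mem_inter_iff, Set.mem_ofPred_eq, Set.mem_empty_iff_false, iff_false]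
    omega

lemma exists_bound (a : I → ℤ) : ∃ B : ℕ, ∀ i, |a i| ≤ B := by
  refine ⟨∑ i, (a i).natAbs, fun i => ?_⟩
  rw [Int.abs_eq_natAbs]
  exact_mod_cast Finset.single_le_sum (f := fun i => (a i).natAbs) (fun _ _ => Nat.zero_le _)
    (Finset.mem_univ i)

/-- The kernel of `f` is contained in the part of weights at most zero. -/
lemma ker_le_zero (H : IsSl2 N b a e h) (L : Lead b a N f t Q) {x : V} (hx : x ∈ sp b Q)
    (h0 : f x = 0) : x ∈ sp b (Q ∩ {i | a i ≤ 0}) := by
  obtain ⟨B, hB⟩ := exists_bound a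
  have key : ∀ n : ℕ, x ∈ sp b (Q ∩ {i | a i ≤ n}) → x ∈ sp b (Q ∩ {i | a i ≤ 0}) := by
    intro n
    induction n with
    | zero => intro h; exact_mod_cast h
    | succ n ih =>
      intro h
      apply ih
      have h1 := lead_ker H L h h0
      have h2 : pr b {i | a i = ((n + 1 : ℕ) : ℤ)} x ∈ sp b {i | a i = ((n + 1 : ℕ) : ℤ)} :=
        pr_mem b _ x
      have h3 := N_inj H (by push_cast; omega) h2 h1
      have h4 := sub_pr_mem b (J := {i | a i = ((n + 1 : ℕ) : ℤ)}) h
      rw [h3, sub_zero] at h4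
      refine sp_mono b ?_ h4
      rintro j ⟨⟨hj, hj1⟩, hj'⟩
      have h5 : a j ≤ ((n + 1 : ℕ) : ℤ) := hj1
      have h6 : ¬ a j = ((n + 1 : ℕ) : ℤ) := hj'
      exact ⟨hj, show a j ≤ n by push_cast at h5 h6; omega⟩
  apply key B
  refine sp_mono b ?_ hx
  intro j hj
  exact ⟨hj, show a j ≤ B from (abs_le.1 (hB j)).2⟩

/-- The part of negative weights is contained in the image of `f`. -/
lemma le_range (H : IsSl2 N b a e h) (L : Lead b a N f t Q) {y : V}
    (hy : y ∈ sp b (Q ∩ {i | a i ≤ -1})) : ∃ x ∈ sp b Q, f x = y := by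
  obtain ⟨B, hB⟩ := exists_bound a
  have key : ∀ n : ℕ, ∃ x ∈ sp b Q, y - f x ∈ sp b (Q ∩ {i | a i ≤ -1 - n}) := by
    intro n
    induction n with
    | zero => exact ⟨0, Submodule.zero_mem _, by simpa using hy⟩
    | succ n ih =>
      obtain ⟨x, hx, hx'⟩ := ih
      set z := y - f x with hz
      have h1 : pr b {i | a i = -1 - (n : ℤ)} z ∈ sp b (Q ∩ {i | a i = -1 - (n : ℤ)}) := by
        refine sp_mono b ?_ (pr_inter b hx')
        rintro j ⟨⟨hj, -⟩, hj'⟩
        exact ⟨hj, hj'⟩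
      obtain ⟨w, hw, hw'⟩ := N_surj' H L (by omega) h1
      refine ⟨x + t⁻¹ • w, Submodule.add_mem _ hx (Submodule.smul_mem _ _
        (sp_mono b Set.inter_subset_left hw)), ?_⟩
      have h2 : y - f (x + t⁻¹ • w) = (z - pr b {i | a i = -1 - (n : ℤ)} z) -
          t⁻¹ • (f w - t • N w) := by
        rw [map_add, map_smul, smul_sub, smul_smul, inv_mul_cancel₀ L.t0, one_smul, hw', hz]
        abel
      rw [h2]
      refine Submodule.sub_mem _ ?_ (Submodule.smul_mem _ _ ?_)
      · refine sp_mono b ?_ (sub_pr_mem b hx')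
        rintro j ⟨⟨hj, hj1⟩, hj'⟩
        have h5 : a j ≤ -1 - (n : ℤ) := hj1
        have h6 : ¬ a j = -1 - (n : ℤ) := hj'
        exact ⟨hj, show a j ≤ -1 - ((n + 1 : ℕ) : ℤ) by push_cast; omega⟩
      · refine sp_mono b ?_ (f_sub_le L (r := -1 - (n : ℤ) + 2) (sp_mono b ?_ hw))
        · rintro j ⟨hj, hj'⟩
          have h5 : a j ≤ -1 - (n : ℤ) + 2 - 4 := hj'
          exact ⟨hj, show a j ≤ -1 - ((n + 1 : ℕ) : ℤ) by push_cast; omega⟩
        · rintro j ⟨hj, hj'⟩
          exact ⟨hj, le_of_eq hj'⟩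
  obtain ⟨x, hx, hx'⟩ := key B
  refine ⟨x, hx, ?_⟩
  rw [sp_empty b] at hx'
  · exact (sub_eq_zero.1 ((Submodule.mem_bot _).1 hx')).symm
  · ext j
    simp only [Set.mem_inter_iff, Set.mem_ofPred_eq, Set.mem_empty_iff_false, iff_false, not_and,
      not_le]
    intro _
    have := (abs_le.1 (hB j)).1
    omega

/-- The number of indices in `Q` of weight `r`. -/
noncomputable def cn (a : I → ℤ) (Q : Set I) (r : ℤ) : ℕ := Nat.card ↑(Q ∩ {i | a i = r})

/-- `N` from the weight `r ≤ 0` to the weight `r - 2` is surjective. -/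
lemma finrank_kerN (H : IsSl2 N b a e h) (L : Lead b a N f t Q) {r : ℤ} (hr : r ≤ 0) :
    finrank K (LinearMap.ker N ⊓ sp b (Q ∩ {i | a i = r}) : Submodule K V) + cn a Q (r - 2) =
      cn a Q r := by
  have : Module.Finite K V := Module.Finite.of_basis b
  set S := sp b (Q ∩ {i | a i = r}) with hS
  let g : S →ₗ[K] V := N ∘ₗ S.subtype
  have h1 := LinearMap.finrank_range_add_finrank_ker g
  have h2 : LinearMap.range g = sp b (Q ∩ {i | a i = r - 2}) := by
    ext y
    constructor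
    · rintro ⟨x, rfl⟩
      exact N_wt' H L x.2
    · intro hy
      obtain ⟨x, hx, hxy⟩ := N_surj' H L (by omega) hy
      rw [show r - 2 + 2 = r by ring] at hx
      exact ⟨⟨x, hx⟩, hxy⟩
  have h3 : finrank K (LinearMap.ker g) =
      finrank K (LinearMap.ker N ⊓ S : Submodule K V) := by
    have e1 : LinearMap.ker g = (LinearMap.ker N).comap S.subtype := by
      ext x
      rfl
    rw [e1, inf_comm, ← Submodule.finrank_map_subtype_eq, Submodule.map_comap_subtype]
  rw [h2, h3, hS, finrank_sp, finrank_sp] at h1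
  unfold cn
  rw [hS]
  omega

/-- **Upper bound for the kernel.** -/
theorem finrank_ker_le (H : IsSl2 N b a e h) (L : Lead b a N f t Q) :
    finrank K (LinearMap.ker f ⊓ sp b Q : Submodule K V) ≤ cn a Q 0 + cn a Q (-1) := by
  have : Module.Finite K V := Module.Finite.of_basis b
  obtain ⟨B, hB⟩ := exists_bound a
  have key : ∀ n : ℕ, ∀ r : ℤ, r = -(B : ℤ) - 1 + n → r ≤ 0 →
      finrank K (LinearMap.ker f ⊓ sp b (Q ∩ {i | a i ≤ r}) : Submodule K V) ≤
        cn a Q r + cn a Q (r - 1) := by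
    intro n
    induction n with
    | zero =>
      intro r hr _
      rw [sp_empty b (J := Q ∩ {i | a i ≤ r}), inf_bot_eq, finrank_bot]
      · exact Nat.zero_le _
      · ext j
        simp only [Set.mem_inter_iff, Set.mem_ofPred_eq, Set.mem_empty_iff_false, iff_false,
          not_and, not_le]
        intro _
        have := (abs_le.1 (hB j)).1
        simp at hr
        omega
    | succ n ih =>
      intro r hr hr0
      have h1 := ih (r - 1) (by push_cast at hr; omega) (by omega)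
      set A : Submodule K V := LinearMap.ker f ⊓ sp b (Q ∩ {i | a i ≤ r}) with hA
      let g : A →ₗ[K] V := pr b {i | a i = r} ∘ₗ A.subtype
      have h2 := LinearMap.finrank_range_add_finrank_ker g
      have h3 : finrank K (LinearMap.ker g) ≤
          finrank K (LinearMap.ker f ⊓ sp b (Q ∩ {i | a i ≤ r - 1}) : Submodule K V) := by
        rw [← Submodule.finrank_map_subtype_eq]
        apply Submodule.finrank_mono
        rintro _ ⟨x, hx, rfl⟩
        refine ⟨x.2.1, ?_⟩
        have h4 : pr b {i | a i = r} (x : V) = 0 := hx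
        have h5 := sub_pr_mem b (J := {i | a i = r}) x.2.2
        rw [h4, sub_zero] at h5
        refine sp_mono b ?_ h5
        rintro j ⟨⟨hj, hj1⟩, hj'⟩
        have h5 : a j ≤ r := hj1
        have h6 : ¬ a j = r := hj'
        exact ⟨hj, show a j ≤ r - 1 by omega⟩
      have h4 : finrank K (LinearMap.range g) ≤
          finrank K (LinearMap.ker N ⊓ sp b (Q ∩ {i | a i = r}) : Submodule K V) := by
        apply Submodule.finrank_mono
        rintro _ ⟨x, rfl⟩
        refine ⟨lead_ker H L x.2.2 x.2.1, ?_⟩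
        refine sp_mono b ?_ (pr_inter b x.2.2)
        rintro j ⟨⟨hj, -⟩, hj'⟩
        exact ⟨hj, hj'⟩
      have h5 := finrank_kerN H L hr0
      rw [show r - 1 - 1 = r - 2 by ring] at h1
      omega
  have h1 := key (B + 1) 0 (by push_cast; ring) le_rfl
  rw [zero_sub] at h1
  refine le_trans (Submodule.finrank_mono ?_) h1
  rintro x ⟨hx, hx'⟩
  exact ⟨hx, ker_le_zero H L hx' hx⟩

/-- **Lower bound for the kernel.** -/
theorem le_finrank_ker (H : IsSl2 N b a e h) (L : Lead b a N f t Q) :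
    cn a Q 0 + cn a Q 1 ≤ finrank K (LinearMap.ker f ⊓ sp b Q : Submodule K V) := by
  classical
  have : Module.Finite K V := Module.Finite.of_basis b
  set S := sp b (Q ∩ {i | a i ≤ 1}) with hS
  let g : S →ₗ[K] V := f ∘ₗ S.subtype
  have h1 := LinearMap.finrank_range_add_finrank_ker g
  have h2 : finrank K (LinearMap.range g) ≤ finrank K (sp b (Q ∩ {i | a i ≤ -1})) := by
    apply Submodule.finrank_mono
    rintro _ ⟨x, rfl⟩
    exact f_le H L x.2
  have h3 : finrank K (LinearMap.ker g) ≤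
      finrank K (LinearMap.ker f ⊓ sp b Q : Submodule K V) := by
    rw [← Submodule.finrank_map_subtype_eq]
    apply Submodule.finrank_mono
    rintro _ ⟨x, hx, rfl⟩
    exact ⟨hx, sp_mono b Set.inter_subset_left x.2⟩
  rw [finrank_sp] at h2
  have h0 : finrank K S = Nat.card ↑(Q ∩ {i | a i ≤ 1}) := by rw [hS, finrank_sp]
  have h4 : Nat.card ↑(Q ∩ {i | a i ≤ 1}) =
      Nat.card ↑(Q ∩ {i | a i ≤ -1}) + cn a Q 0 + cn a Q 1 := by
    unfold cn
    simp only [Nat.card_coe_set_eq]
    rw [← Set.ncard_union_eq, ← Set.ncard_union_eq]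
    · congr 1
      ext i
      simp only [Set.mem_inter_iff, Set.mem_ofPred_eq, Set.mem_union]
      constructor
      · rintro ⟨h1, h2⟩
        rcases lt_trichotomy (a i) 0 with h3 | h3 | h3
        · exact Or.inl (Or.inl ⟨h1, by omega⟩)
        · exact Or.inl (Or.inr ⟨h1, h3⟩)
        · exact Or.inr ⟨h1, by omega⟩
      · rintro ((⟨h1, h2⟩ | ⟨h1, h2⟩) | ⟨h1, h2⟩)
        · exact ⟨h1, by omega⟩
        · exact ⟨h1, by omega⟩
        · exact ⟨h1, by omega⟩
    · rw [Set.disjoint_left]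
      rintro i (⟨h1, h2⟩ | ⟨h1, h2⟩) ⟨h3, h4⟩
      · have h5 : a i ≤ -1 := h2
        have h6 : a i = 1 := h4
        omega
      · have h5 : a i = 0 := h2
        have h6 : a i = 1 := h4
        omega
    · rw [Set.disjoint_left]
      rintro i ⟨h1, h2⟩ ⟨h3, h4⟩
      have h5 : a i ≤ -1 := h2
      have h6 : a i = 0 := h4
      omega
  omega

/-- **The kernel modulo the image.** -/
theorem finrank_le_image (H : IsSl2 N b a e h) (L : Lead b a N f t Q) (A : Submodule K V)
    (hA : A ≤ LinearMap.ker f ⊓ sp b Q) :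
    finrank K A + cn a Q (-2) ≤ finrank K (A ⊓ (sp b Q).map f : Submodule K V) + cn a Q 0 := by
  have : Module.Finite K V := Module.Finite.of_basis b
  let g : A →ₗ[K] V := pr b {i | a i = 0} ∘ₗ A.subtype
  have h2 := LinearMap.finrank_range_add_finrank_ker g
  have h3 : finrank K (LinearMap.ker g) ≤
      finrank K (A ⊓ (sp b Q).map f : Submodule K V) := by
    rw [← Submodule.finrank_map_subtype_eq]
    apply Submodule.finrank_mono
    rintro _ ⟨x, hx, rfl⟩
    refine ⟨x.2, ?_⟩
    obtain ⟨hx1, hx2⟩ := hA x.2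
    have h4 : pr b {i | a i = 0} (x : V) = 0 := hx
    have h5 := sub_pr_mem b (J := {i | a i = 0}) (ker_le_zero H L hx2 hx1)
    rw [h4, sub_zero] at h5
    obtain ⟨y, hy, hy'⟩ := le_range H L (y := (x : V)) (by
      refine sp_mono b ?_ h5
      rintro j ⟨⟨hj, hj1⟩, hj'⟩
      have h5 : a j ≤ 0 := hj1
      have h6 : ¬ a j = 0 := hj'
      exact ⟨hj, show a j ≤ -1 by omega⟩)
    exact ⟨y, hy, hy'⟩
  have h4 : finrank K (LinearMap.range g) ≤
      finrank K (LinearMap.ker N ⊓ sp b (Q ∩ {i | a i = 0}) : Submodule K V) := by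
    apply Submodule.finrank_mono
    rintro _ ⟨x, rfl⟩
    obtain ⟨hx1, hx2⟩ := hA x.2
    have h5 := ker_le_zero H L hx2 hx1
    refine ⟨lead_ker H L h5 hx1, ?_⟩
    refine sp_mono b ?_ (pr_inter b h5)
    rintro j ⟨⟨hj, -⟩, hj'⟩
    exact ⟨hj, hj'⟩
  have h5 := finrank_kerN H L le_rfl
  rw [zero_sub] at h5
  omega

/-- Unimodality of the numbers of the weights. -/
theorem cn_anti (H : IsSl2 N b a e h) (L : Lead b a N f t Q) {r : ℤ} (hr : 1 ≤ r) :
    cn a Q r ≤ cn a Q (r - 2) := by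
  have : Module.Finite K V := Module.Finite.of_basis b
  set S := sp b (Q ∩ {i | a i = r}) with hS
  let g : S →ₗ[K] sp b (Q ∩ {i | a i = r - 2}) :=
    LinearMap.codRestrict _ (N ∘ₗ S.subtype) fun x => N_wt' H L x.2
  have hg : Function.Injective g := by
    rw [← LinearMap.ker_eq_bot, LinearMap.ker_eq_bot']
    intro x hx
    apply Subtype.ext
    refine N_inj H hr (sp_mono b Set.inter_subset_right x.2) ?_
    exact congrArg Subtype.val hx
  have h1 := LinearMap.finrank_le_finrank_of_injective hg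
  rwa [hS, finrank_sp, finrank_sp] at h1

end main

end Pool.Agent.K7.H8.TH
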