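import Mathlib
import Pool.Agent.Y67.MW.C1

/-!
# Characters of tensor products of representations of `sl(2)`: counting functions
-/

set_option autoImplicit false
set_option linter.unusedSectionVars false

open Finset

namespace Pool.Agent.K7.H8.TH

/-- The comparison function. -/
noncomputable def gg (x : ℝ) : ℝ := (1 + 2 * |Real.cos x|) / 3

lemma gg_nonneg (x : ℝ) : 0 ≤ gg x := by
  unfold gg; positivity

lemma gg_le_one (x : ℝ) : gg x ≤ 1 := by
  unfold gg
  have := Real.abs_cos_le_one x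
  linarith

lemma gg_cont : Continuous gg := by
  unfold gg
  fun_prop

/-- The characters of the irreducible representations of `sl(2)`. -/
noncomputable def X : ℕ → ℝ → ℝ
  | 0, _ => 1
  | 1, x => 2 * Real.cos x
  | l + 2, x => X l x + 2 * Real.cos ((l + 2) * x)

lemma X_step (l : ℕ) (x : ℝ) : X (l + 4) x = X l x + 4 * Real.cos x * Real.cos ((l + 3) * x) := by
  have h1 : X (l + 4) x = X (l + 2) x + 2 * Real.cos (((l + 2 : ℕ) + 2) * x) := rfl
  have h2 : X (l + 2) x = X l x + 2 * Real.cos ((l + 2) * x) := rfl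
  rw [h1, h2]
  have h3 : (((l + 2 : ℕ) : ℝ) + 2) * x = (l + 3) * x + x := by push_cast; ring
  have h4 : ((l : ℝ) + 2) * x = (l + 3) * x - x := by ring
  rw [h3, h4, Real.cos_add, Real.cos_sub]
  ring

lemma X_le (l : ℕ) (x : ℝ) : |X (l + 1) x| ≤ (l + 2) * gg x := by
  have hc := Real.abs_cos_le_one x
  have hc0 := abs_nonneg (Real.cos x)
  induction l using Nat.strong_induction_on with
  | _ l ih =>
    match l with
    | 0 =>
      show |2 * Real.cos x| ≤ _
      rw [abs_mul, abs_two]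
      unfold gg
      push_cast
      linarith
    | 1 =>
      show |1 + 2 * Real.cos ((((0 : ℕ) : ℝ) + 2) * x)| ≤ _
      have h1 : (((0 : ℕ) : ℝ) + 2) * x = 2 * x := by push_cast; ring
      rw [h1, Real.cos_two_mul]
      unfold gg
      have h2 : Real.cos x ^ 2 = |Real.cos x| ^ 2 := (sq_abs _).symm
      rw [h2, abs_le]
      push_cast
      constructor <;> nlinarith
    | 2 =>
      show |2 * Real.cos x + 2 * Real.cos ((((1 : ℕ) : ℝ) + 2) * x)| ≤ _
      have h1 : (((1 : ℕ) : ℝ) + 2) * x = 2 * x + x := by push_cast; ring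
      have h2 : 2 * Real.cos x + 2 * Real.cos (2 * x + x) =
          4 * Real.cos x * Real.cos (2 * x) := by
        rw [Real.cos_add, Real.cos_two_mul, Real.sin_two_mul]
        have := Real.sin_sq_add_cos_sq x
        have h3 : Real.sin x ^ 2 = 1 - Real.cos x ^ 2 := by linarith
        have h4 : 2 * Real.sin x * Real.cos x * Real.sin x =
            2 * Real.cos x * Real.sin x ^ 2 := by ring
        rw [h4, h3]
        ring
      rw [h1, h2, abs_mul, abs_mul]
      have h3 := Real.abs_cos_le_one (2 * x)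
      have h4 : |(4 : ℝ)| = 4 := abs_of_pos (by norm_num)
      rw [h4]
      unfold gg
      have h5 : 4 * |Real.cos x| * |Real.cos (2 * x)| ≤ 4 * |Real.cos x| * 1 :=
        mul_le_mul_of_nonneg_left h3 (by positivity)
      push_cast
      linarith
    | 3 =>
      have h1 := X_step 0 x
      rw [show (3 : ℕ) + 1 = 0 + 4 by rfl, h1]
      show |1 + 4 * Real.cos x * Real.cos ((((0 : ℕ) : ℝ) + 3) * x)| ≤ _
      have h3 := Real.abs_cos_le_one ((((0 : ℕ) : ℝ) + 3) * x)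
      have h5 : |4 * Real.cos x * Real.cos ((((0 : ℕ) : ℝ) + 3) * x)| ≤ 4 * |Real.cos x| * 1 := by
        rw [abs_mul, abs_mul, abs_of_pos (by norm_num : (0 : ℝ) < 4)]
        exact mul_le_mul_of_nonneg_left h3 (by positivity)
      have h6 := abs_add_le (1 : ℝ) (4 * Real.cos x * Real.cos ((((0 : ℕ) : ℝ) + 3) * x))
      rw [abs_one] at h6
      refine (h6.trans (add_le_add_right h5 1)).trans ?_
      unfold gg
      push_cast
      linarith
    | m + 4 =>
      have h1 := X_step (m + 1) x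
      rw [show (m + 4 + 1 : ℕ) = m + 1 + 4 by ring, h1]
      have h2 := ih m (by omega)
      have h3 := Real.abs_cos_le_one ((((m + 1 : ℕ) : ℝ) + 3) * x)
      have h5 : |4 * Real.cos x * Real.cos ((((m + 1 : ℕ) : ℝ) + 3) * x)| ≤
          4 * |Real.cos x| * 1 := by
        rw [abs_mul, abs_mul, abs_of_pos (by norm_num : (0 : ℝ) < 4)]
        exact mul_le_mul_of_nonneg_left h3 (by positivity)
      have h6 := abs_add_le (X (m + 1) x)
        (4 * Real.cos x * Real.cos ((((m + 1 : ℕ) : ℝ) + 3) * x))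
      have h7 : 4 * |Real.cos x| ≤ 4 * gg x := by unfold gg; linarith
      push_cast at *
      nlinarith

/-- The character of a string. -/
lemma sum_exp (l : ℕ) (x : ℝ) : ∑ i ∈ range (l + 1),
    Complex.exp (((((l : ℤ) - 2 * (i : ℤ) : ℤ) : ℝ) * x : ℝ) * Complex.I) = X l x := by
  induction l using Nat.strong_induction_on with
  | _ l ih =>
    match l with
    | 0 => simp [X]
    | 1 =>
      rw [sum_range_succ, sum_range_one]
      have h1 : X 1 x = 2 * Real.cos x := rfl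
      rw [h1]
      push_cast
      rw [Complex.cos]
      ring_nf
    | m + 2 =>
      have h1 : X (m + 2) x = X m x + 2 * Real.cos ((m + 2) * x) := rfl
      rw [h1, sum_range_succ, sum_range_succ']
      have h2 : ∑ k ∈ range (m + 1),
          Complex.exp ((((((m + 2 : ℕ) : ℤ) - 2 * ((k + 1 : ℕ) : ℤ) : ℤ) : ℝ) * x : ℝ) *
            Complex.I) = X m x := by
        rw [← ih m (by omega)]
        refine sum_congr rfl fun k _ => ?_
        congr 3
        push_cast
        ring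
      rw [h2]
      push_cast
      rw [Complex.cos]
      ring_nf

section wts

variable {I Θ I' Θ' : Type} [Fintype I] [DecidableEq Θ] [Fintype I'] [DecidableEq Θ']

/-- The indices of type `θ`. -/
def fib (ty : I → Θ) (θ : Θ) : Finset I := univ.filter fun i => ty i = θ

lemma mem_fib {ty : I → Θ} {θ : Θ} {i : I} : i ∈ fib ty θ ↔ ty i = θ := by
  simp [fib]

lemma fib_prod (ty : I → Θ) (ty' : I' → Θ') (θ : Θ × Θ') :
    fib (fun p : I × I' => (ty p.1, ty' p.2)) θ = fib ty θ.1 ×ˢ fib ty' θ.2 := by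
  ext ⟨i, j⟩
  rw [mem_fib, mem_product, mem_fib, mem_fib, Prod.ext_iff]

/-- The properties of the weights of the representations of `sl(2)` of the various types: they are
products of irreducible representations, `k θ` of which are not trivial. -/
structure Wts (a : I → ℤ) (ty : I → Θ) (k : Θ → ℕ) (v : ℝ) : Prop where
  invol : ∃ σ : I ≃ I, ∀ i, ty (σ i) = ty i ∧ a (σ i) = -a i
  chr : ∀ θ (x : ℝ), ‖∑ i ∈ fib ty θ, Complex.exp (((a i : ℝ) * x : ℝ) * Complex.I)‖ ≤
    (fib ty θ).card * gg x ^ k θ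
  mom : ∀ θ, ∑ i ∈ fib ty θ, (a i : ℝ) ^ 2 ≤ v * (fib ty θ).card

variable {a : I → ℤ} {ty : I → Θ} {k : Θ → ℕ} {v : ℝ} {a' : I' → ℤ} {ty' : I' → Θ'} {k' : Θ' → ℕ}
  {v' : ℝ}

lemma Wts.sum_fib (W : Wts a ty k v) (f : ℤ → ℝ) (θ : Θ) :
    ∑ i ∈ fib ty θ, f (a i) = ∑ i ∈ fib ty θ, f (-a i) := by
  obtain ⟨σ, hσ⟩ := W.invol
  refine (Finset.sum_equiv σ (fun i => ?_) (fun i _ => ?_)).symm
  · rw [mem_fib, mem_fib, (hσ i).1]
  · rw [(hσ i).2]

lemma Wts.sum_a (W : Wts a ty k v) (θ : Θ) : ∑ i ∈ fib ty θ, (a i : ℝ) = 0 := by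
  have h := W.sum_fib (fun r => (r : ℝ)) θ
  simp only [Int.cast_neg, sum_neg_distrib] at h
  linarith

lemma Wts.prod (W : Wts a ty k v) (W' : Wts a' ty' k' v') :
    Wts (fun p : I × I' => a p.1 + a' p.2) (fun p : I × I' => (ty p.1, ty' p.2))
      (fun θ : Θ × Θ' => k θ.1 + k' θ.2) (v + v') := by
  refine ⟨?_, ?_, ?_⟩
  · obtain ⟨σ, hσ⟩ := W.invol
    obtain ⟨σ', hσ'⟩ := W'.invol
    refine ⟨Equiv.prodCongr σ σ', fun p => ⟨?_, ?_⟩⟩
    · show (ty (σ p.1), ty' (σ' p.2)) = _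
      rw [(hσ p.1).1, (hσ' p.2).1]
    · show a (σ p.1) + a' (σ' p.2) = _
      rw [(hσ p.1).2, (hσ' p.2).2]
      ring
  · intro θ x
    rw [fib_prod, card_product]
    have h1 : ∑ p ∈ fib ty θ.1 ×ˢ fib ty' θ.2,
        Complex.exp ((((a p.1 + a' p.2 : ℤ) : ℝ) * x : ℝ) * Complex.I) =
        (∑ i ∈ fib ty θ.1, Complex.exp (((a i : ℝ) * x : ℝ) * Complex.I)) *
        ∑ j ∈ fib ty' θ.2, Complex.exp (((a' j : ℝ) * x : ℝ) * Complex.I) := by
      rw [sum_mul_sum, sum_product]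
      refine sum_congr rfl fun i _ => sum_congr rfl fun j _ => ?_
      rw [← Complex.exp_add]
      congr 1
      push_cast
      ring
    rw [h1, norm_mul, pow_add]
    calc _ ≤ ((fib ty θ.1).card * gg x ^ k θ.1) * ((fib ty' θ.2).card * gg x ^ k' θ.2) :=
          mul_le_mul (W.chr _ x) (W'.chr _ x) (norm_nonneg _)
            (mul_nonneg (Nat.cast_nonneg _) (pow_nonneg (gg_nonneg x) _))
      _ = _ := by push_cast; ring
  · intro θ
    rw [fib_prod, card_product]
    have h1 : ∑ p ∈ fib ty θ.1 ×ˢ fib ty' θ.2, (((a p.1 + a' p.2 : ℤ) : ℝ)) ^ 2 =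
        (∑ i ∈ fib ty θ.1, (a i : ℝ) ^ 2) * (fib ty' θ.2).card +
        2 * ((∑ i ∈ fib ty θ.1, (a i : ℝ)) * ∑ j ∈ fib ty' θ.2, (a' j : ℝ)) +
        (fib ty θ.1).card * ∑ j ∈ fib ty' θ.2, (a' j : ℝ) ^ 2 := by
      rw [sum_product, sum_mul_sum, mul_sum, sum_mul]
      have e1 : ∑ i ∈ fib ty θ.1, ∑ j ∈ fib ty' θ.2, ((a i + a' j : ℤ) : ℝ) ^ 2 =
          ∑ i ∈ fib ty θ.1, ((a i : ℝ) ^ 2 * (fib ty' θ.2).card +
            2 * ∑ j ∈ fib ty' θ.2, (a i : ℝ) * (a' j : ℝ) + ∑ j ∈ fib ty' θ.2, (a' j : ℝ) ^ 2) := by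
        refine sum_congr rfl fun i _ => ?_
        rw [mul_comm ((a i : ℝ) ^ 2), ← nsmul_eq_mul, ← sum_const, mul_sum, ← sum_add_distrib,
          ← sum_add_distrib]
        refine sum_congr rfl fun j _ => ?_
        push_cast
        ring
      rw [e1, sum_add_distrib, sum_add_distrib, sum_const, nsmul_eq_mul]
    rw [h1, W.sum_a, W'.sum_a]
    have h2 := W.mom θ.1
    have h3 := W'.mom θ.2
    have h4 : (0 : ℝ) ≤ (fib ty θ.1).card := Nat.cast_nonneg _
    have h5 : (0 : ℝ) ≤ (fib ty' θ.2).card := Nat.cast_nonneg _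
    have h6 := mul_le_mul_of_nonneg_right h2 h5
    have h7 := mul_le_mul_of_nonneg_left h3 h4
    push_cast
    nlinarith

lemma sum_pow_prod (k : Θ → ℕ) (k' : Θ' → ℕ) (ty : I → Θ) (ty' : I' → Θ') (y : ℝ) :
    ∑ p : I × I', y ^ (k (ty p.1) + k' (ty' p.2)) =
      (∑ i, y ^ k (ty i)) * ∑ j, y ^ k' (ty' j) := by
  rw [sum_mul_sum, Fintype.sum_prod_type]
  refine sum_congr rfl fun i _ => sum_congr rfl fun j _ => ?_
  rw [pow_add]

/-- The weights of strings. -/
lemma wts_strings {ι : Type} [Fintype ι] [DecidableEq ι] (len : ι → ℕ) :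
    Wts (I := Σ s : ι, Fin (len s + 1)) (Θ := ι) (fun p => (len p.1 : ℤ) - 2 * (p.2 : ℕ))
      (fun p => p.1) (fun s => if len s = 0 then 0 else 1) (∑ s, (len s : ℝ) ^ 2) := by
  have hfib : ∀ s : ι, fib (fun p : Σ s : ι, Fin (len s + 1) => p.1) s =
      (univ : Finset (Fin (len s + 1))).map ⟨fun i => ⟨s, i⟩, fun i j h => by simpa using h⟩ := by
    intro s
    ext ⟨s', i⟩
    rw [mem_fib, mem_map]
    constructor
    · rintro rfl
      exact ⟨i, mem_univ _, rfl⟩
    · rintro ⟨j, -, hj⟩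
      exact (congrArg Sigma.fst hj).symm
  have hcard : ∀ s : ι, (fib (fun p : Σ s : ι, Fin (len s + 1) => p.1) s).card = len s + 1 := by
    intro s
    rw [hfib, card_map, card_univ, Fintype.card_fin]
  refine ⟨?_, ?_, ?_⟩
  · refine ⟨Equiv.sigmaCongrRight fun s => Fin.revPerm, ?_⟩
    rintro ⟨s, i⟩
    refine ⟨rfl, ?_⟩
    show (len s : ℤ) - 2 * ((Fin.rev i : Fin (len s + 1)) : ℕ) = -((len s : ℤ) - 2 * (i : ℕ))
    rw [Fin.val_rev]
    have := i.2
    omega
  · intro s x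
    rw [hcard, hfib, sum_map]
    have h1 : ∑ i : Fin (len s + 1), Complex.exp (((((len s : ℤ) - 2 * ((i : ℕ) : ℤ) : ℤ) : ℝ) *
        x : ℝ) * Complex.I) = X (len s) x := by
      rw [← sum_exp]
      exact Fin.sum_univ_eq_sum_range (fun i => Complex.exp (((((len s : ℤ) -
        2 * (i : ℤ) : ℤ) : ℝ) * x : ℝ) * Complex.I)) (len s + 1)
    show ‖∑ i : Fin (len s + 1), Complex.exp (((((len s : ℤ) - 2 * ((i : ℕ) : ℤ) : ℤ) : ℝ) *
        x : ℝ) * Complex.I)‖ ≤ _
    rw [h1, Complex.norm_real, Real.norm_eq_abs]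
    split_ifs with h
    · rw [h]
      simp [X]
    · obtain ⟨m, hm⟩ := Nat.exists_eq_succ_of_ne_zero h
      rw [hm, pow_one]
      have := X_le m x
      push_cast
      rw [Nat.succ_eq_add_one]
      linarith
  · intro s
    rw [hcard, hfib, sum_map]
    show ∑ i : Fin (len s + 1), ((((len s : ℤ) - 2 * ((i : ℕ) : ℤ) : ℤ) : ℝ)) ^ 2 ≤ _
    have h1 : ∀ i : Fin (len s + 1), ((((len s : ℤ) - 2 * ((i : ℕ) : ℤ) : ℤ) : ℝ)) ^ 2 ≤
        (len s : ℝ) ^ 2 := by
      intro i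
      have h2 : ((i : ℕ) : ℝ) ≤ len s := by exact_mod_cast Nat.lt_succ_iff.1 i.2
      have h3 : (0 : ℝ) ≤ ((i : ℕ) : ℝ) := Nat.cast_nonneg _
      push_cast
      nlinarith
    have h2 : (len s : ℝ) ^ 2 ≤ ∑ s, (len s : ℝ) ^ 2 :=
      single_le_sum (f := fun s => (len s : ℝ) ^ 2) (fun _ _ => sq_nonneg _) (mem_univ s)
    calc ∑ i : Fin (len s + 1), ((((len s : ℤ) - 2 * ((i : ℕ) : ℤ) : ℤ) : ℝ)) ^ 2
        ≤ ∑ _i : Fin (len s + 1), ∑ s, (len s : ℝ) ^ 2 :=
          sum_le_sum fun i _ => (h1 i).trans h2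
      _ = _ := by
        rw [sum_const, card_univ, Fintype.card_fin, nsmul_eq_mul]
        ring

end wts

end Pool.Agent.K7.H8.TH
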