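import Mathlib
import Pool.Agent.K7.H8.TH.Wts
import Pool.Agent.K7.H8.TH.Lin

/-!
# Integrals and counting
-/

set_option autoImplicit false
set_option linter.unusedSectionVars false

open Finset MeasureTheory

namespace Pool.Agent.K7.H8.TH

/-! ### The integrals -/

lemma gg_le (x : ℝ) : gg x ≤ Real.exp (-(Real.sin x ^ 2 / 3)) := by
  have h1 := Real.add_one_le_exp (-(Real.sin x ^ 2 / 3))
  refine le_trans ?_ h1
  unfold gg
  have h2 := Real.sin_sq_add_cos_sq x
  have h3 : Real.cos x ^ 2 = |Real.cos x| ^ 2 := (sq_abs _).symm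
  have h4 := Real.abs_cos_le_one x
  have h5 := abs_nonneg (Real.cos x)
  nlinarith

lemma sin_sq_le (x : ℝ) : Real.sin x ^ 2 ≤ 1 := Real.sin_sq_le_one x

lemma gg_pow_le (k : ℕ) (x : ℝ) : gg x ^ k ≤ 3 * Real.exp (-((k + 1 : ℝ) / 3 * Real.sin x ^ 2)) := by
  have h1 : gg x ^ k ≤ Real.exp (-(Real.sin x ^ 2 / 3)) ^ k :=
    pow_le_pow_left₀ (gg_nonneg x) (gg_le x) k
  refine h1.trans ?_
  rw [← Real.exp_nat_mul]
  have h2 : Real.exp (Real.sin x ^ 2 / 3) ≤ 3 := by
    have h3 : Real.exp (Real.sin x ^ 2 / 3) ≤ Real.exp 1 := by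
      apply Real.exp_le_exp.2
      have := sin_sq_le x
      linarith
    exact h3.trans (Real.exp_one_lt_d9.le.trans (by norm_num))
  have h3 : (k : ℝ) * -(Real.sin x ^ 2 / 3) =
      Real.sin x ^ 2 / 3 + -((k + 1 : ℝ) / 3 * Real.sin x ^ 2) := by ring
  rw [h3, Real.exp_add]
  exact mul_le_mul_of_nonneg_right h2 (Real.exp_pos _).le

lemma sin_lower {x : ℝ} (h0 : |x| ≤ Real.pi / 2) : 4 / Real.pi ^ 2 * x ^ 2 ≤ Real.sin x ^ 2 := by
  have hpi := Real.pi_pos
  have key : ∀ y : ℝ, 0 ≤ y → y ≤ Real.pi / 2 → 4 / Real.pi ^ 2 * y ^ 2 ≤ Real.sin y ^ 2 := by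
    intro y hy hy2
    have h1 := Real.mul_le_sin hy hy2
    have h2 : 4 / Real.pi ^ 2 * y ^ 2 = (2 / Real.pi * y) ^ 2 := by ring
    rw [h2]
    exact pow_le_pow_left₀ (by positivity) h1 2
  rcases le_total 0 x with h | h
  · exact key x h (by rwa [abs_of_nonneg h] at h0)
  · have := key (-x) (by linarith) (by rwa [abs_of_nonpos h] at h0)
    rw [Real.sin_neg] at this
    nlinarith

lemma exp_sin_le (c : ℝ) (hc : 0 < c) {x : ℝ} (hx : x ∈ Set.Icc (-Real.pi) Real.pi) :
    Real.exp (-(c * Real.sin x ^ 2)) ≤ Real.exp (-(4 * c / Real.pi ^ 2) * x ^ 2) +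
      Real.exp (-(4 * c / Real.pi ^ 2) * (x - Real.pi) ^ 2) +
      Real.exp (-(4 * c / Real.pi ^ 2) * (x - -Real.pi) ^ 2) := by
  have hpi := Real.pi_pos
  have key : ∀ y : ℝ, |y| ≤ Real.pi / 2 → Real.sin y ^ 2 = Real.sin x ^ 2 →
      Real.exp (-(c * Real.sin x ^ 2)) ≤ Real.exp (-(4 * c / Real.pi ^ 2) * y ^ 2) := by
    intro y hy hs
    apply Real.exp_le_exp.2
    have h1 := sin_lower hy
    rw [hs] at h1
    have h2 := mul_le_mul_of_nonneg_left h1 hc.le
    have h3 : c * (4 / Real.pi ^ 2 * y ^ 2) = 4 * c / Real.pi ^ 2 * y ^ 2 := by ring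
    rw [h3] at h2
    linarith
  have e1 := Real.exp_pos (-(4 * c / Real.pi ^ 2) * x ^ 2)
  have e2 := Real.exp_pos (-(4 * c / Real.pi ^ 2) * (x - Real.pi) ^ 2)
  have e3 := Real.exp_pos (-(4 * c / Real.pi ^ 2) * (x - -Real.pi) ^ 2)
  rcases le_total |x| (Real.pi / 2) with h | h
  · have := key x h rfl
    linarith
  · rcases le_total 0 x with h0 | h0
    · rw [abs_of_nonneg h0] at h
      have := key (x - Real.pi) (by rw [abs_le]; constructor <;> linarith [hx.2])
        (by rw [Real.sin_sub_pi]; ring)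
      linarith
    · rw [abs_of_nonpos h0] at h
      have := key (x - -Real.pi) (by rw [abs_le]; constructor <;> linarith [hx.1])
        (by rw [sub_neg_eq_add, Real.sin_add_pi]; ring)
      linarith

lemma int_exp_sin (c : ℝ) (hc : 0 < c) :
    ∫ x in (-Real.pi)..Real.pi, Real.exp (-(c * Real.sin x ^ 2)) ≤ 9 / √c := by
  have hpi := Real.pi_pos
  set β := 4 * c / Real.pi ^ 2 with hβ
  have hβ0 : 0 < β := by positivity
  have hint : ∀ y : ℝ, Integrable fun x : ℝ => Real.exp (-β * (x - y) ^ 2) := fun y =>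
    (integrable_exp_neg_mul_sq hβ0).comp_sub_right y
  have hval : ∀ y : ℝ, ∫ x : ℝ, Real.exp (-β * (x - y) ^ 2) = √(Real.pi / β) := by
    intro y
    rw [integral_sub_right_eq_self (fun x : ℝ => Real.exp (-β * x ^ 2)) y]
    exact integral_gaussian β
  have h1 : ∫ x in (-Real.pi)..Real.pi, Real.exp (-(c * Real.sin x ^ 2)) ≤
      ∫ x in (-Real.pi)..Real.pi, (Real.exp (-β * (x - 0) ^ 2) +
        Real.exp (-β * (x - Real.pi) ^ 2) + Real.exp (-β * (x - -Real.pi) ^ 2)) := by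
    apply intervalIntegral.integral_mono_on (by linarith)
    · apply Continuous.intervalIntegrable
      fun_prop
    · apply Continuous.intervalIntegrable
      fun_prop
    · intro x hx
      have := exp_sin_le c hc hx
      rwa [sub_zero]
  have h2 : ∫ x in (-Real.pi)..Real.pi, (Real.exp (-β * (x - 0) ^ 2) +
        Real.exp (-β * (x - Real.pi) ^ 2) + Real.exp (-β * (x - -Real.pi) ^ 2)) ≤
      ∫ x : ℝ, (Real.exp (-β * (x - 0) ^ 2) +
        Real.exp (-β * (x - Real.pi) ^ 2) + Real.exp (-β * (x - -Real.pi) ^ 2)) := by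
    rw [intervalIntegral.integral_of_le (by linarith)]
    apply setIntegral_le_integral
    · exact ((hint 0).add (hint _)).add (hint _)
    · exact Filter.Eventually.of_forall fun x => by positivity
  have h3 : ∫ x : ℝ, (Real.exp (-β * (x - 0) ^ 2) +
        Real.exp (-β * (x - Real.pi) ^ 2) + Real.exp (-β * (x - -Real.pi) ^ 2)) =
      3 * √(Real.pi / β) := by
    have i1 : ∫ x : ℝ, (Real.exp (-β * (x - 0) ^ 2) +
        Real.exp (-β * (x - Real.pi) ^ 2) + Real.exp (-β * (x - -Real.pi) ^ 2)) =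
        (∫ x : ℝ, (Real.exp (-β * (x - 0) ^ 2) + Real.exp (-β * (x - Real.pi) ^ 2))) +
        ∫ x : ℝ, Real.exp (-β * (x - -Real.pi) ^ 2) :=
      integral_add ((hint 0).add (hint _)) (hint _)
    have i2 : ∫ x : ℝ, (Real.exp (-β * (x - 0) ^ 2) + Real.exp (-β * (x - Real.pi) ^ 2)) =
        (∫ x : ℝ, Real.exp (-β * (x - 0) ^ 2)) + ∫ x : ℝ, Real.exp (-β * (x - Real.pi) ^ 2) :=
      integral_add (hint 0) (hint _)
    rw [i1, i2, hval, hval, hval]
    ring
  refine h1.trans (h2.trans (h3.le.trans ?_))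
  have h4 : Real.pi / β ≤ 9 / c := by
    rw [hβ, div_div_eq_mul_div, div_le_div_iff₀ (by positivity) hc]
    have h5 : Real.pi ^ 3 ≤ 36 := by
      have := Real.pi_lt_d2
      have h6 : Real.pi ^ 3 ≤ 3.15 ^ 3 := pow_le_pow_left₀ hpi.le this.le 3
      exact h6.trans (by norm_num)
    nlinarith
  have h5 : √(Real.pi / β) ≤ √(9 / c) := Real.sqrt_le_sqrt h4
  have h6 : √(9 / c) = 3 / √c := by
    rw [Real.sqrt_div (by norm_num), show (9 : ℝ) = 3 ^ 2 by norm_num,
      Real.sqrt_sq (by norm_num)]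
  rw [h6] at h5
  calc 3 * √(Real.pi / β) ≤ 3 * (3 / √c) := by linarith
    _ = 9 / √c := by ring

lemma sqrt_third (k : ℕ) : 1 / √((k + 1 : ℝ) / 6) ≤ 3 / √(k + 1 : ℝ) := by
  have h0 : (0 : ℝ) < (k + 1 : ℝ) := by positivity
  rw [Real.sqrt_div h0.le, one_div_div]
  apply div_le_div_of_nonneg_right _ (Real.sqrt_nonneg _)
  rw [Real.sqrt_le_left (by norm_num)]
  norm_num

/-- The first integral. -/
lemma J1 (k : ℕ) : ∫ x in (-Real.pi)..Real.pi, gg x ^ k ≤ 81 / √(k + 1 : ℝ) := by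
  have hpi := Real.pi_pos
  have h1 : ∫ x in (-Real.pi)..Real.pi, gg x ^ k ≤
      ∫ x in (-Real.pi)..Real.pi, 3 * Real.exp (-((k + 1 : ℝ) / 6 * Real.sin x ^ 2)) := by
    apply intervalIntegral.integral_mono_on (by linarith)
    · apply Continuous.intervalIntegrable
      exact gg_cont.pow k
    · apply Continuous.intervalIntegrable
      fun_prop
    · intro x _
      refine (gg_pow_le k x).trans ?_
      have h2 : -((k + 1 : ℝ) / 3 * Real.sin x ^ 2) ≤ -((k + 1 : ℝ) / 6 * Real.sin x ^ 2) := by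
        have := mul_nonneg (show (0 : ℝ) ≤ (k + 1 : ℝ) by positivity) (sq_nonneg (Real.sin x))
        nlinarith
      have := Real.exp_le_exp.2 h2
      linarith
  rw [intervalIntegral.integral_const_mul] at h1
  have h2 := int_exp_sin ((k + 1 : ℝ) / 6) (by positivity)
  have h3 := sqrt_third k
  calc _ ≤ 3 * (9 / √((k + 1 : ℝ) / 6)) := by linarith
    _ = 27 * (1 / √((k + 1 : ℝ) / 6)) := by ring
    _ ≤ 27 * (3 / √(k + 1 : ℝ)) := by linarith
    _ = _ := by ring

/-- The second integral. -/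
lemma J2 (k : ℕ) : ∫ x in (-Real.pi)..Real.pi, gg x ^ k * (1 - Real.cos (2 * x)) ≤
    1000 / ((k + 1 : ℝ) * √(k + 1 : ℝ)) := by
  have hpi := Real.pi_pos
  have hk : (0 : ℝ) < (k + 1 : ℝ) := by positivity
  have h1 : ∫ x in (-Real.pi)..Real.pi, gg x ^ k * (1 - Real.cos (2 * x)) ≤
      ∫ x in (-Real.pi)..Real.pi, (36 / (k + 1 : ℝ)) *
        Real.exp (-((k + 1 : ℝ) / 6 * Real.sin x ^ 2)) := by
    apply intervalIntegral.integral_mono_on (by linarith)
    · apply Continuous.intervalIntegrable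
      exact (gg_cont.pow k).mul (by fun_prop)
    · apply Continuous.intervalIntegrable
      fun_prop
    · intro x _
      have h2 : 1 - Real.cos (2 * x) = 2 * Real.sin x ^ 2 := by
        rw [Real.cos_two_mul]
        have := Real.sin_sq_add_cos_sq x
        linarith
      rw [h2]
      have h3 := gg_pow_le k x
      have h4 : gg x ^ k * (2 * Real.sin x ^ 2) ≤
          3 * Real.exp (-((k + 1 : ℝ) / 3 * Real.sin x ^ 2)) * (2 * Real.sin x ^ 2) :=
        mul_le_mul_of_nonneg_right h3 (by positivity)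
      refine h4.trans ?_
      set s := Real.sin x ^ 2 with hs
      set E := Real.exp (-((k + 1 : ℝ) / 6 * s)) with hE
      have h5 : Real.exp (-((k + 1 : ℝ) / 3 * s)) = E * E := by
        rw [hE, ← Real.exp_add]
        congr 1
        ring
      have h6 : (k + 1 : ℝ) / 6 * s * E ≤ 1 := by
        have h7 := Real.add_one_le_exp ((k + 1 : ℝ) / 6 * s)
        have h8 : E = (Real.exp ((k + 1 : ℝ) / 6 * s))⁻¹ := by rw [hE, Real.exp_neg]
        rw [h8, ← div_eq_mul_inv, div_le_one (Real.exp_pos _)]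
        linarith
      have hE0 : 0 < E := Real.exp_pos _
      rw [h5]
      have h7 : 3 * (E * E) * (2 * s) = (36 / (k + 1 : ℝ)) * (((k + 1 : ℝ) / 6 * s * E) * E) := by
        field_simp
        ring
      rw [h7]
      apply mul_le_mul_of_nonneg_left _ (by positivity)
      calc (k + 1 : ℝ) / 6 * s * E * E ≤ 1 * E := mul_le_mul_of_nonneg_right h6 hE0.le
        _ = E := one_mul _
  rw [intervalIntegral.integral_const_mul] at h1
  have h2 := int_exp_sin ((k + 1 : ℝ) / 6) (by positivity)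
  have h3 := sqrt_third k
  have h4 : 9 / √((k + 1 : ℝ) / 6) ≤ 27 / √(k + 1 : ℝ) := by
    calc 9 / √((k + 1 : ℝ) / 6) = 9 * (1 / √((k + 1 : ℝ) / 6)) := by ring
      _ ≤ 9 * (3 / √(k + 1 : ℝ)) := by linarith
      _ = _ := by ring
  calc _ ≤ 36 / (k + 1 : ℝ) * (27 / √(k + 1 : ℝ)) :=
        h1.trans (mul_le_mul_of_nonneg_left (h2.trans h4) (by positivity))
    _ = 972 / ((k + 1 : ℝ) * √(k + 1 : ℝ)) := by
        rw [div_mul_div_comm]; norm_num
    _ ≤ _ := div_le_div_of_nonneg_right (by norm_num) (by positivity)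

/-! ### Fourier formulas -/

lemma cos_cont (m : ℤ) : Continuous fun x : ℝ => Real.cos (m * x) := by fun_prop

lemma int_cos3 (m : ℤ) : ∫ x in (-Real.pi)..Real.pi, Real.cos (m * x) * (1 - Real.cos (2 * x)) =
    2 * Real.pi * ((if m = 0 then 1 else 0) - (1 / 2) * (if m = -2 then 1 else 0) -
      (1 / 2) * (if m = 2 then 1 else 0)) := by
  have h1 : ∀ x : ℝ, Real.cos (m * x) * (1 - Real.cos (2 * x)) =
      Real.cos (m * x) - ((1 / 2) * Real.cos (((m + 2 : ℤ) : ℝ) * x) +
        (1 / 2) * Real.cos (((m - 2 : ℤ) : ℝ) * x)) := by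
    intro x
    push_cast
    rw [add_mul, sub_mul, Real.cos_add, Real.cos_sub]
    ring
  have hc : ∀ r : ℤ, IntervalIntegrable (fun x : ℝ => Real.cos (r * x)) MeasureTheory.volume
      (-Real.pi) Real.pi := fun r => (cos_cont r).intervalIntegrable _ _
  simp_rw [h1]
  rw [intervalIntegral.integral_sub (hc m) (((hc _).const_mul _).add ((hc _).const_mul _)),
    intervalIntegral.integral_add ((hc _).const_mul _) ((hc _).const_mul _),
    intervalIntegral.integral_const_mul, intervalIntegral.integral_const_mul,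
    Pool.Agent.Y67.MW.C1.int_cos, Pool.Agent.Y67.MW.C1.int_cos, Pool.Agent.Y67.MW.C1.int_cos]
  have e1 : m + 2 = 0 ↔ m = -2 := by omega
  have e2 : m - 2 = 0 ↔ m = 2 := by omega
  simp only [e1, e2]
  split_ifs <;> ring

section wts

variable {I Θ : Type} [Fintype I] [DecidableEq Θ] {a : I → ℤ} {ty : I → Θ} {k : Θ → ℕ} {v : ℝ}

open Classical in
/-- The indices with type in `T`. -/
noncomputable def qq (ty : I → Θ) (T : Set Θ) : Finset I := univ.filter fun i => ty i ∈ T

lemma mem_qq {T : Set Θ} {i : I} : i ∈ qq ty T ↔ ty i ∈ T := by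
  classical
  simp [qq]

lemma sum_qq {M : Type*} [AddCommMonoid M] (T : Set Θ) (f : I → M) :
    ∑ i ∈ qq ty T, f i = ∑ θ ∈ (qq ty T).image ty, ∑ i ∈ fib ty θ, f i := by
  classical
  rw [← sum_fiberwise_of_maps_to (s := qq ty T) (t := (qq ty T).image ty) (g := ty)
    fun i hi => mem_image_of_mem _ hi]
  refine sum_congr rfl fun θ hθ => sum_congr ?_ fun _ _ => rfl
  obtain ⟨j, hj, rfl⟩ := mem_image.1 hθ
  rw [mem_qq] at hj
  ext i
  rw [mem_filter, mem_qq, mem_fib]
  constructor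
  · exact fun h => h.2
  · intro h
    exact ⟨by rw [h]; exact hj, h⟩

lemma Wts.norm_le (W : Wts a ty k v) (T : Set Θ) (x : ℝ) :
    |∑ i ∈ qq ty T, Real.cos (a i * x)| ≤ ∑ i ∈ qq ty T, gg x ^ k (ty i) := by
  have h1 : ∑ i ∈ qq ty T, Real.cos (a i * x) =
      (∑ i ∈ qq ty T, Complex.exp (((a i : ℝ) * x : ℝ) * Complex.I)).re := by
    rw [Complex.re_sum]
    refine sum_congr rfl fun i _ => ?_
    rw [Complex.exp_ofReal_mul_I_re]
  rw [h1]
  refine (Complex.abs_re_le_norm _).trans ?_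
  rw [sum_qq, sum_qq]
  refine (norm_sum_le _ _).trans (sum_le_sum fun θ _ => ?_)
  refine (W.chr θ x).trans (le_of_eq ?_)
  rw [← nsmul_eq_mul, ← sum_const]
  refine sum_congr rfl fun i hi => ?_
  rw [mem_fib.1 hi]

lemma cn_eq (T : Set Θ) (r : ℤ) :
    (cn a {i | ty i ∈ T} r : ℝ) = ∑ i ∈ qq ty T, if a i = r then (1 : ℝ) else 0 := by
  classical
  unfold cn
  rw [Finset.sum_boole, Nat.card_eq_fintype_card, ← Set.toFinset_card]
  congr 2
  ext i
  simp [qq]

lemma Wts.cn_neg (W : Wts a ty k v) (T : Set Θ) (r : ℤ) :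
    cn a {i | ty i ∈ T} (-r) = cn a {i | ty i ∈ T} r := by
  classical
  have h : (cn a {i | ty i ∈ T} (-r) : ℝ) = cn a {i | ty i ∈ T} r := by
    rw [cn_eq, cn_eq, sum_qq, sum_qq]
    refine sum_congr rfl fun θ _ => ?_
    rw [W.sum_fib (fun s => if s = -r then (1 : ℝ) else 0)]
    refine sum_congr rfl fun i _ => ?_
    simp only [neg_inj]
  exact_mod_cast h

/-- The difference of the numbers of the weights `0` and `-2`. -/
theorem Wts.sub_le (W : Wts a ty k v) (T : Set Θ) :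
    (cn a {i | ty i ∈ T} 0 : ℝ) - cn a {i | ty i ∈ T} (-2) ≤
      ∑ i ∈ qq ty T, 1000 / ((k (ty i) + 1 : ℝ) * √(k (ty i) + 1 : ℝ)) := by
  classical
  have hpi := Real.pi_pos
  have hc : Continuous fun x : ℝ => ∑ i ∈ qq ty T, Real.cos (a i * x) * (1 - Real.cos (2 * x)) := by
    fun_prop
  have h1 : ∫ x in (-Real.pi)..Real.pi,
      ∑ i ∈ qq ty T, Real.cos (a i * x) * (1 - Real.cos (2 * x)) =
      2 * Real.pi * ((cn a {i | ty i ∈ T} 0 : ℝ) - cn a {i | ty i ∈ T} (-2)) := by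
    rw [intervalIntegral.integral_finsetSum]
    · simp_rw [int_cos3]
      rw [← mul_sum, sum_sub_distrib, sum_sub_distrib, ← mul_sum, ← mul_sum]
      have e1 := cn_eq (a := a) (ty := ty) T 0
      have e2 := cn_eq (a := a) (ty := ty) T (-2)
      have e3 := cn_eq (a := a) (ty := ty) T 2
      rw [← e1, ← e2, ← e3, ← W.cn_neg T 2]
      ring
    · intro i _
      apply Continuous.intervalIntegrable
      fun_prop
  have h2 : ∫ x in (-Real.pi)..Real.pi,
      ∑ i ∈ qq ty T, Real.cos (a i * x) * (1 - Real.cos (2 * x)) ≤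
      ∫ x in (-Real.pi)..Real.pi, ∑ i ∈ qq ty T, gg x ^ k (ty i) * (1 - Real.cos (2 * x)) := by
    apply intervalIntegral.integral_mono_on (by linarith)
    · exact hc.intervalIntegrable _ _
    · apply Continuous.intervalIntegrable
      refine continuous_finsetSum _ fun i _ => (gg_cont.pow _).mul (by fun_prop)
    · intro x _
      rw [← sum_mul, ← sum_mul]
      have h3 := (le_abs_self _).trans (W.norm_le T x)
      exact mul_le_mul_of_nonneg_right h3 (by linarith [Real.cos_le_one (2 * x)])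
  rw [h1, intervalIntegral.integral_finsetSum] at h2
  · have h3 : ∑ i ∈ qq ty T, ∫ x in (-Real.pi)..Real.pi,
        gg x ^ k (ty i) * (1 - Real.cos (2 * x)) ≤
        ∑ i ∈ qq ty T, 1000 / ((k (ty i) + 1 : ℝ) * √(k (ty i) + 1 : ℝ)) :=
      sum_le_sum fun i _ => J2 _
    have h4 : (0 : ℝ) ≤ ∑ i ∈ qq ty T, 1000 / ((k (ty i) + 1 : ℝ) * √(k (ty i) + 1 : ℝ)) :=
      sum_nonneg fun i _ => by positivity
    have h5 : (1 : ℝ) ≤ 2 * Real.pi := by linarith [Real.pi_gt_three]
    by_contra hcon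
    push Not at hcon
    have h6 : 0 < (cn a {i | ty i ∈ T} 0 : ℝ) - cn a {i | ty i ∈ T} (-2) := lt_of_le_of_lt h4 hcon
    nlinarith
  · intro i _
    apply Continuous.intervalIntegrable
    exact (gg_cont.pow _).mul (by fun_prop)

/-- The sum of the numbers of the weights `0` and `-1`. -/
theorem Wts.add_le (W : Wts a ty k v) (T : Set Θ) :
    (cn a {i | ty i ∈ T} 0 : ℝ) + cn a {i | ty i ∈ T} (-1) ≤
      ∑ i ∈ qq ty T, 162 / √(k (ty i) + 1 : ℝ) := by
  classical
  have hpi := Real.pi_pos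
  have hc : Continuous fun x : ℝ => ∑ i ∈ qq ty T, Real.cos (a i * x) * (1 + Real.cos x) := by
    fun_prop
  have h1 : ∫ x in (-Real.pi)..Real.pi,
      ∑ i ∈ qq ty T, Real.cos (a i * x) * (1 + Real.cos x) =
      2 * Real.pi * ((cn a {i | ty i ∈ T} 0 : ℝ) + cn a {i | ty i ∈ T} (-1)) := by
    rw [intervalIntegral.integral_finsetSum]
    · simp_rw [Pool.Agent.Y67.MW.C1.int_cos2]
      rw [← mul_sum, sum_add_distrib, sum_add_distrib, ← mul_sum, ← mul_sum]
      have e1 := cn_eq (a := a) (ty := ty) T 0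
      have e2 := cn_eq (a := a) (ty := ty) T (-1)
      have e3 := cn_eq (a := a) (ty := ty) T 1
      rw [← e1, ← e2, ← e3, ← W.cn_neg T 1]
      ring
    · intro i _
      apply Continuous.intervalIntegrable
      fun_prop
  have h2 : ∫ x in (-Real.pi)..Real.pi,
      ∑ i ∈ qq ty T, Real.cos (a i * x) * (1 + Real.cos x) ≤
      ∫ x in (-Real.pi)..Real.pi, ∑ i ∈ qq ty T, gg x ^ k (ty i) * 2 := by
    apply intervalIntegral.integral_mono_on (by linarith)
    · exact hc.intervalIntegrable _ _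
    · apply Continuous.intervalIntegrable
      refine continuous_finsetSum _ fun i _ => (gg_cont.pow _).mul (by fun_prop)
    · intro x _
      rw [← sum_mul, ← sum_mul]
      have h3 := (le_abs_self _).trans (W.norm_le T x)
      have h4 : (0 : ℝ) ≤ ∑ i ∈ qq ty T, gg x ^ k (ty i) :=
        sum_nonneg fun i _ => pow_nonneg (gg_nonneg x) _
      have h5 := Real.cos_le_one x
      have h6 := Real.neg_one_le_cos x
      calc (∑ i ∈ qq ty T, Real.cos (a i * x)) * (1 + Real.cos x)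
          ≤ (∑ i ∈ qq ty T, gg x ^ k (ty i)) * (1 + Real.cos x) :=
            mul_le_mul_of_nonneg_right h3 (by linarith)
        _ ≤ _ := mul_le_mul_of_nonneg_left (by linarith) h4
  rw [h1, intervalIntegral.integral_finsetSum] at h2
  · have h3 : ∑ i ∈ qq ty T, ∫ x in (-Real.pi)..Real.pi, gg x ^ k (ty i) * 2 ≤
        ∑ i ∈ qq ty T, 162 / √(k (ty i) + 1 : ℝ) := by
      refine sum_le_sum fun i _ => ?_
      rw [intervalIntegral.integral_mul_const]
      have := J1 (k (ty i))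
      calc _ ≤ 81 / √(k (ty i) + 1 : ℝ) * 2 := by linarith
        _ = _ := by ring
    have h4 : (0 : ℝ) ≤ ∑ i ∈ qq ty T, 162 / √(k (ty i) + 1 : ℝ) :=
      sum_nonneg fun i _ => by positivity
    have h5 : (1 : ℝ) ≤ 2 * Real.pi := by linarith [Real.pi_gt_three]
    by_contra hcon
    push Not at hcon
    have h6 : 0 < (cn a {i | ty i ∈ T} 0 : ℝ) + cn a {i | ty i ∈ T} (-1) := lt_of_le_of_lt h4 hcon
    nlinarith
  · intro i _
    apply Continuous.intervalIntegrable
    exact (gg_cont.pow _).mul (by fun_prop)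

end wts

end Pool.Agent.K7.H8.TH
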