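import Mathlib
import Pool.Agent.K7.H8.TH.Cnt

/-!
# Asymptotics
-/

set_option autoImplicit false
set_option linter.unusedSectionVars false

open Finset Filter Topology

namespace Pool.Agent.K7.H8.TH

lemma poly_exp_bound (M : ℕ) {s : ℝ} (h0 : 0 < s) (h1 : s < 1) :
    ∃ C : ℝ, 0 < C ∧ ∀ m : ℕ, ((m : ℝ) + 2) ^ M * s ^ m * (m * √m) ≤ C := by
  have h2 := tendsto_pow_const_mul_const_pow_of_abs_lt_one (M + 2) (r := s)
    (by rw [abs_of_pos h0]; exact h1)
  obtain ⟨B, hB⟩ := h2.bddAbove_range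
  refine ⟨max (B / s ^ 2) 1, lt_max_of_lt_right one_pos, fun m => ?_⟩
  have h3 : (((m + 2 : ℕ) : ℝ)) ^ (M + 2) * s ^ (m + 2) ≤ B := hB ⟨m + 2, rfl⟩
  have hm : (0 : ℝ) ≤ m := Nat.cast_nonneg _
  have h4 : (m : ℝ) * √m ≤ ((m : ℝ) + 2) ^ 2 := by
    have h5 : √(m : ℝ) ≤ m + 2 := by
      rw [Real.sqrt_le_left (by linarith)]
      nlinarith
    calc (m : ℝ) * √m ≤ (m + 2) * (m + 2) :=
          mul_le_mul (by linarith) h5 (Real.sqrt_nonneg _) (by linarith)
      _ = _ := by ring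
  refine le_max_of_le_left ?_
  rw [le_div_iff₀ (by positivity)]
  calc ((m : ℝ) + 2) ^ M * s ^ m * (m * √m) * s ^ 2
      ≤ ((m : ℝ) + 2) ^ M * s ^ m * ((m : ℝ) + 2) ^ 2 * s ^ 2 := by
        gcongr
    _ = (((m + 2 : ℕ) : ℝ)) ^ (M + 2) * s ^ (m + 2) := by
        push_cast
        ring
    _ ≤ B := h3

lemma case_k {s : ℝ} (h0 : 0 < s) (h1 : s < 1) (m k : ℕ) :
    1 ≤ (1 / 2 : ℝ) ^ k * (s ^ m)⁻¹ ∨ m * (-Real.log s / Real.log 2) ≤ (k : ℝ) := by
  by_cases h : 1 ≤ (1 / 2 : ℝ) ^ k * (s ^ m)⁻¹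
  · exact Or.inl h
  · right
    push Not at h
    have hl2 : 0 < Real.log 2 := Real.log_pos (by norm_num)
    have h2 : (0 : ℝ) < (1 / 2 : ℝ) ^ k * (s ^ m)⁻¹ := by positivity
    have h3 := Real.log_lt_log h2 h
    rw [Real.log_one, Real.log_mul (by positivity) (by positivity), Real.log_inv, Real.log_pow,
      Real.log_pow, one_div, Real.log_inv] at h3
    rw [← mul_div_assoc, div_le_iff₀ hl2]
    nlinarith

lemma phi_le {s : ℝ} (h0 : 0 < s) (h1 : s < 1) : ∃ A : ℝ, 0 < A ∧ ∀ m : ℕ, 0 < m → ∀ k : ℕ,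
    1 / ((k + 1 : ℝ) * √(k + 1 : ℝ)) ≤ A / (m * √m) + (1 / 2 : ℝ) ^ k * (s ^ m)⁻¹ ∧
    1 / √(k + 1 : ℝ) ≤ A / √m + (1 / 2 : ℝ) ^ k * (s ^ m)⁻¹ := by
  have hl2 : 0 < Real.log 2 := Real.log_pos (by norm_num)
  set c := -Real.log s / Real.log 2 with hc
  have hc0 : 0 < c := div_pos (by linarith [Real.log_neg h0 h1]) hl2
  refine ⟨1 / (c * √c) + 1 / √c, by positivity, fun m hm k => ?_⟩
  have hm' : (0 : ℝ) < m := by exact_mod_cast hm
  have hk1 : (1 : ℝ) ≤ (k + 1 : ℝ) := by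
    have : (0 : ℝ) ≤ k := Nat.cast_nonneg _
    linarith
  have hs1 : 1 ≤ √(k + 1 : ℝ) := by
    rw [Real.one_le_sqrt]; exact hk1
  have hp : (0 : ℝ) < (1 / 2 : ℝ) ^ k * (s ^ m)⁻¹ := by positivity
  rcases case_k h0 h1 m k with h | h
  · have e1 : 1 / ((k + 1 : ℝ) * √(k + 1 : ℝ)) ≤ 1 := by
      rw [div_le_one (by positivity)]
      nlinarith
    have e2 : 1 / √(k + 1 : ℝ) ≤ 1 := by
      rw [div_le_one (by positivity)]
      exact hs1
    have e3 : 0 ≤ (1 / (c * √c) + 1 / √c) / (m * √m) := by positivity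
    have e4 : 0 ≤ (1 / (c * √c) + 1 / √c) / √m := by positivity
    constructor <;> linarith
  · have hmc : 0 < m * c := by positivity
    have h2 : m * c ≤ (k + 1 : ℝ) := by linarith
    have h3 : √(m * c) ≤ √(k + 1 : ℝ) := Real.sqrt_le_sqrt h2
    have h4 : √(m * c) = √m * √c := Real.sqrt_mul hm'.le c
    have h5 : 0 < √(m * c) := Real.sqrt_pos.2 hmc
    have hsm : 0 < √(m : ℝ) := Real.sqrt_pos.2 hm'
    have hsc : 0 < √c := Real.sqrt_pos.2 hc0
    have e1 : 1 / ((k + 1 : ℝ) * √(k + 1 : ℝ)) ≤ 1 / (c * √c) / (m * √m) := by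
      calc 1 / ((k + 1 : ℝ) * √(k + 1 : ℝ)) ≤ 1 / ((m * c) * √(m * c)) := by
            apply one_div_le_one_div_of_le (by positivity)
            exact mul_le_mul h2 h3 h5.le (by linarith)
        _ = _ := by
            rw [h4]
            field_simp
    have e2 : 1 / √(k + 1 : ℝ) ≤ 1 / √c / √m := by
      calc 1 / √(k + 1 : ℝ) ≤ 1 / √(m * c) := one_div_le_one_div_of_le h5 h3
        _ = _ := by
            rw [h4]
            field_simp
    have e3 : 0 ≤ 1 / √c / (m * √m) := by positivity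
    have e4 : 0 ≤ 1 / (c * √c) / √m := by positivity
    rw [add_div, add_div]
    constructor <;> linarith

section main

/-- **Upper bounds.** -/
theorem upper (b : ℝ) (G : ℝ) (hG : 0 < G) (hGb : G < b) (M : ℕ) : ∃ C : ℝ, 0 < C ∧
    ∀ m : ℕ, 0 < m → ∀ (I Θ : Type) [Fintype I] [DecidableEq Θ] (a : I → ℤ) (ty : I → Θ)
      (k : Θ → ℕ) (v : ℝ) (T : Set Θ), Wts a ty k v →
      ∑ i, (1 / 2 : ℝ) ^ k (ty i) ≤ G ^ m → b ^ m ≤ (qq ty T).card * ((m : ℝ) + 2) ^ M →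
      ((cn a {i | ty i ∈ T} 0 : ℝ) - cn a {i | ty i ∈ T} (-2)) * (m * √m) ≤
        C * (qq ty T).card ∧
      ((cn a {i | ty i ∈ T} 0 : ℝ) + cn a {i | ty i ∈ T} (-1)) * √m ≤ C * (qq ty T).card := by
  have hb : 0 < b := hG.trans hGb
  set s := √(G / b) with hs
  have hs0 : 0 < s := Real.sqrt_pos.2 (div_pos hG hb)
  have hs1 : s < 1 := by
    rw [hs, Real.sqrt_lt' one_pos, one_pow, div_lt_one hb]
    exact hGb
  have hss : s ^ 2 = G / b := Real.sq_sqrt (div_pos hG hb).le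
  obtain ⟨A, hA, hA'⟩ := phi_le hs0 hs1
  obtain ⟨B, hB, hB'⟩ := poly_exp_bound M hs0 hs1
  refine ⟨1000 * (A + B), by positivity, ?_⟩
  intro m hm I Θ _ _ a ty k v T W hsum hq
  have hm' : (0 : ℝ) < m := by exact_mod_cast hm
  have hsm : 0 < √(m : ℝ) := Real.sqrt_pos.2 hm'
  have hm1 : (1 : ℝ) ≤ m := by exact_mod_cast hm
  -- the exponentially small part
  have h1 : (∑ i ∈ qq ty T, (1 / 2 : ℝ) ^ k (ty i) * (s ^ m)⁻¹) * (m * √m) ≤
      B * (qq ty T).card := by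
    rw [← sum_mul]
    have h2 : ∑ i ∈ qq ty T, (1 / 2 : ℝ) ^ k (ty i) ≤ G ^ m :=
      (sum_le_sum_of_subset_of_nonneg (subset_univ _) fun _ _ _ => by positivity).trans hsum
    have h3 : G ^ m = b ^ m * (s ^ m * s ^ m) := by
      rw [← pow_add, ← two_mul, pow_mul, hss, div_pow]
      field_simp
    have h4 : (∑ i ∈ qq ty T, (1 / 2 : ℝ) ^ k (ty i)) * (s ^ m)⁻¹ ≤ b ^ m * s ^ m := by
      rw [mul_inv_le_iff₀ (by positivity)]
      refine h2.trans (le_of_eq ?_)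
      rw [h3]
      ring
    have h5 := hB' m
    calc (∑ i ∈ qq ty T, (1 / 2 : ℝ) ^ k (ty i)) * (s ^ m)⁻¹ * (m * √m)
        ≤ b ^ m * s ^ m * (m * √m) := mul_le_mul_of_nonneg_right h4 (by positivity)
      _ ≤ ((qq ty T).card * ((m : ℝ) + 2) ^ M) * s ^ m * (m * √m) := by
          gcongr
      _ = (((m : ℝ) + 2) ^ M * s ^ m * (m * √m)) * (qq ty T).card := by ring
      _ ≤ B * (qq ty T).card := mul_le_mul_of_nonneg_right h5 (Nat.cast_nonneg _)
  have h1' : (∑ i ∈ qq ty T, (1 / 2 : ℝ) ^ k (ty i) * (s ^ m)⁻¹) * √m ≤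
      B * (qq ty T).card := by
    refine le_trans ?_ h1
    have h2 : 0 ≤ ∑ i ∈ qq ty T, (1 / 2 : ℝ) ^ k (ty i) * (s ^ m)⁻¹ :=
      sum_nonneg fun _ _ => by positivity
    apply mul_le_mul_of_nonneg_left _ h2
    nlinarith
  have hcard : (0 : ℝ) ≤ (qq ty T).card := Nat.cast_nonneg _
  constructor
  · have h2 := W.sub_le T
    have h3 : ∑ i ∈ qq ty T, 1000 / ((k (ty i) + 1 : ℝ) * √(k (ty i) + 1 : ℝ)) ≤
        1000 * ((qq ty T).card * (A / (m * √m)) +
          ∑ i ∈ qq ty T, (1 / 2 : ℝ) ^ k (ty i) * (s ^ m)⁻¹) := by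
      rw [← nsmul_eq_mul, ← sum_const, ← sum_add_distrib, mul_sum]
      refine sum_le_sum fun i _ => ?_
      have := (hA' m hm (k (ty i))).1
      calc 1000 / ((k (ty i) + 1 : ℝ) * √(k (ty i) + 1 : ℝ)) =
            1000 * (1 / ((k (ty i) + 1 : ℝ) * √(k (ty i) + 1 : ℝ))) := by ring
        _ ≤ _ := mul_le_mul_of_nonneg_left this (by norm_num)
    have h4 : (qq ty T).card * (A / (m * √m)) * (m * √m) = A * (qq ty T).card := by
      field_simp
    calc ((cn a {i | ty i ∈ T} 0 : ℝ) - cn a {i | ty i ∈ T} (-2)) * (m * √m)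
        ≤ (1000 * ((qq ty T).card * (A / (m * √m)) +
          ∑ i ∈ qq ty T, (1 / 2 : ℝ) ^ k (ty i) * (s ^ m)⁻¹)) * (m * √m) :=
          mul_le_mul_of_nonneg_right (h2.trans h3) (by positivity)
      _ = 1000 * ((qq ty T).card * (A / (m * √m)) * (m * √m) +
          (∑ i ∈ qq ty T, (1 / 2 : ℝ) ^ k (ty i) * (s ^ m)⁻¹) * (m * √m)) := by ring
      _ ≤ 1000 * (A * (qq ty T).card + B * (qq ty T).card) := by
          rw [h4]
          linarith
      _ = _ := by ring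
  · have h2 := W.add_le T
    have h3 : ∑ i ∈ qq ty T, 162 / √(k (ty i) + 1 : ℝ) ≤
        1000 * ((qq ty T).card * (A / √m) +
          ∑ i ∈ qq ty T, (1 / 2 : ℝ) ^ k (ty i) * (s ^ m)⁻¹) := by
      rw [← nsmul_eq_mul, ← sum_const, ← sum_add_distrib, mul_sum]
      refine sum_le_sum fun i _ => ?_
      have := (hA' m hm (k (ty i))).2
      calc 162 / √(k (ty i) + 1 : ℝ) ≤ 1000 * (1 / √(k (ty i) + 1 : ℝ)) := by
            rw [mul_one_div]
            exact div_le_div_of_nonneg_right (by norm_num) (Real.sqrt_nonneg _)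
        _ ≤ _ := mul_le_mul_of_nonneg_left this (by norm_num)
    have h4 : (qq ty T).card * (A / √m) * √m = A * (qq ty T).card := by
      field_simp
    calc ((cn a {i | ty i ∈ T} 0 : ℝ) + cn a {i | ty i ∈ T} (-1)) * √m
        ≤ (1000 * ((qq ty T).card * (A / √m) +
          ∑ i ∈ qq ty T, (1 / 2 : ℝ) ^ k (ty i) * (s ^ m)⁻¹)) * √m :=
          mul_le_mul_of_nonneg_right (h2.trans h3) (by positivity)
      _ = 1000 * ((qq ty T).card * (A / √m) * √m +
          (∑ i ∈ qq ty T, (1 / 2 : ℝ) ^ k (ty i) * (s ^ m)⁻¹) * √m) := by ring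
      _ ≤ 1000 * (A * (qq ty T).card + B * (qq ty T).card) := by
          rw [h4]
          linarith
      _ = _ := by ring

variable {I Θ : Type} [Fintype I] [DecidableEq Θ] {a : I → ℤ} {ty : I → Θ} {k : Θ → ℕ}

/-- **Lower bound.** -/
theorem lower {v : ℝ} (hv : 0 < v) (W : Wts a ty k v) (T : Set Θ)
    (hanti : ∀ r : ℤ, 1 ≤ r → cn a {i | ty i ∈ T} r ≤ cn a {i | ty i ∈ T} (r - 2)) :
    ((qq ty T).card : ℝ) ≤ (4 * √(2 * v) + 6) *
      ((cn a {i | ty i ∈ T} 0 : ℝ) + cn a {i | ty i ∈ T} 1) := by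
  classical
  set Q := {i | ty i ∈ T} with hQ
  set S : ℕ := cn a Q 0 + cn a Q 1 with hS
  -- all the numbers are at most S
  have h1 : ∀ n : ℕ, cn a Q n ≤ S := by
    intro n
    induction n using Nat.strong_induction_on with
    | _ n ih =>
      match n with
      | 0 => exact Nat.le_add_right _ _
      | 1 => exact Nat.le_add_left _ _
      | n + 2 =>
        have h2 := hanti ((n + 2 : ℕ) : ℤ) (by push_cast; omega)
        have h3 := ih n (by omega)
        rw [show ((n + 2 : ℕ) : ℤ) - 2 = (n : ℤ) by push_cast; ring] at h2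
        exact h2.trans h3
  have h2 : ∀ r : ℤ, cn a Q r ≤ S := by
    intro r
    obtain ⟨n, hn | hn⟩ := r.eq_nat_or_neg
    · rw [hn]; exact h1 n
    · rw [hn, W.cn_neg]; exact h1 n
  -- the second moment
  have h3 : ∑ i ∈ qq ty T, (a i : ℝ) ^ 2 ≤ v * (qq ty T).card := by
    rw [sum_qq]
    have h4 : ((qq ty T).card : ℝ) = ∑ θ ∈ (qq ty T).image ty, ((fib ty θ).card : ℝ) := by
      have := sum_qq (ty := ty) T (fun _ => (1 : ℝ))
      simpa using this
    rw [h4, mul_sum]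
    exact sum_le_sum fun θ _ => W.mom θ
  set R : ℕ := ⌈√(2 * v)⌉₊ with hR
  have hR1 : √(2 * v) ≤ R := Nat.le_ceil _
  have hR2 : (R : ℝ) ≤ √(2 * v) + 1 := (Nat.ceil_lt_add_one (Real.sqrt_nonneg _)).le
  have hR3 : 2 * v ≤ (R : ℝ) ^ 2 := by
    have := Real.sq_sqrt (show 0 ≤ 2 * v by positivity)
    rw [← this]
    exact pow_le_pow_left₀ (Real.sqrt_nonneg _) hR1 2
  -- the indices of large weights
  set L := (qq ty T).filter fun i => ¬ (|a i| ≤ R) with hL
  set P := (qq ty T).filter fun i => |a i| ≤ R with hP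
  have h4 : (L.card : ℝ) * (R : ℝ) ^ 2 ≤ v * (qq ty T).card := by
    refine le_trans ?_ h3
    rw [← nsmul_eq_mul, ← sum_const]
    refine le_trans (sum_le_sum fun i hi => ?_) (sum_le_sum_of_subset_of_nonneg
      (filter_subset _ _) fun _ _ _ => sq_nonneg _)
    have h5 : ¬ (|a i| ≤ R) := (mem_filter.1 hi).2
    push Not at h5
    have h6 : (R : ℝ) ≤ |(a i : ℝ)| := by
      have : ((R : ℤ) : ℝ) ≤ ((|a i| : ℤ) : ℝ) := by exact_mod_cast h5.le
      simpa using this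
    calc (R : ℝ) ^ 2 ≤ |(a i : ℝ)| ^ 2 := pow_le_pow_left₀ (Nat.cast_nonneg _) h6 2
      _ = _ := sq_abs _
  have h5 : (L.card : ℝ) ≤ (qq ty T).card / 2 := by
    have h6 : (L.card : ℝ) * (2 * v) ≤ v * (qq ty T).card :=
      (mul_le_mul_of_nonneg_left hR3 (Nat.cast_nonneg _)).trans h4
    have h7 : v * (2 * (L.card : ℝ)) ≤ v * (qq ty T).card := by linarith
    have h8 := le_of_mul_le_mul_left h7 hv
    linarith
  have h6 : (P.card : ℝ) + L.card = (qq ty T).card := by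
    have := card_filter_add_card_filter_not (s := qq ty T) (fun i => |a i| ≤ R)
    exact_mod_cast this
  have h7 : P.card ≤ (2 * R + 1) * S := by
    have h8 : ∀ i ∈ P, a i ∈ Finset.Icc (-(R : ℤ)) R := by
      intro i hi
      rw [Finset.mem_Icc]
      exact abs_le.1 (mem_filter.1 hi).2
    rw [card_eq_sum_card_fiberwise h8]
    have h9 : ∀ r ∈ Finset.Icc (-(R : ℤ)) R, (P.filter fun i => a i = r).card ≤ S := by
      intro r _
      refine le_trans ?_ (h2 r)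
      have h10 : (cn a Q r : ℝ) = ((qq ty T).filter fun i => a i = r).card := by
        rw [cn_eq, Finset.sum_boole]
      have h11 : cn a Q r = ((qq ty T).filter fun i => a i = r).card := by exact_mod_cast h10
      rw [h11]
      exact card_le_card (filter_subset_filter _ (filter_subset _ _))
    refine (sum_le_sum h9).trans ?_
    rw [sum_const, smul_eq_mul, Int.card_Icc]
    apply Nat.mul_le_mul_right
    omega
  have h8 : (P.card : ℝ) ≤ (2 * R + 1) * S := by exact_mod_cast h7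
  have hS0 : (0 : ℝ) ≤ S := Nat.cast_nonneg _
  have hSe : (S : ℝ) = (cn a Q 0 : ℝ) + cn a Q 1 := by rw [hS]; push_cast; rfl
  rw [← hSe]
  have h9 : ((qq ty T).card : ℝ) ≤ 2 * P.card := by linarith
  calc ((qq ty T).card : ℝ) ≤ 2 * ((2 * R + 1) * S) := by linarith
    _ = (4 * R + 2) * S := by ring
    _ ≤ (4 * √(2 * v) + 6) * S := mul_le_mul_of_nonneg_right (by linarith) hS0

end main

end Pool.Agent.K7.H8.TH
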