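import Mathlib
import Pool.Agent.K7.H8.TH.Str

/-!
# Strings of the unipotent part of an invertible operator on a graded space
-/

set_option autoImplicit false
set_option linter.unusedSectionVars false

open Module

namespace Pool.Agent.K7.H8.TH

universe u v

variable {K : Type u} [Field K] {V : Type v} [AddCommGroup V] [Module K V]

/-- The projections of the common refinement of two gradings. -/
lemma Proj.refine {J J' : Type*} [DecidableEq J] [DecidableEq J'] {E : J → Submodule K V}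
    {gr : J' → Submodule K V} {ρ : J → Module.End K V} {π : J' → Module.End K V}
    (hρ : Proj E ρ) (hπ : Proj gr π) (h : ∀ j j' u, u ∈ E j → π j' u ∈ E j) :
    Proj (fun q : J × J' => E q.1 ⊓ gr q.2) (fun q : J × J' => π q.2 * ρ q.1) := by
  refine ⟨?_, ?_, ?_, ?_⟩
  · rintro ⟨s, t⟩ u
    exact ⟨h _ _ _ (hρ.mem s u), hπ.mem t _⟩
  · rintro ⟨s, t⟩ u ⟨h1, h2⟩
    show π t (ρ s u) = u
    rw [hρ.same s u h1, hπ.same t u h2]
  · rintro ⟨s, t⟩ ⟨s', t'⟩ u ⟨h1, h2⟩ hne
    show π t' (ρ s' u) = 0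
    by_cases hs : s' = s
    · subst hs
      rw [hρ.same _ u h1]
      refine hπ.ne t t' u h2 ?_
      rintro rfl
      exact hne rfl
    · rw [hρ.ne s s' u h1 hs, map_zero]
  · intro u
    obtain ⟨T, hT, hT0⟩ := hρ.sum u
    choose S hS hS0 using fun s => hπ.sum (ρ s u)
    refine ⟨T ×ˢ T.biUnion S, ?_, ?_⟩
    · rw [Finset.sum_product]
      conv_lhs => rw [hT]
      refine Finset.sum_congr rfl fun s hs => ?_
      conv_lhs => rw [hS s]
      refine Finset.sum_subset (fun t ht => Finset.mem_biUnion.2 ⟨s, hs, ht⟩) ?_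
      intro t _ ht
      exact hS0 s t ht
    · rintro ⟨s, t⟩ hst
      show π t (ρ s u) = 0
      by_cases hs : s ∈ T
      · refine hS0 s t fun ht => hst ?_
        rw [Finset.mem_product]
        exact ⟨hs, Finset.mem_biUnion.2 ⟨s, hs, ht⟩⟩
      · rw [hT0 s hs, map_zero]

/-- The strings for a grading given by projections. -/
theorem exists_strings' [Module.Finite K V] {J : Type*} [DecidableEq J] {gr : J → Submodule K V}
    {π : J → Module.End K V} (hπ : Proj gr π) (N : Module.End K V)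
    (hN : ∀ r, ∀ x ∈ gr r, N x ∈ gr r) (hnil : ∃ k : ℕ, ∀ u, (N ^ k) u = 0) :
    ∃ (ι : Type) (_ : Fintype ι) (len : ι → ℕ) (top : ι → J)
      (b : Basis (Σ s : ι, Fin (len s + 1)) K V),
      (∀ s (i : Fin (len s + 1)), b ⟨s, i⟩ ∈ gr (top s)) ∧
      (∀ s (i : Fin (len s)), N (b ⟨s, i.castSucc⟩) = b ⟨s, i.succ⟩) ∧
      (∀ s, N (b ⟨s, Fin.last (len s)⟩) = 0) := by
  obtain ⟨ι, hι, len, top, v, h1, h2, h3, h4⟩ := QQ_all hπ hN hnil ⊤ (fun _ _ => trivial)
    (fun _ _ _ => trivial)
  refine ⟨ι, hι, len, top, Basis.mk h3 (by rw [h4]), ?_, ?_, ?_⟩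
  · intro s i
    rw [Basis.mk_apply]
    exact pow_mem' hN _ _ _ (h1 s)
  · intro s i
    rw [Basis.mk_apply, Basis.mk_apply]
    show N ((N ^ (i : ℕ)) (v s)) = (N ^ ((i : ℕ) + 1)) (v s)
    rw [pow_succ', Module.End.mul_apply]
  · intro s
    rw [Basis.mk_apply]
    show N ((N ^ (len s)) (v s)) = 0
    rw [← Module.End.mul_apply, ← pow_succ']
    exact h2 s

/-- The base datum. -/
theorem base_lin [IsAlgClosed K] [Module.Finite K V] (gr : ℕ → Submodule K V)
    (h : DirectSum.IsInternal gr) (F : Module.End K V) (hF : ∀ r, ∀ x ∈ gr r, F x ∈ gr r)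
    (hinj : Function.Injective F) :
    ∃ (ι : Type) (_ : Fintype ι) (len : ι → ℕ) (al : ι → K) (dg : ι → ℕ)
      (b : Basis (Σ s : ι, Fin (len s + 1)) K V) (N : Module.End K V),
      (∀ s (i : Fin (len s + 1)), b ⟨s, i⟩ ∈ gr (dg s)) ∧
      (∀ s (i : Fin (len s)), N (b ⟨s, i.castSucc⟩) = b ⟨s, i.succ⟩) ∧
      (∀ s, N (b ⟨s, Fin.last (len s)⟩) = 0) ∧ (∀ s, al s ≠ 0) ∧
      (∀ q, F (b q) = al q.1 • (b q + N (b q))) ∧
      ((∀ s, len s = 0) → F.IsSemisimple) := by
  classical
  set E : K → Submodule K V := fun c => F.maxGenEigenspace c with hE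
  have hEint : DirectSum.IsInternal E := by
    rw [DirectSum.isInternal_submodule_iff_iSupIndep_and_iSup_eq_top]
    exact ⟨F.independent_maxGenEigenspace, F.iSup_maxGenEigenspace_eq_top⟩
  obtain ⟨ρ, hρ⟩ := exists_proj E hEint
  obtain ⟨π, hπ⟩ := exists_proj gr h
  obtain ⟨N, hN⟩ := exists_glue E hEint fun c => c⁻¹ • F - 1
  have hFE : ∀ c, ∀ x ∈ E c, F x ∈ E c := fun c x hx =>
    Module.End.mapsTo_maxGenEigenspace_of_comm (Commute.refl F) c hx
  have hπF : ∀ j, Commute F (π j) := by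
    intro j
    apply LinearMap.ext
    intro u
    exact hπ.comm hF j u
  have hπE : ∀ c j u, u ∈ E c → π j u ∈ E c := fun c j u hu =>
    Module.End.mapsTo_maxGenEigenspace_of_comm (hπF j) c hu
  have hP := hρ.refine hπ hπE
  have hNmem : ∀ r : K × ℕ, ∀ x ∈ E r.1 ⊓ gr r.2, N x ∈ E r.1 ⊓ gr r.2 := by
    rintro ⟨c, m⟩ x ⟨h1, h2⟩
    rw [hN c x h1, LinearMap.sub_apply, LinearMap.smul_apply, Module.End.one_apply]
    exact ⟨Submodule.sub_mem _ (Submodule.smul_mem _ _ (hFE c x h1)) h1,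
      Submodule.sub_mem _ (Submodule.smul_mem _ _ (hF m x h2)) h2⟩
  have hNE : ∀ c, ∀ x ∈ E c, N x ∈ E c := by
    intro c x h1
    rw [hN c x h1, LinearMap.sub_apply, LinearMap.smul_apply, Module.End.one_apply]
    exact Submodule.sub_mem _ (Submodule.smul_mem _ _ (hFE c x h1)) h1
  have hE0 : ∀ x ∈ E 0, x = 0 := by
    intro x hx
    obtain ⟨n, hn⟩ := (Module.End.mem_maxGenEigenspace F 0 x).1 hx
    rw [zero_smul, sub_zero] at hn
    have hinj' : Function.Injective (F ^ n) := by
      rw [Module.End.coe_pow]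
      exact hinj.iterate n
    exact hinj' (by rw [hn, map_zero])
  -- nilpotency
  have hNnil : ∀ c, ∀ x ∈ E c, (N ^ finrank K V) x = 0 := by
    intro c x hx
    by_cases hc : c = 0
    · subst hc
      rw [hE0 x hx, map_zero]
    have key : ∀ n : ℕ, ∀ y ∈ E c, (N ^ n) y = (c⁻¹) ^ n • ((F - c • (1 : Module.End K V)) ^ n) y := by
      intro n
      induction n with
      | zero => intro y _; simp
      | succ n ih =>
        intro y hy
        have e1 : (c⁻¹ • F - 1 : Module.End K V) y = c⁻¹ • (F - c • (1 : Module.End K V)) y := by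
          rw [LinearMap.sub_apply, LinearMap.sub_apply, LinearMap.smul_apply, LinearMap.smul_apply,
            smul_sub, smul_smul, inv_mul_cancel₀ hc, one_smul]
        rw [pow_succ, Module.End.mul_apply, ih _ (hNE c y hy), hN c y hy, e1, pow_succ (F - _),
          Module.End.mul_apply, pow_succ, mul_smul, map_smul]
    rw [key _ x hx]
    have h1 : x ∈ F.maxGenEigenspace c := hx
    rw [Module.End.maxGenEigenspace_eq_genEigenspace_finrank, Module.End.mem_genEigenspace_nat] at h1
    rw [LinearMap.mem_ker.1 h1, smul_zero]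
  have hnil : ∃ k : ℕ, ∀ u, (N ^ k) u = 0 := by
    refine ⟨finrank K V, fun u => ?_⟩
    obtain ⟨T, hT, -⟩ := hρ.sum u
    rw [hT, map_sum]
    exact Finset.sum_eq_zero fun c _ => hNnil c _ (hρ.mem c u)
  obtain ⟨ι, hι, len, top, b, h1, h2, h3⟩ := exists_strings' hP N hNmem hnil
  have hal : ∀ s, (top s).1 ≠ 0 := by
    intro s h0
    have h4 := (h1 s 0).1
    have h4' : b ⟨s, 0⟩ ∈ E (top s).1 := h4
    rw [h0] at h4'
    exact b.ne_zero _ (hE0 _ h4')
  have hFb : ∀ q, F (b q) = (top q.1).1 • (b q + N (b q)) := by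
    rintro ⟨s, i⟩
    have h4 : b ⟨s, i⟩ ∈ E (top s).1 := (h1 s i).1
    rw [hN _ _ h4, LinearMap.sub_apply, LinearMap.smul_apply, Module.End.one_apply,
      add_sub_cancel, smul_smul, mul_inv_cancel₀ (hal s), one_smul]
  refine ⟨ι, hι, len, fun s => (top s).1, fun s => (top s).2, b, N, fun s i => (h1 s i).2, h2, h3,
    hal, hFb, ?_⟩
  intro hlen
  have hNb : ∀ q, N (b q) = 0 := by
    rintro ⟨s, i⟩
    have hi : i = Fin.last (len s) := by
      have := i.2
      have h5 := hlen s
      apply Fin.ext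
      rw [Fin.val_last]
      omega
    rw [hi]
    exact h3 s
  have hFb' : ∀ q, F (b q) = (top q.1).1 • b q := by
    intro q
    rw [hFb, hNb, add_zero]
  set S : Finset K := Finset.univ.image fun s => (top s).1 with hS
  set P : Polynomial K := ∏ c ∈ S, (Polynomial.X - Polynomial.C c) with hP'
  refine Module.End.isSemisimple_of_squarefree_aeval_eq_zero (p := P) ?_ ?_
  · apply Polynomial.Separable.squarefree
    rw [hP', Polynomial.separable_prod_X_sub_C_iff' (f := fun c : K => c)]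
    intro x _ y _ hxy
    exact hxy
  · apply b.ext
    intro q
    have hmem : (top q.1).1 ∈ S := Finset.mem_image_of_mem _ (Finset.mem_univ _)
    have h6 : P = (∏ c ∈ S.erase (top q.1).1, (Polynomial.X - Polynomial.C c)) *
        (Polynomial.X - Polynomial.C (top q.1).1) := by
      rw [hP', Finset.prod_erase_mul _ _ hmem]
    rw [h6, map_mul, Module.End.mul_apply, map_sub, Polynomial.aeval_X, Polynomial.aeval_C,
      LinearMap.sub_apply, hFb' q, Module.algebraMap_end_apply, sub_self, map_zero]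
    rfl

end Pool.Agent.K7.H8.TH
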