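import Mathlib
import Pool.Agent.K7.H8.TH.Lin
import Pool.Agent.K7.H8.TH.Str
import Pool.Agent.Y210.MW.B3
import Pool.Agent.Y664.MW.B2

/-!
# Typed weight data and tensor products
-/

set_option autoImplicit false
set_option linter.unusedSectionVars false

open Module TensorProduct

namespace Pool.Agent.K7.H8.TH

open Pool.Agent.Y163.MW

universe u v

section

variable {K : Type u} [Field K] {V V' V'' : Type v} [AddCommGroup V] [Module K V]
  [AddCommGroup V'] [Module K V'] [AddCommGroup V''] [Module K V'']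
  {I Θ I' Θ' : Type} {b : Basis I K V} {a : I → ℤ} {ty : I → Θ} {N : Module.End K V}
  {b' : Basis I' K V'} {a' : I' → ℤ} {ty' : I' → Θ'} {N' : Module.End K V'}

/-- The indices of type `θ` and of weight at most `r`. -/
def lw (a : I → ℤ) (ty : I → Θ) (θ : Θ) (r : ℤ) : Set I := {j | ty j = θ ∧ a j ≤ r}

lemma lw_mono {a : I → ℤ} {ty : I → Θ} {θ : Θ} {r s : ℤ} (h : r ≤ s) :
    lw a ty θ r ⊆ lw a ty θ s := fun _ hj => ⟨hj.1, hj.2.trans h⟩

/-- A basis of weight vectors for a representation of `sl(2)` with lowering operator `N`, with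
types which are respected by `N`. -/
structure Dat (b : Basis I K V) (a : I → ℤ) (ty : I → Θ) (N : Module.End K V) : Prop where
  sl2 : ∃ e h, IsSl2 N b a e h
  N_mem : ∀ i, N (b i) ∈ sp b (lw a ty (ty i) (a i - 2))

/-- The operator `T` is `c (1 + t N + terms lowering the weights by at least 4)` on the vectors of
each type. -/
def Rel (b : Basis I K V) (a : I → ℤ) (ty : I → Θ) (N T : Module.End K V) (c : Θ → K) (t : K) :
    Prop :=
  ∀ i, T (b i) - c (ty i) • (b i + t • N (b i)) ∈ sp b (lw a ty (ty i) (a i - 4))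

lemma Dat.N_le (D : Dat b a ty N) {θ : Θ} {r : ℤ} {x : V} (hx : x ∈ sp b (lw a ty θ r)) :
    N x ∈ sp b (lw a ty θ (r - 2)) := by
  refine map_mem_sp b N (fun i hi => ?_) hx
  have h := D.N_mem i
  rw [hi.1] at h
  exact sp_mono b (lw_mono (by have := hi.2; omega)) h

variable {T T' : Module.End K V} {c c' : Θ → K} {t t' : K}

lemma Rel.sub_le (R : Rel b a ty N T c t) {θ : Θ} {r : ℤ} {x : V}
    (hx : x ∈ sp b (lw a ty θ r)) : T x - c θ • (x + t • N x) ∈ sp b (lw a ty θ (r - 4)) := by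
  refine map_mem_sp b (T - c θ • (LinearMap.id + t • N)) (fun i hi => ?_) hx
  have h := R i
  rw [hi.1] at h
  exact sp_mono b (lw_mono (by have := hi.2; omega)) h

lemma Rel.le (D : Dat b a ty N) (R : Rel b a ty N T c t) {θ : Θ} {r : ℤ} {x : V}
    (hx : x ∈ sp b (lw a ty θ r)) : T x ∈ sp b (lw a ty θ r) := by
  have h1 := R.sub_le hx
  have h2 := D.N_le hx
  have h3 : T x = (T x - c θ • (x + t • N x)) + c θ • (x + t • N x) := by abel
  rw [h3]
  refine Submodule.add_mem _ (sp_mono b (lw_mono (by omega)) h1) (Submodule.smul_mem _ _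
    (Submodule.add_mem _ hx (Submodule.smul_mem _ _ (sp_mono b (lw_mono (by omega)) h2))))

lemma Rel.one (b : Basis I K V) (a : I → ℤ) (ty : I → Θ) (N : Module.End K V) :
    Rel b a ty N 1 (fun _ => 1) 0 := by
  intro i
  rw [zero_smul, add_zero, one_smul, Module.End.one_apply, sub_self]
  exact Submodule.zero_mem _

lemma Rel.mul (D : Dat b a ty N) (R : Rel b a ty N T c t) (R' : Rel b a ty N T' c' t') :
    Rel b a ty N (T * T') (fun θ => c θ * c' θ) (t + t') := by
  intro i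
  have hb : b i ∈ sp b (lw a ty (ty i) (a i)) := b_mem b ⟨rfl, le_rfl⟩
  have hN := D.N_mem i
  have h1 := R' i
  have h2 := R.le D h1
  have h3 := R.sub_le hb
  have h4 := R.sub_le hN
  have h5 := D.N_le hN
  have e : (T * T') (b i) - (c (ty i) * c' (ty i)) • (b i + (t + t') • N (b i)) =
      T (T' (b i) - c' (ty i) • (b i + t' • N (b i))) +
      c' (ty i) • (T (b i) - c (ty i) • (b i + t • N (b i))) +
      (c' (ty i) * t') • (T (N (b i)) - c (ty i) • (N (b i) + t • N (N (b i)))) +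
      (c' (ty i) * t' * c (ty i) * t) • N (N (b i)) := by
    rw [Module.End.mul_apply, map_sub, map_smul, map_add, map_smul]
    module
  rw [e]
  refine Submodule.add_mem _ (Submodule.add_mem _ (Submodule.add_mem _ h2
    (Submodule.smul_mem _ _ h3)) (Submodule.smul_mem _ _ ?_)) (Submodule.smul_mem _ _ ?_)
  · exact sp_mono b (lw_mono (by omega)) h4
  · exact sp_mono b (lw_mono (by omega)) h5

lemma Rel.pow (D : Dat b a ty N) (R : Rel b a ty N T c t) (k : ℕ) :
    Rel b a ty N (T ^ k) (fun θ => c θ ^ k) (k * t) := by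
  induction k with
  | zero =>
    have := Rel.one b a ty N
    simp only [pow_zero, Nat.cast_zero, zero_mul]
    exact this
  | succ k ih =>
    have := ih.mul D R
    have e1 : ((k + 1 : ℕ) : K) * t = k * t + t := by push_cast; ring
    simp only [pow_succ]
    rw [e1]
    exact this

lemma tens_mem {J : Set I} {J' : Set I'} {x : V} {y : V'} (hx : x ∈ sp b J) (hy : y ∈ sp b' J') :
    x ⊗ₜ[K] y ∈ sp (b.tensorProduct b') (J ×ˢ J') := by
  refine map_mem_sp b ((TensorProduct.mk K V V').flip y) (fun i hi => ?_) hx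
  refine map_mem_sp b' ((TensorProduct.mk K V V') (b i)) (fun j hj => ?_) hy
  have : (TensorProduct.mk K V V') (b i) (b' j) = (b.tensorProduct b') (i, j) := by
    rw [Basis.tensorProduct_apply]
    rfl
  rw [this]
  exact b_mem _ ⟨hi, hj⟩

lemma tens_lw {θ : Θ} {θ' : Θ'} {r r' : ℤ} {x : V} {y : V'} (hx : x ∈ sp b (lw a ty θ r))
    (hy : y ∈ sp b' (lw a' ty' θ' r')) {s : ℤ} (hs : r + r' ≤ s) :
    x ⊗ₜ[K] y ∈ sp (b.tensorProduct b') (lw (fun p : I × I' => a p.1 + a' p.2)
      (fun p : I × I' => (ty p.1, ty' p.2)) (θ, θ') s) := by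
  refine sp_mono _ ?_ (tens_mem hx hy)
  rintro ⟨i, j⟩ ⟨⟨h1, h2⟩, ⟨h3, h4⟩⟩
  refine ⟨?_, ?_⟩
  · show (ty i, ty' j) = (θ, θ')
    rw [h1, h3]
  · show a i + a' j ≤ s
    have h5 : a i ≤ r := h2
    have h6 : a' j ≤ r' := h4
    omega

/-- Tensor products of data. -/
lemma Dat.tensor (D : Dat b a ty N) (D' : Dat b' a' ty' N') :
    Dat (b.tensorProduct b') (fun p : I × I' => a p.1 + a' p.2)
      (fun p : I × I' => (ty p.1, ty' p.2))
      (TensorProduct.map N LinearMap.id + TensorProduct.map LinearMap.id N' :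
        Module.End K (V ⊗[K] V')) := by
  obtain ⟨e, h, H⟩ := D.sl2
  obtain ⟨e', h', H'⟩ := D'.sl2
  refine ⟨⟨_, _, Pool.Agent.Y210.MW.t_B3 K V V' N I b a e h N' I' b' a' e' h' H H'⟩, ?_⟩
  rintro ⟨i, j⟩
  rw [Basis.tensorProduct_apply, LinearMap.add_apply, TensorProduct.map_tmul,
    TensorProduct.map_tmul, LinearMap.id_apply, LinearMap.id_apply]
  refine Submodule.add_mem _ ?_ ?_
  · exact tens_lw (D.N_mem i) (b_mem b' (J := lw a' ty' (ty' j) (a' j)) ⟨rfl, le_rfl⟩)
      (by show _ ≤ a i + a' j - 2; omega)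
  · exact tens_lw (b_mem b (J := lw a ty (ty i) (a i)) ⟨rfl, le_rfl⟩) (D'.N_mem j)
      (by show _ ≤ a i + a' j - 2; omega)

/-- Tensor products of relations. -/
lemma Rel.tensor (D : Dat b a ty N) (D' : Dat b' a' ty' N') (R : Rel b a ty N T c t)
    {U : Module.End K V'} {d : Θ' → K} (R' : Rel b' a' ty' N' U d t) :
    Rel (b.tensorProduct b') (fun p : I × I' => a p.1 + a' p.2)
      (fun p : I × I' => (ty p.1, ty' p.2))
      (TensorProduct.map N LinearMap.id + TensorProduct.map LinearMap.id N' :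
        Module.End K (V ⊗[K] V')) (TensorProduct.map T U) (fun θ => c θ.1 * d θ.2) t := by
  rintro ⟨i, j⟩
  rw [Basis.tensorProduct_apply, LinearMap.add_apply, TensorProduct.map_tmul,
    TensorProduct.map_tmul, TensorProduct.map_tmul, LinearMap.id_apply, LinearMap.id_apply]
  have hb : b i ∈ sp b (lw a ty (ty i) (a i)) := b_mem b ⟨rfl, le_rfl⟩
  have hb' : b' j ∈ sp b' (lw a' ty' (ty' j) (a' j)) := b_mem b' ⟨rfl, le_rfl⟩
  have hN := D.N_mem i
  have hN' := D'.N_mem j
  have h1 := R i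
  have h2 := R' j
  have h3 := R'.le D' hb'
  set r := T (b i) - c (ty i) • (b i + t • N (b i)) with hr
  set r' := U (b' j) - d (ty' j) • (b' j + t • N' (b' j)) with hr'
  have e1 : T (b i) = c (ty i) • (b i + t • N (b i)) + r := by rw [hr]; abel
  have e2 : U (b' j) = d (ty' j) • (b' j + t • N' (b' j)) + r' := by rw [hr']; abel
  have e : T (b i) ⊗ₜ[K] U (b' j) - (c (ty i) * d (ty' j)) •
      (b i ⊗ₜ[K] b' j + t • (N (b i) ⊗ₜ[K] b' j + b i ⊗ₜ[K] N' (b' j))) =
      r ⊗ₜ[K] U (b' j) + (c (ty i)) • (b i ⊗ₜ[K] r') + (c (ty i) * t) • (N (b i) ⊗ₜ[K] r') +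
      (c (ty i) * d (ty' j) * t * t) • (N (b i) ⊗ₜ[K] N' (b' j)) := by
    rw [e1, TensorProduct.add_tmul, e2]
    simp only [TensorProduct.tmul_add, TensorProduct.add_tmul, TensorProduct.tmul_smul,
      ← TensorProduct.smul_tmul', smul_add]
    module
  show T (b i) ⊗ₜ[K] U (b' j) - (c (ty i) * d (ty' j)) •
      (b i ⊗ₜ[K] b' j + t • (N (b i) ⊗ₜ[K] b' j + b i ⊗ₜ[K] N' (b' j))) ∈ _
  rw [e]
  refine Submodule.add_mem _ (Submodule.add_mem _ (Submodule.add_mem _ ?_
    (Submodule.smul_mem _ _ ?_)) (Submodule.smul_mem _ _ ?_)) (Submodule.smul_mem _ _ ?_)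
  · exact tens_lw h1 h3 (by show _ ≤ a i + a' j - 4; omega)
  · exact tens_lw hb h2 (by show _ ≤ a i + a' j - 4; omega)
  · exact tens_lw hN h2 (by show _ ≤ a i + a' j - 4; omega)
  · exact tens_lw hN hN' (by show _ ≤ a i + a' j - 4; omega)

lemma sp_map (κ : V ≃ₗ[K] V'') {J : Set I} {x : V} (hx : x ∈ sp b J) : κ x ∈ sp (b.map κ) J := by
  intro i hi
  rw [Basis.map_repr, LinearEquiv.trans_apply, κ.symm_apply_apply]
  exact hx i hi

/-- Transport of data. -/
lemma Dat.map (D : Dat b a ty N) (κ : V ≃ₗ[K] V'') : Dat (b.map κ) a ty (κ.conj N) := by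
  obtain ⟨e, h, H⟩ := D.sl2
  refine ⟨⟨_, _, H.map κ (N' := κ.conj N) fun x => ?_⟩, fun i => ?_⟩
  · rw [LinearEquiv.conj_apply_apply, κ.symm_apply_apply]
  · rw [Basis.map_apply, LinearEquiv.conj_apply_apply, κ.symm_apply_apply]
    exact sp_map κ (D.N_mem i)

lemma Rel.map (R : Rel b a ty N T c t) (κ : V ≃ₗ[K] V'') {T'' : Module.End K V''}
    (hT : ∀ x, T'' (κ x) = κ (T x)) : Rel (b.map κ) a ty (κ.conj N) T'' c t := by
  intro i
  rw [Basis.map_apply, LinearEquiv.conj_apply_apply, κ.symm_apply_apply, hT, ← map_smul,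
    ← map_add, ← map_smul, ← map_sub]
  exact sp_map κ (R i)

end

section base

variable {K : Type u} [Field K] [CharZero K] {V : Type v} [AddCommGroup V] [Module K V]

/-- The datum given by strings. -/
lemma dat_strings {ι : Type} [Fintype ι] (len : ι → ℕ)
    (b : Basis (Σ s : ι, Fin (len s + 1)) K V) (N : Module.End K V)
    (h1 : ∀ s (i : Fin (len s)), N (b ⟨s, i.castSucc⟩) = b ⟨s, i.succ⟩)
    (h2 : ∀ s, N (b ⟨s, Fin.last (len s)⟩) = 0) :
    Dat b (fun p => (len p.1 : ℤ) - 2 * (p.2 : ℕ)) (fun p => p.1) N := by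
  let S : Strings (fun _ : ℤ => (⊤ : Submodule K V)) N :=
    { ι := ι
      fintype := inferInstance
      len := len
      top := fun _ => 0
      b := b
      mem := fun _ _ => trivial
      succ := h1
      last := h2 }
  refine ⟨Pool.Agent.Y664.MW.t_B2 K V _ N S, ?_⟩
  rintro ⟨s, i⟩
  rcases Fin.eq_castSucc_or_eq_last i with ⟨j, rfl⟩ | rfl
  · rw [h1]
    refine b_mem b ⟨rfl, ?_⟩
    show (len s : ℤ) - 2 * ((j.succ : Fin (len s + 1)) : ℕ) ≤
      (len s : ℤ) - 2 * ((j.castSucc : Fin (len s + 1)) : ℕ) - 2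
    rw [Fin.val_succ, Fin.val_castSucc]
    push_cast
    omega
  · rw [h2]
    exact Submodule.zero_mem _

/-- The relation for an operator which is `c (1 + N)` on the strings. -/
lemma rel_strings {I Θ : Type} {b : Basis I K V} {a : I → ℤ} {ty : I → Θ}
    {N F : Module.End K V} (c : Θ → K) (hF : ∀ i, F (b i) = c (ty i) • (b i + N (b i))) :
    Rel b a ty N F c 1 := by
  intro i
  rw [hF, one_smul, sub_self]
  exact Submodule.zero_mem _

end base

end Pool.Agent.K7.H8.TH
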