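import Mathlib
import Pool.Agent.K7.H8.TH.Base
import Pool.Agent.K7.H8.TH.Asy
import Pool.Agent.K7.H8.TH.Dat
import Pool.Agent.Y133.Half.TrueTate
import Pool.Agent.Y133.Half.Growth

/-!
# The data of the powers of a variety
-/

set_option autoImplicit false
set_option linter.unusedSectionVars false

open CategoryTheory AlgebraicGeometry

universe u v

namespace Pool.Agent.K7.H8.TH

open Module
open Pool.Agent.H914 Pool.Agent.H914.VarClass Pool.Agent.H914.VarClass.Obj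
  Pool.Agent.H914.WeilCohomology Pool.Agent.W534 Pool.Agent.Y133.Half

variable {k : Type u} [Field k] {𝒱 : VarClass k} {ops : CycleOps 𝒱}
  {W : WeilCohomology.{u, v} ops} {p : ℕ}

/-- The action of the Frobenius endomorphisms on the cohomology of a variety: basis, weights of
the representation of `sl(2)`, types, eigenvalues and degrees of the types. -/
structure FData (Φ : FrobSystem W p) (t0 : ℕ) (Y : 𝒱.Obj) (G v : ℝ) where
  I : Type
  Θ : Type
  fI : Fintype I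
  fΘ : Fintype Θ
  dΘ : DecidableEq Θ
  b : Basis I W.K (W.H Y)
  a : I → ℤ
  ty : I → Θ
  kk : Θ → ℕ
  N : Module.End W.K (W.H Y)
  al : Θ → W.K
  dg : Θ → ℕ
  dat : Dat b a ty N
  wts : Wts a ty kk v
  sum : ∑ i, (1 / 2 : ℝ) ^ kk (ty i) = G
  deg : ∀ i, b i ∈ W.gr Y (dg (ty i))
  al_ne : ∀ θ, al θ ≠ 0
  m0 : ℕ
  m0_pos : 0 < m0
  rel : ∀ l : ℕ, 0 < l → m0 ∣ l → ∃ s, 0 < s ∧ Φ.e Y * s = t0 * l ∧
    Rel b a ty N (frob Φ Y s) (fun θ => al θ ^ l) (l : W.K)

attribute [instance] FData.fI FData.fΘ FData.dΘ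

namespace FData

variable {Φ : FrobSystem W p} {t0 : ℕ} {Y Y1 Y2 : 𝒱.Obj} {G v G1 v1 G2 v2 : ℝ}

/-- The Frobenius endomorphism on a product. -/
lemma frob_kappa {s s1 s2 : ℕ}
    (h1 : ∀ y : W.H Y1, W.map (W534.iter (Φ.Fr (Y1.prod Y2)) s) (W.map (fst Y1 Y2) y) =
      W.map (fst Y1 Y2) (W.map (W534.iter (Φ.Fr Y1) s1) y))
    (h2 : ∀ y : W.H Y2, W.map (W534.iter (Φ.Fr (Y1.prod Y2)) s) (W.map (snd Y1 Y2) y) =
      W.map (snd Y1 Y2) (W.map (W534.iter (Φ.Fr Y2) s2) y))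
    (x : TensorProduct W.K (W.H Y1) (W.H Y2)) :
    frob Φ (Y1.prod Y2) s (kappa W Y1 Y2 x) =
      kappa W Y1 Y2 (TensorProduct.map (frob Φ Y1 s1) (frob Φ Y2 s2) x) := by
  induction x using TensorProduct.induction_on with
  | zero => simp
  | tmul x y =>
    rw [TensorProduct.map_tmul, kappa_tmul, kappa_tmul, frob_apply, map_mul, h1, h2]
    rfl
  | add x y hx hy => rw [map_add, map_add, map_add, map_add, hx, hy]

/-- The data of a product. -/
theorem prod (D1 : FData Φ t0 Y1 G1 v1) (D2 : FData Φ t0 Y2 G2 v2) :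
    Nonempty (FData Φ t0 (Y1.prod Y2) (G1 * G2) (v1 + v2)) := by
  set κ := kappa W Y1 Y2 with hκ
  obtain ⟨a, b, ha, hb, hab, hf⟩ := W534.frob_comm (W := W) Φ (fst Y1 Y2)
  obtain ⟨a', b', ha', hb', hab', hf'⟩ := W534.frob_comm (W := W) Φ (snd Y1 Y2)
  have hrel : ∀ l : ℕ, 0 < l → D1.m0 * D2.m0 * Φ.e (Y1.prod Y2) * a * a' ∣ l →
      ∃ s, 0 < s ∧ Φ.e (Y1.prod Y2) * s = t0 * l ∧
        Rel ((D1.b.tensorProduct D2.b).map κ) (fun q : D1.I × D2.I => D1.a q.1 + D2.a q.2)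
          (fun q : D1.I × D2.I => (D1.ty q.1, D2.ty q.2))
          (κ.conj (TensorProduct.map D1.N LinearMap.id + TensorProduct.map LinearMap.id D2.N))
          (frob Φ (Y1.prod Y2) s) (fun θ => (D1.al θ.1 * D2.al θ.2) ^ l) (l : W.K) := by
    rintro l hl ⟨r, rfl⟩
    have hr : 0 < r := Nat.pos_of_ne_zero fun h => by simp [h] at hl
    obtain ⟨s1, hs1, hs1', R1⟩ := D1.rel _ hl ⟨D2.m0 * Φ.e (Y1.prod Y2) * a * a' * r, by ring⟩
    obtain ⟨s2, hs2, hs2', R2⟩ := D2.rel _ hl ⟨D1.m0 * Φ.e (Y1.prod Y2) * a * a' * r, by ring⟩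
    have ht0 : 0 < t0 := by
      have h := Nat.mul_pos (Φ.e_pos Y1) hs1
      rw [hs1'] at h
      exact Nat.pos_of_ne_zero (left_ne_zero_of_mul h.ne')
    refine ⟨t0 * (D1.m0 * D2.m0 * a * a' * r), ?_, by ring, ?_⟩
    · exact Nat.mul_pos ht0 (Nat.mul_pos (Nat.mul_pos (Nat.mul_pos (Nat.mul_pos D1.m0_pos
        D2.m0_pos) ha) ha') hr)
    · have e1 : s1 = b * (t0 * D1.m0 * D2.m0 * a' * r) := by
        have h1 : Φ.e Y1 * s1 = Φ.e Y1 * (b * (t0 * D1.m0 * D2.m0 * a' * r)) := by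
          calc Φ.e Y1 * s1 = (a * Φ.e (Y1.prod Y2)) * (t0 * D1.m0 * D2.m0 * a' * r) := by
                rw [hs1']; ring
            _ = _ := by rw [hab]; ring
        exact Nat.eq_of_mul_eq_mul_left (Φ.e_pos Y1) h1
      have e2 : s2 = b' * (t0 * D1.m0 * D2.m0 * a * r) := by
        have h1 : Φ.e Y2 * s2 = Φ.e Y2 * (b' * (t0 * D1.m0 * D2.m0 * a * r)) := by
          calc Φ.e Y2 * s2 = (a' * Φ.e (Y1.prod Y2)) * (t0 * D1.m0 * D2.m0 * a * r) := by
                rw [hs2']; ring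
            _ = _ := by rw [hab']; ring
        exact Nat.eq_of_mul_eq_mul_left (Φ.e_pos Y2) h1
      have R := Rel.tensor D1.dat D2.dat R1 R2
      have e3 : t0 * (D1.m0 * D2.m0 * a * a' * r) = a * (t0 * D1.m0 * D2.m0 * a' * r) := by ring
      have e4 : t0 * (D1.m0 * D2.m0 * a * a' * r) = a' * (t0 * D1.m0 * D2.m0 * a * r) := by ring
      have hT := frob_kappa (Φ := Φ) (Y1 := Y1) (Y2 := Y2)
        (s := t0 * (D1.m0 * D2.m0 * a * a' * r)) (s1 := s1) (s2 := s2)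
        (fun y => by rw [e3, e1]; exact hf _ y) (fun y => by rw [e4, e2]; exact hf' _ y)
      have R' := R.map κ (T'' := frob Φ (Y1.prod Y2) (t0 * (D1.m0 * D2.m0 * a * a' * r))) hT
      simp only [mul_pow]
      exact R'
  refine ⟨⟨D1.I × D2.I, D1.Θ × D2.Θ, inferInstance, inferInstance, inferInstance,
    (D1.b.tensorProduct D2.b).map κ, fun q => D1.a q.1 + D2.a q.2,
    fun q => (D1.ty q.1, D2.ty q.2), fun θ => D1.kk θ.1 + D2.kk θ.2,
    κ.conj (TensorProduct.map D1.N LinearMap.id + TensorProduct.map LinearMap.id D2.N),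
    fun θ => D1.al θ.1 * D2.al θ.2, fun θ => D1.dg θ.1 + D2.dg θ.2,
    (D1.dat.tensor D2.dat).map κ, D1.wts.prod D2.wts, ?_, ?_,
    fun θ => mul_ne_zero (D1.al_ne _) (D2.al_ne _),
    D1.m0 * D2.m0 * Φ.e (Y1.prod Y2) * a * a', ?_, hrel⟩⟩
  · exact (sum_pow_prod D1.kk D2.kk D1.ty D2.ty (1 / 2)).trans
      (congrArg₂ (· * ·) D1.sum D2.sum)
  · rintro ⟨i, j⟩
    rw [Basis.map_apply, Basis.tensorProduct_apply, hκ, kappa_tmul]
    exact W.mul_mem (W.map_mem _ (D1.deg i)) (W.map_mem _ (D2.deg j))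
  · exact Nat.mul_pos (Nat.mul_pos (Nat.mul_pos (Nat.mul_pos D1.m0_pos D2.m0_pos) (Φ.e_pos _))
      ha) ha'

end FData

/-- The data of the variety itself. -/
theorem exists_base [IsAlgClosed W.K] (Φ : FrobSystem W p) (X : 𝒱.Obj) :
    FrobSemisimple Φ X ∨ ∃ G v : ℝ, 0 < G ∧ G < finrank W.K (W.H X) ∧ 0 < v ∧
      Nonempty (FData Φ (Φ.e X) X G v) := by
  classical
  obtain ⟨ι, hι, len, al, dg, b, N, h1, h2, h3, h4, h5, h6⟩ := base_lin (W.gr X)
    (W.isInternal X) (frob Φ X 1) (fun r x hx => W.map_mem _ hx) (by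
      have := frob_pow_injective (Φ := Φ) (Z := X) 1 1
      rwa [pow_one] at this)
  by_cases hlen : ∀ s, len s = 0
  · left
    have h7 := h6 hlen
    unfold FrobSemisimple
    have h8 : frob Φ X 1 = (W.map (Φ.Fr X)).toLinearMap := by
      have : W534.iter (Φ.Fr X) 1 = Φ.Fr X := Category.id_comp _
      unfold frob
      rw [this]
    rw [← h8]
    exact h7
  · right
    push Not at hlen
    obtain ⟨s₀, hs₀⟩ := hlen
    have D := dat_strings len b N h2 h3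
    have hW := wts_strings len
    refine ⟨∑ i : (Σ s : ι, Fin (len s + 1)), (1 / 2 : ℝ) ^ (if len i.1 = 0 then 0 else 1),
      ∑ s, (len s : ℝ) ^ 2, ?_, ?_, ?_, ?_⟩
    · have : Nonempty (Σ s : ι, Fin (len s + 1)) := ⟨⟨s₀, 0⟩⟩
      exact Finset.sum_pos (fun _ _ => by positivity) Finset.univ_nonempty
    · rw [Module.finrank_eq_card_basis b, Fintype.card, ← nsmul_one, ← Finset.sum_const]
      refine Finset.sum_lt_sum (fun i _ => ?_) ⟨⟨s₀, 0⟩, Finset.mem_univ _, ?_⟩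
      · split_ifs <;> norm_num
      · rw [if_neg hs₀]
        norm_num
    · have h7 : (0 : ℝ) < (len s₀ : ℝ) ^ 2 := by
        have : (0 : ℝ) < len s₀ := by exact_mod_cast Nat.pos_of_ne_zero hs₀
        positivity
      exact lt_of_lt_of_le h7 (Finset.single_le_sum (f := fun s => (len s : ℝ) ^ 2)
        (fun _ _ => sq_nonneg _) (Finset.mem_univ s₀))
    · refine ⟨⟨(Σ s : ι, Fin (len s + 1)), ι, inferInstance, hι, inferInstance, b, _, _, _, N, al,
        dg, D, hW, rfl, fun i => h1 i.1 i.2, h4, 1, one_pos, ?_⟩⟩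
      intro l hl _
      refine ⟨l, hl, rfl, ?_⟩
      have R := rel_strings (b := b) (a := fun p => (len p.1 : ℤ) - 2 * (p.2 : ℕ))
        (ty := fun p => p.1) (N := N) (F := frob Φ X 1) al h5
      have R' := R.pow D l
      rw [mul_one, ← frob_mul_eq, one_mul] at R'
      exact R'

/-- The data of the powers. -/
theorem exists_pw {Φ : FrobSystem W p} {t0 : ℕ} {X : 𝒱.Obj} {G v : ℝ} (D : FData Φ t0 X G v)
    (n : ℕ) : Nonempty (FData Φ t0 (pw X n) (G ^ (n + 1)) ((n + 1 : ℕ) * v)) := by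
  induction n with
  | zero =>
    rw [zero_add, pow_one, Nat.cast_one, one_mul]
    exact ⟨D⟩
  | succ n ih =>
    obtain ⟨E⟩ := ih
    have h := FData.prod E D
    rw [← pow_succ] at h
    have e : ((n + 1 : ℕ) : ℝ) * v + v = ((n + 1 + 1 : ℕ) : ℝ) * v := by push_cast; ring
    rw [e] at h
    exact h

end Pool.Agent.K7.H8.TH
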