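import Mathlib
import Pool.Agent.K7.H8.TH.Geo
import Pool.Agent.Y163.TateC

/-!
# Analysis of one degree: linear algebra
-/

set_option autoImplicit false
set_option linter.unusedSectionVars false

open CategoryTheory AlgebraicGeometry

universe u v

namespace Pool.Agent.K7.H8.TH

open Module
open Pool.Agent.H914 Pool.Agent.H914.VarClass Pool.Agent.H914.VarClass.Obj
  Pool.Agent.H914.WeilCohomology Pool.Agent.W534 Pool.Agent.Y133.Half Pool.Agent.Y163
  Pool.Agent.Y163.MW

section lin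

variable {K : Type u} [Field K] [CharZero K] {V : Type v} [AddCommGroup V] [Module K V]
  {I Θ : Type} [Fintype I] {b : Basis I K V} {a : I → ℤ} {ty : I → Θ} {N T : Module.End K V}
  {c : Θ → K} {t : K}

lemma Rel.stab (D : Dat b a ty N) (R : Rel b a ty N T c t) (S : Set Θ) {x : V}
    (hx : x ∈ sp b {i | ty i ∈ S}) : T x ∈ sp b {i | ty i ∈ S} := by
  refine map_mem_sp b T (fun i hi => ?_) hx
  refine sp_mono b ?_ (R.le D (b_mem b (J := lw a ty (ty i) (a i)) ⟨rfl, le_rfl⟩))
  rintro j ⟨hj, -⟩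
  show ty j ∈ S
  rw [hj]
  exact hi

/-- The diagonal part. -/
noncomputable def dia (b : Basis I K V) (ty : I → Θ) (c : Θ → K) : Module.End K V :=
  b.constr K fun i => c (ty i) • b i

lemma dia_b (i : I) : dia b ty c (b i) = c (ty i) • b i := by
  rw [dia, b.constr_basis]

lemma repr_dia (x : V) (i : I) : b.repr (dia b ty c x) i = c (ty i) * b.repr x i := by
  classical
  have h : b.coord i ∘ₗ dia b ty c = c (ty i) • b.coord i := by
    apply b.ext
    intro j
    rw [LinearMap.comp_apply, dia_b, map_smul, LinearMap.smul_apply, Basis.coord_apply,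
      b.repr_self, Finsupp.single_apply]
    by_cases h : j = i
    · rw [h]
    · rw [if_neg h, smul_zero, smul_zero]
  exact congrArg (fun g : V →ₗ[K] K => g x) h

lemma Rel.inj (D : Dat b a ty N) (R : Rel b a ty N T c t) {μ : K} {S : Set Θ}
    (hS : ∀ θ ∈ S, c θ ≠ μ) {x : V} (hx : x ∈ sp b {i | ty i ∈ S}) (h0 : T x = μ • x) :
    x = 0 := by
  obtain ⟨B, hB⟩ := exists_bound a
  have key : ∀ n : ℕ, x ∈ sp b ({i | ty i ∈ S} ∩ {i | a i ≤ (B : ℤ) - n}) := by
    intro n
    induction n with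
    | zero =>
      refine sp_mono b ?_ hx
      intro i hi
      refine ⟨hi, ?_⟩
      show a i ≤ (B : ℤ) - ((0 : ℕ) : ℤ)
      have := (abs_le.1 (hB i)).2
      push_cast
      omega
    | succ n ih =>
      have h1 : (T - dia b ty c) x ∈ sp b {i | a i ≤ (B : ℤ) - n - 2} := by
        refine map_mem_sp b (T - dia b ty c) (fun i hi => ?_) ih
        have h2 := R i
        have h3 := D.N_mem i
        have hi2 : a i ≤ (B : ℤ) - n := hi.2
        have e : (T - dia b ty c) (b i) = (T (b i) - c (ty i) • (b i + t • N (b i))) +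
            (c (ty i) * t) • N (b i) := by
          rw [LinearMap.sub_apply, dia_b]
          module
        rw [e]
        refine Submodule.add_mem _ (sp_mono b ?_ h2) (Submodule.smul_mem _ _ (sp_mono b ?_ h3))
        · rintro j ⟨-, hj⟩
          show a j ≤ (B : ℤ) - n - 2
          omega
        · rintro j ⟨-, hj⟩
          show a j ≤ (B : ℤ) - n - 2
          omega
      intro i hi
      by_cases h4 : i ∈ ({i | ty i ∈ S} ∩ {i | a i ≤ (B : ℤ) - n} : Set I)
      · have h5 : a i = (B : ℤ) - n := by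
          have h6 : a i ≤ (B : ℤ) - n := h4.2
          by_contra h7
          exact hi ⟨h4.1, show a i ≤ (B : ℤ) - ((n + 1 : ℕ) : ℤ) by push_cast; omega⟩
        have h6 := h1 i (show ¬ a i ≤ (B : ℤ) - n - 2 by omega)
        rw [LinearMap.sub_apply, h0, map_sub, Finsupp.sub_apply, repr_dia, map_smul,
          Finsupp.smul_apply, smul_eq_mul, ← sub_mul] at h6
        exact (mul_eq_zero.1 h6).resolve_left (sub_ne_zero.2 (hS _ h4.1).symm)
      · exact ih i h4
  have h1 := key (2 * B + 1)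
  rw [sp_empty b, Submodule.mem_bot] at h1
  · exact h1
  · rw [Set.eq_empty_iff_forall_notMem]
    rintro i ⟨-, hi⟩
    have h2 : a i ≤ (B : ℤ) - ((2 * B + 1 : ℕ) : ℤ) := hi
    have h3 := (abs_le.1 (hB i)).1
    push_cast at h2
    omega

lemma lead_of_rel (D : Dat b a ty N) (R : Rel b a ty N T c t) (ht : t ≠ 0) {μ : K} (hμ : μ ≠ 0)
    {S : Set Θ} (hS : ∀ θ ∈ S, c θ = μ) : Lead b a N (μ⁻¹ • T - 1) t {i | ty i ∈ S} := by
  refine ⟨ht, ?_, ?_, ?_⟩
  · intro i hi
    refine sp_mono b ?_ (D.N_mem i)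
    rintro j ⟨hj, -⟩
    show ty j ∈ S
    rw [hj]
    exact hi
  · intro i hi
    refine sp_mono b ?_ (D.N_mem i)
    rintro j ⟨hj, -⟩ h
    have h' : ty j ∈ S := h
    rw [hj] at h'
    exact hi h'
  · intro i hi
    have h := R i
    rw [hS _ hi] at h
    have e : (μ⁻¹ • T - 1 : Module.End K V) (b i) - t • N (b i) =
        μ⁻¹ • (T (b i) - μ • (b i + t • N (b i))) := by
      rw [LinearMap.sub_apply, LinearMap.smul_apply, Module.End.one_apply, smul_sub, smul_smul,
        inv_mul_cancel₀ hμ, one_smul]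
      abel
    rw [e]
    refine Submodule.smul_mem _ _ (sp_mono b ?_ h)
    rintro j ⟨hj, hj'⟩
    refine ⟨?_, hj'⟩
    show ty j ∈ S
    rw [hj]
    exact hi

lemma f_stab (D : Dat b a ty N) (R : Rel b a ty N T c t) (μ : K) (S : Set Θ) (n : ℕ) {x : V}
    (hx : x ∈ sp b {i | ty i ∈ S}) :
    ((μ⁻¹ • T - 1 : Module.End K V) ^ n) x ∈ sp b {i | ty i ∈ S} := by
  induction n with
  | zero => simpa using hx
  | succ n ih =>
    rw [pow_succ', Module.End.mul_apply, LinearMap.sub_apply, LinearMap.smul_apply,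
      Module.End.one_apply]
    exact Submodule.sub_mem _ (Submodule.smul_mem _ _ (R.stab D S ih)) ih

/-- The generalised eigenvectors. -/
lemma mem_of_nil (D : Dat b a ty N) (R : Rel b a ty N T c t) {μ : K} (hμ : μ ≠ 0)
    {S S' : Set Θ} (hS' : ∀ θ ∈ S', θ ∉ S → c θ ≠ μ) {x : V}
    (hx : x ∈ sp b {i | ty i ∈ S'}) {n : ℕ}
    (h0 : ((μ⁻¹ • T - 1 : Module.End K V) ^ n) x = 0) : x ∈ sp b {i | ty i ∈ S} := by
  set f := (μ⁻¹ • T - 1 : Module.End K V) with hf
  set x1 := pr b {i | ty i ∈ S} x with hx1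
  have h1 : x1 ∈ sp b {i | ty i ∈ S} := pr_mem b _ x
  have h2 : x - x1 ∈ sp b {i | ty i ∈ S' \ S} := by
    refine sp_mono b ?_ (sub_pr_mem b hx)
    rintro i ⟨hi, hi'⟩
    exact ⟨hi, hi'⟩
  have h3 : (f ^ n) (x - x1) = 0 := by
    have h4 := f_stab D R μ S n h1
    have h5 := f_stab D R μ (S' \ S) n h2
    have h6 : (f ^ n) (x - x1) = -(f ^ n) x1 := by
      rw [map_sub, h0, zero_sub]
    have h7 : (f ^ n) (x - x1) ∈ sp b {i | ty i ∈ S} ⊓ sp b {i | ty i ∈ S' \ S} := by
      refine ⟨?_, h5⟩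
      rw [h6]
      exact Submodule.neg_mem _ h4
    rw [sp_inf, sp_empty b, Submodule.mem_bot] at h7
    · exact h7
    · rw [Set.eq_empty_iff_forall_notMem]
      rintro i ⟨hi, hi'⟩
      exact hi'.2 hi
  have h4 : ∀ m : ℕ, (f ^ m) (x - x1) = 0 → x - x1 = 0 := by
    intro m
    induction m with
    | zero => intro h; simpa using h
    | succ m ih =>
      intro h
      apply ih
      rw [pow_succ', Module.End.mul_apply] at h
      refine R.inj D (μ := μ) (S := S' \ S) (fun θ hθ => hS' θ hθ.1 hθ.2)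
        (f_stab D R μ (S' \ S) m h2) ?_
      rw [hf, LinearMap.sub_apply, LinearMap.smul_apply, Module.End.one_apply, sub_eq_zero] at h
      rw [← hf] at h
      conv_rhs => rw [← h]
      rw [smul_smul, mul_inv_cancel₀ hμ, one_smul]
  have h5 := sub_eq_zero.1 (h4 n h3)
  rw [h5]
  exact h1

lemma Lead.nil {e h : Module.End K V} {f : Module.End K V} {Q : Set I} (H : IsSl2 N b a e h)
    (L : Lead b a N f t Q) : ∃ n : ℕ, ∀ x ∈ sp b Q, (f ^ n) x = 0 := by
  obtain ⟨B, hB⟩ := exists_bound a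
  have key : ∀ n : ℕ, ∀ x ∈ sp b Q, (f ^ n) x ∈ sp b (Q ∩ {i | a i ≤ (B : ℤ) - 2 * n}) := by
    intro n
    induction n with
    | zero =>
      intro x hx
      rw [pow_zero, Module.End.one_apply]
      refine sp_mono b ?_ hx
      intro i hi
      refine ⟨hi, ?_⟩
      show a i ≤ (B : ℤ) - 2 * ((0 : ℕ) : ℤ)
      have := (abs_le.1 (hB i)).2
      push_cast
      omega
    | succ n ih =>
      intro x hx
      rw [pow_succ', Module.End.mul_apply]
      refine sp_mono b ?_ (f_le H L (ih x hx))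
      rintro i ⟨hi, hi'⟩
      refine ⟨hi, ?_⟩
      have h1 : a i ≤ (B : ℤ) - 2 * n - 2 := hi'
      show a i ≤ (B : ℤ) - 2 * ((n + 1 : ℕ) : ℤ)
      push_cast
      omega
  refine ⟨B + 1, fun x hx => ?_⟩
  have h1 := key (B + 1) x hx
  rw [sp_empty b, Submodule.mem_bot] at h1
  · exact h1
  · rw [Set.eq_empty_iff_forall_notMem]
    rintro i ⟨-, hi⟩
    have h2 : a i ≤ (B : ℤ) - 2 * ((B + 1 : ℕ) : ℤ) := hi
    have h3 := (abs_le.1 (hB i)).1
    push_cast at h2
    omega

lemma f_pow_eq (T : Module.End K V) {μ : K} (hμ : μ ≠ 0) (n : ℕ) (x : V) :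
    ((T - μ • (1 : Module.End K V)) ^ n) x = μ ^ n • ((μ⁻¹ • T - 1 : Module.End K V) ^ n) x := by
  have e : T - μ • (1 : Module.End K V) = μ • (μ⁻¹ • T - 1 : Module.End K V) := by
    rw [smul_sub, smul_smul, mul_inv_cancel₀ hμ, one_smul]
  rw [e, smul_pow, LinearMap.smul_apply]

end lin

end Pool.Agent.K7.H8.TH
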