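import Mathlib
import Pool.Agent.K7.H8.TH.Deg

/-!
# Analysis of one degree
-/

set_option autoImplicit false
set_option linter.unusedSectionVars false

open CategoryTheory AlgebraicGeometry

universe u v

namespace Pool.Agent.K7.H8.TH

open Module
open Pool.Agent.H914 Pool.Agent.H914.VarClass Pool.Agent.H914.VarClass.Obj
  Pool.Agent.H914.WeilCohomology Pool.Agent.W534 Pool.Agent.Y133.Half Pool.Agent.Y163
  Pool.Agent.Y163.MW

variable {k : Type u} [Field k] {𝒱 : VarClass k} {ops : CycleOps 𝒱}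
  {W : WeilCohomology.{u, v} ops} {p : ℕ}

/-- The span of the Tate classes of degree `2 j`. -/
noncomputable def tateSpan (Φ : FrobSystem W p) (Y : 𝒱.Obj) (j : ℕ) : Submodule W.K (W.H Y) :=
  Submodule.span W.K {c | IsTate Φ Y j c}

section eig

variable {Φ : FrobSystem W p} {Y : 𝒱.Obj}

/-- The eigenspace in degree `2 j`. -/
noncomputable def eigS (Φ : FrobSystem W p) (Y : 𝒱.Obj) (s j : ℕ) : Submodule W.K (W.H Y) :=
  LinearMap.ker (frob Φ Y s - ((card Φ Y s : W.K) ^ j) • (1 : Module.End W.K (W.H Y))) ⊓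
    W.gr Y (2 * j)

lemma mem_eigS {s j : ℕ} {x : W.H Y} : x ∈ eigS Φ Y s j ↔
    frob Φ Y s x = ((card Φ Y s : W.K) ^ j) • x ∧ x ∈ W.gr Y (2 * j) := by
  rw [eigS, Submodule.mem_inf, LinearMap.mem_ker, LinearMap.sub_apply, LinearMap.smul_apply,
    Module.End.one_apply, sub_eq_zero]

lemma eigS_mono (s r j : ℕ) : eigS Φ Y s j ≤ eigS Φ Y (s * r) j := by
  intro x hx
  rw [mem_eigS] at *
  exact ⟨eig_mul hx.1 r, hx.2⟩

lemma exists_eig_stable (Φ : FrobSystem W p) (Y : 𝒱.Obj) (j : ℕ) : ∃ t, 0 < t ∧ ∀ s, 0 < s →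
    eigS Φ Y s j ≤ eigS Φ Y t j := by
  obtain ⟨t, ht, hmax⟩ : ∃ t, 0 < t ∧ ∀ s, 0 < s → Module.finrank W.K (eigS Φ Y s j) ≤
      Module.finrank W.K (eigS Φ Y t j) := by
    by_contra hcon
    push Not at hcon
    have h1 : ∀ n : ℕ, ∃ t, 0 < t ∧ n ≤ Module.finrank W.K (eigS Φ Y t j) := by
      intro n
      induction n with
      | zero => exact ⟨1, one_pos, Nat.zero_le _⟩
      | succ n ih =>
        obtain ⟨t, ht, h⟩ := ih
        obtain ⟨s, hs, h2⟩ := hcon t ht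
        exact ⟨s, hs, by omega⟩
    obtain ⟨t, -, h⟩ := h1 (Module.finrank W.K (W.H Y) + 1)
    have := Submodule.finrank_le (eigS Φ Y t j)
    omega
  refine ⟨t, ht, fun s hs => ?_⟩
  have h1 := eigS_mono (Φ := Φ) (Y := Y) t s j
  have h2 := Submodule.eq_of_le_of_finrank_le h1 (hmax _ (Nat.mul_pos ht hs))
  rw [h2, mul_comm]
  exact eigS_mono s t j

lemma tateSpan_eq {t j : ℕ} (h : ∀ s, 0 < s → eigS Φ Y s j ≤ eigS Φ Y t j) (r : ℕ)
    (ht : 0 < t * r) : tateSpan Φ Y j = eigS Φ Y (t * r) j := by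
  apply le_antisymm
  · unfold tateSpan
    rw [Submodule.span_le]
    intro c hc
    obtain ⟨h1, s, hs, h2⟩ := isTate_iff.1 hc
    exact eigS_mono t r j (h s hs (mem_eigS.2 ⟨h2, h1⟩))
  · intro c hc
    obtain ⟨h1, h2⟩ := mem_eigS.1 hc
    exact Submodule.subset_span (isTate_iff.2 ⟨h2, t * r, ht, h1⟩)

end eig

namespace FData

variable {Φ : FrobSystem W p} {t0 : ℕ} {Y : 𝒱.Obj} {G v : ℝ} (D : FData Φ t0 Y G v)

/-- The homogeneous classes. -/
lemma gr_eq (m : ℕ) {x : W.H Y} : x ∈ W.gr Y m ↔ x ∈ sp D.b {i | D.ty i ∈ {θ | D.dg θ = m}} := by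
  have hle : ∀ {J : Set D.I} {S : Submodule W.K (W.H Y)}, (∀ i ∈ J, D.b i ∈ S) →
      ∀ x ∈ sp D.b J, x ∈ S := fun {J S} h x hx => map_mem_sp D.b LinearMap.id h hx
  have h1 : ∀ x ∈ sp D.b {i | D.ty i ∈ {θ | D.dg θ = m}}, x ∈ W.gr Y m := by
    refine hle fun i hi => ?_
    have h2 := D.deg i
    have hi' : D.dg (D.ty i) = m := hi
    rwa [hi'] at h2
  refine ⟨fun hx => ?_, h1 x⟩
  set x1 := pr D.b {i | D.ty i ∈ {θ | D.dg θ = m}} x with hx1
  have h2 : x1 ∈ W.gr Y m := h1 _ (pr_mem _ _ _)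
  have h3 : x - x1 ∈ ⨆ r, ⨆ (_ : r ≠ m), W.gr Y r := by
    have hx' : x ∈ sp D.b Set.univ := by rw [sp_univ]; trivial
    refine hle (fun i hi => ?_) _ (sub_pr_mem D.b hx')
    have hi' : ¬ D.dg (D.ty i) = m := hi.2
    exact Submodule.mem_iSup_of_mem _ (Submodule.mem_iSup_of_mem hi' (D.deg i))
  have h4 := ((W.isInternal Y).submodule_iSupIndep) m
  have h5 := (Submodule.disjoint_def.1 h4) (x - x1) (Submodule.sub_mem _ hx h2) h3
  rw [sub_eq_zero] at h5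
  rw [h5]
  exact pr_mem _ _ _

/-- The types of the generalised Tate classes of degree `2 j`. -/
def TT (j : ℕ) : Set D.Θ :=
  {θ | D.dg θ = 2 * j ∧ ∃ r, 0 < r ∧ D.al θ ^ r = ((p : W.K) ^ (t0 * j)) ^ r}

lemma exists_l (j : ℕ) {M0 : ℕ} (hM0 : 0 < M0) : ∃ l, 0 < l ∧ D.m0 ∣ l ∧ M0 ∣ l ∧
    ∀ θ ∈ D.TT j, D.al θ ^ l = ((p : W.K) ^ (t0 * j)) ^ l := by
  classical
  have h1 : ∀ θ : D.Θ, ∃ r, 0 < r ∧ (θ ∈ D.TT j → D.al θ ^ r = ((p : W.K) ^ (t0 * j)) ^ r) := by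
    intro θ
    by_cases h : θ ∈ D.TT j
    · obtain ⟨-, r, hr, h2⟩ := h
      exact ⟨r, hr, fun _ => h2⟩
    · exact ⟨1, one_pos, fun h' => absurd h' h⟩
  choose r hr hr' using h1
  refine ⟨D.m0 * M0 * ∏ θ, r θ, Nat.mul_pos (Nat.mul_pos D.m0_pos hM0)
    (Finset.prod_pos fun θ _ => hr θ), ⟨M0 * ∏ θ, r θ, by ring⟩,
    ⟨D.m0 * ∏ θ, r θ, by ring⟩, fun θ hθ => ?_⟩
  obtain ⟨q, hq⟩ := Finset.dvd_prod_of_mem r (Finset.mem_univ θ)
  have e : D.m0 * M0 * ∏ θ, r θ = r θ * (D.m0 * M0 * q) := by rw [hq]; ring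
  rw [e, pow_mul, hr' θ hθ, ← pow_mul]

/-- The good iterates of the Frobenius endomorphism. -/
lemma exists_s (j : ℕ) {M0 : ℕ} (hM0 : 0 < M0) : ∃ s l : ℕ, 0 < s ∧ 0 < l ∧ M0 ∣ s ∧
    Rel D.b D.a D.ty D.N (frob Φ Y s) (fun θ => D.al θ ^ l) (l : W.K) ∧
    (∀ θ ∈ D.TT j, D.al θ ^ l = (card Φ Y s : W.K) ^ j) ∧
    (∀ θ, D.dg θ = 2 * j → D.al θ ^ l = (card Φ Y s : W.K) ^ j → θ ∈ D.TT j) := by
  obtain ⟨l, hl, hm, ⟨q, hq⟩, hT⟩ := D.exists_l j (Nat.mul_pos (Φ.e_pos Y) hM0)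
  obtain ⟨s, hs, hsl, R⟩ := D.rel l hl hm
  have e1 : (card Φ Y s : W.K) ^ j = ((p : W.K) ^ (t0 * j)) ^ l := by
    rw [card_pow, hsl, ← pow_mul]
    congr 1
    ring
  refine ⟨s, l, hs, hl, ?_, R, ?_, ?_⟩
  · refine ⟨t0 * q, ?_⟩
    have h1 : Φ.e Y * s = Φ.e Y * (M0 * (t0 * q)) := by
      rw [hsl, hq]
      ring
    exact Nat.eq_of_mul_eq_mul_left (Φ.e_pos Y) h1
  · intro θ hθ
    rw [e1]
    exact hT θ hθ
  · intro θ h1 h2
    rw [e1] at h2
    exact ⟨h1, l, hl, h2⟩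

/-- The indices of the generalised Tate classes of degree `2 j`. -/
def QQj (j : ℕ) : Set D.I := {i | D.ty i ∈ D.TT j}

/-- The main properties of one degree. -/
theorem one_degree {j l : ℕ} (hjl : j + l = Y.dim) :
    kRank W Y j l + cn D.a (D.QQj j) (-2) ≤ cn D.a (D.QQj j) 0 ∧
    finrank W.K (genU Φ Y j) = Nat.card (D.QQj j) ∧
    cn D.a (D.QQj j) 0 + cn D.a (D.QQj j) 1 ≤ finrank W.K (tateSpan Φ Y j) ∧
    finrank W.K (tateSpan Φ Y j) ≤ cn D.a (D.QQj j) 0 + cn D.a (D.QQj j) (-1) ∧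
    spanCycles W Y j ≤ sp D.b (D.QQj j) := by
  obtain ⟨t1, ht1, h1⟩ := exists_span_eig Φ Y j
  obtain ⟨t2, ht2, h2⟩ := exists_span_eig Φ Y l
  obtain ⟨t3, ht3, h3⟩ := exists_eig_stable Φ Y j
  set t4 := (exists_stable Φ Y j).choose with ht4
  have ht4' : 0 < t4 := (exists_stable Φ Y j).choose_spec.1
  obtain ⟨s, m, hs, hm, ⟨q, hq⟩, R, hT, hT'⟩ := D.exists_s j
    (Nat.mul_pos (Nat.mul_pos (Nat.mul_pos ht1 ht2) ht3) ht4')
  obtain ⟨e, h, H⟩ := D.dat.sl2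
  set μ : W.K := (card Φ Y s : W.K) ^ j with hμ
  have hμ0 : μ ≠ 0 := pow_ne_zero _ (card_ne Φ s)
  have hm0 : (m : W.K) ≠ 0 := Nat.cast_ne_zero.2 hm.ne'
  have L := lead_of_rel D.dat R hm0 hμ0 hT
  set f := (μ⁻¹ • frob Φ Y s - 1 : Module.End W.K (W.H Y)) with hf
  have hQ : {i | D.ty i ∈ D.TT j} = D.QQj j := rfl
  rw [hQ] at L
  -- the eigenvectors
  have hfz : ∀ x, frob Φ Y s x = μ • x ↔ f x = 0 := by
    intro x
    rw [hf, LinearMap.sub_apply, LinearMap.smul_apply, Module.End.one_apply, sub_eq_zero]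
    constructor
    · intro h
      rw [h, smul_smul, inv_mul_cancel₀ hμ0, one_smul]
    · intro h
      conv_rhs => rw [← h]
      rw [smul_smul, mul_inv_cancel₀ hμ0, one_smul]
  have hsub : {θ | D.dg θ = 2 * j} ⊆ {θ | D.dg θ = 2 * j} := subset_rfl
  have hnil : ∀ (n : ℕ) (x : W.H Y), x ∈ W.gr Y (2 * j) → (f ^ n) x = 0 →
      x ∈ sp D.b (D.QQj j) := by
    intro n x hx h0
    exact mem_of_nil D.dat R hμ0 (S := D.TT j) (S' := {θ | D.dg θ = 2 * j})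
      (fun θ h5 h6 h7 => h6 (hT' θ h5 h7)) ((D.gr_eq (2 * j)).1 hx) h0
  have hQg : ∀ x ∈ sp D.b (D.QQj j), x ∈ W.gr Y (2 * j) := by
    intro x hx
    rw [D.gr_eq]
    refine sp_mono D.b ?_ hx
    intro i hi
    exact hi.1
  have heig : eigS Φ Y s j = LinearMap.ker f ⊓ sp D.b (D.QQj j) := by
    ext x
    rw [mem_eigS, hfz x, Submodule.mem_inf, LinearMap.mem_ker]
    constructor
    · rintro ⟨h5, h6⟩
      exact ⟨h5, hnil 1 x h6 (by rwa [pow_one])⟩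
    · rintro ⟨h5, h6⟩
      exact ⟨h5, hQg x h6⟩
  have hgen : genTate Φ Y s j = sp D.b (D.QQj j) := by
    ext x
    rw [mem_genTate]
    constructor
    · rintro ⟨⟨n, hn⟩, hx⟩
      apply hnil n x hx
      rw [f_pow_eq _ hμ0] at hn
      exact (smul_eq_zero.1 hn).resolve_left (pow_ne_zero _ hμ0)
    · intro hx
      obtain ⟨n, hn⟩ := L.nil H
      refine ⟨⟨n, ?_⟩, hQg x hx⟩
      rw [f_pow_eq _ hμ0, hn x hx, smul_zero]
  have hle : spanCycles W Y j ≤ LinearMap.ker f ⊓ sp D.b (D.QQj j) := by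
    rw [← heig]
    intro c hc
    refine mem_eigS.2 ⟨?_, span_gr hc⟩
    have h5 := span_eig_mul Φ (h1 c hc) (t2 * t3 * t4 * q)
    rw [hq, show t1 * t2 * t3 * t4 * q = t1 * (t2 * t3 * t4 * q) by ring]
    exact h5
  have hcl : ∀ c ∈ spanCycles W Y l, frob Φ Y s c = ((card Φ Y s : W.K) ^ l) • c := by
    intro c hc
    have h5 := span_eig_mul Φ (h2 c hc) (t1 * t3 * t4 * q)
    rw [hq, show t1 * t2 * t3 * t4 * q = t2 * (t1 * t3 * t4 * q) by ring]
    exact h5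
  refine ⟨?_, ?_, ?_, ?_, fun c hc => (hle hc).2⟩
  · -- the rank of the intersection form
    have h5 := finrank_le_image H L (spanCycles W Y j) hle
    have h6 := LinearMap.finrank_range_add_finrank_ker (pair W Y j l)
    have h7 : finrank W.K ((spanCycles W Y j : Submodule W.K (W.H Y)) ⊓
        (sp D.b (D.QQj j)).map f : Submodule W.K (W.H Y)) ≤
        finrank W.K (LinearMap.ker (pair W Y j l)) := by
      rw [← Submodule.finrank_map_subtype_eq]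
      apply Submodule.finrank_mono
      rintro x ⟨hx, y, hy, hxy⟩
      refine ⟨⟨x, hx⟩, ?_, rfl⟩
      show pair W Y j l ⟨x, hx⟩ = 0
      apply LinearMap.ext
      rintro ⟨c, hc⟩
      rw [pair_apply]
      show W.tr Y (x * c) = 0
      have hμμ : μ * (card Φ Y s : W.K) ^ l = (card Φ Y s : W.K) ^ Y.dim := by
        rw [hμ, ← pow_add, hjl]
      have h8 := tr_adj Φ (Z := Y) (s := s) hμμ y c
      have h9 : (frob Φ Y s - ((card Φ Y s : W.K) ^ l) • (1 : Module.End W.K (W.H Y))) c = 0 := by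
        rw [LinearMap.sub_apply, LinearMap.smul_apply, Module.End.one_apply, hcl c hc, sub_self]
      rw [h9, mul_zero, map_zero] at h8
      have h10 : W.tr Y ((frob Φ Y s - μ • (1 : Module.End W.K (W.H Y))) y * c) = 0 := by
        have h11 : -(card Φ Y s : W.K) ^ l ≠ 0 := neg_ne_zero.2 (pow_ne_zero _ (card_ne Φ s))
        exact (mul_eq_zero.1 h8.symm).resolve_left h11
      have h12 : (frob Φ Y s - μ • (1 : Module.End W.K (W.H Y))) y = μ • x := by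
        rw [← hxy]
        have := f_pow_eq (frob Φ Y s) hμ0 1 y
        rwa [pow_one, pow_one, pow_one] at this
      rw [h12, smul_mul_assoc, map_smul, smul_eq_mul] at h10
      exact (mul_eq_zero.1 h10).resolve_left hμ0
    have h8 : kRank W Y j l = finrank W.K (LinearMap.range (pair W Y j l)) := rfl
    omega
  · have h5 := genU_eq Φ (Z := Y) (j := j) hs (s := s) ⟨t1 * t2 * t3 * q, by
      rw [hq, ← ht4]; ring⟩
    rw [← h5, hgen, finrank_sp]
  · have h5 := le_finrank_ker H L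
    have h6 := tateSpan_eq h3 (t1 * t2 * t4 * q) (by
      rw [show t3 * (t1 * t2 * t4 * q) = s by rw [hq]; ring]
      exact hs)
    rw [show t3 * (t1 * t2 * t4 * q) = s by rw [hq]; ring] at h6
    rw [h6, heig]
    exact h5
  · have h5 := finrank_ker_le H L
    have h6 := tateSpan_eq h3 (t1 * t2 * t4 * q) (by
      rw [show t3 * (t1 * t2 * t4 * q) = s by rw [hq]; ring]
      exact hs)
    rw [show t3 * (t1 * t2 * t4 * q) = s by rw [hq]; ring] at h6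
    rw [h6, heig]
    exact h5

/-- Unimodality. -/
theorem anti (T : Set D.Θ) {r : ℤ} (hr : 1 ≤ r) :
    cn D.a {i | D.ty i ∈ T} r ≤ cn D.a {i | D.ty i ∈ T} (r - 2) := by
  obtain ⟨e, h, H⟩ := D.dat.sl2
  have L : Lead D.b D.a D.N D.N 1 {i | D.ty i ∈ T} := by
    refine ⟨one_ne_zero, ?_, ?_, ?_⟩
    · intro i hi
      refine sp_mono D.b ?_ (D.dat.N_mem i)
      rintro j ⟨hj, -⟩
      show D.ty j ∈ T
      rw [hj]
      exact hi
    · intro i hi
      refine sp_mono D.b ?_ (D.dat.N_mem i)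
      rintro j ⟨hj, -⟩ h
      have h' : D.ty j ∈ T := h
      rw [hj] at h'
      exact hi h'
    · intro i _
      rw [one_smul, sub_self]
      exact Submodule.zero_mem _
  exact cn_anti H L hr

end FData

end Pool.Agent.K7.H8.TH
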