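import Mathlib
import Pool.Agent.K7.H8.TH.Deg2

/-!
# Sums over all degrees and the main inequalities
-/

set_option autoImplicit false
set_option linter.unusedSectionVars false

open CategoryTheory AlgebraicGeometry

universe u v

namespace Pool.Agent.K7.H8.TH

open Module
open Pool.Agent.H914 Pool.Agent.H914.VarClass Pool.Agent.H914.VarClass.Obj
  Pool.Agent.H914.WeilCohomology Pool.Agent.W534 Pool.Agent.Y133.Half Pool.Agent.Y163
  Pool.Agent.Y163.MW Pool.Agent.W536.RR Pool.Agent.H281R3.HT Pool.Agent.H447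

variable {k : Type u} [Field k] {𝒱 : VarClass k} {ops : CycleOps 𝒱}
  {W : WeilCohomology.{u, v} ops} {p : ℕ}

lemma card_qq {I Θ : Type} [Fintype I] [DecidableEq Θ] (ty : I → Θ) (T : Set Θ) :
    (qq ty T).card = Nat.card {i | ty i ∈ T} := by
  classical
  rw [Nat.card_eq_fintype_card, ← Set.toFinset_card]
  congr 1
  ext i
  simp [qq]

namespace FData

variable {Φ : FrobSystem W p} {t0 : ℕ} {Y : 𝒱.Obj} {G v : ℝ} (D : FData Φ t0 Y G v)

/-- The types of all generalised Tate classes. -/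
def TTu : Set D.Θ := {θ | ∃ j, j ≤ Y.dim ∧ θ ∈ D.TT j}

lemma qq_disj : ((Finset.range (Y.dim + 1) : Finset ℕ) : Set ℕ).PairwiseDisjoint
    (fun j => qq D.ty (D.TT j)) := by
  intro i _ j _ hij
  rw [Function.onFun, Finset.disjoint_left]
  intro x hx hx'
  have h1 : D.dg (D.ty x) = 2 * i := (mem_qq.1 hx).1
  have h2 : D.dg (D.ty x) = 2 * j := (mem_qq.1 hx').1
  omega

lemma qq_union : qq D.ty D.TTu = (Finset.range (Y.dim + 1)).disjiUnion
    (fun j => qq D.ty (D.TT j)) D.qq_disj := by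
  ext x
  rw [mem_qq, Finset.mem_disjiUnion]
  constructor
  · rintro ⟨j, hj, h⟩
    exact ⟨j, Finset.mem_range.2 (by omega), mem_qq.2 h⟩
  · rintro ⟨j, hj, h⟩
    have := Finset.mem_range.1 hj
    exact ⟨j, by omega, mem_qq.1 h⟩

lemma sum_cn (r : ℤ) : (cn D.a {i | D.ty i ∈ D.TTu} r : ℝ) =
    ∑ j ∈ Finset.range (Y.dim + 1), (cn D.a (D.QQj j) r : ℝ) := by
  rw [cn_eq, qq_union, Finset.sum_disjiUnion]
  refine Finset.sum_congr rfl fun j _ => ?_
  rw [← cn_eq]
  rfl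

lemma sum_card : ((qq D.ty D.TTu).card : ℝ) =
    ∑ j ∈ Finset.range (Y.dim + 1), (finrank W.K (genU Φ Y j) : ℝ) := by
  rw [qq_union, Finset.card_disjiUnion]
  push_cast
  refine Finset.sum_congr rfl fun j hj => ?_
  obtain ⟨l, hl⟩ := Nat.exists_eq_add_of_le (Nat.lt_succ_iff.1 (Finset.mem_range.1 hj))
  rw [(D.one_degree hl.symm).2.1, card_qq]
  rfl

/-- The main properties of the sums. -/
theorem sums : ((∑ j ∈ Finset.range (Y.dim + 1), (numRank ops Y j : ℝ)) ≤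
      (cn D.a {i | D.ty i ∈ D.TTu} 0 : ℝ) - cn D.a {i | D.ty i ∈ D.TTu} (-2)) ∧
    ((cn D.a {i | D.ty i ∈ D.TTu} 0 : ℝ) + cn D.a {i | D.ty i ∈ D.TTu} 1 ≤
      ∑ j ∈ Finset.range (Y.dim + 1), (finrank W.K (tateSpan Φ Y j) : ℝ)) ∧
    ((∑ j ∈ Finset.range (Y.dim + 1), (finrank W.K (tateSpan Φ Y j) : ℝ)) ≤
      (cn D.a {i | D.ty i ∈ D.TTu} 0 : ℝ) + cn D.a {i | D.ty i ∈ D.TTu} (-1)) := by
  rw [sum_cn, sum_cn, sum_cn, sum_cn, ← Finset.sum_sub_distrib, ← Finset.sum_add_distrib,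
    ← Finset.sum_add_distrib]
  have key : ∀ j ∈ Finset.range (Y.dim + 1), ∃ l, j + l = Y.dim := by
    intro j hj
    obtain ⟨l, hl⟩ := Nat.exists_eq_add_of_le (Nat.lt_succ_iff.1 (Finset.mem_range.1 hj))
    exact ⟨l, hl.symm⟩
  refine ⟨Finset.sum_le_sum fun j hj => ?_, Finset.sum_le_sum fun j hj => ?_,
    Finset.sum_le_sum fun j hj => ?_⟩
  · obtain ⟨l, hl⟩ := key j hj
    have h1 := (D.one_degree hl).1
    rw [numRank_eq (W := W) (by omega), show Y.dim - j = l by omega]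
    have h2 : (kRank W Y j l : ℝ) + cn D.a (D.QQj j) (-2) ≤ cn D.a (D.QQj j) 0 := by
      exact_mod_cast h1
    linarith
  · obtain ⟨l, hl⟩ := key j hj
    exact_mod_cast (D.one_degree hl).2.2.1
  · obtain ⟨l, hl⟩ := key j hj
    exact_mod_cast (D.one_degree hl).2.2.2.1

lemma algSpan_le : algSpan W Y ≤ sp D.b {i | D.ty i ∈ D.TTu} := by
  intro c hc
  refine algSpan_induction (p := fun c => c ∈ sp D.b {i | D.ty i ∈ D.TTu}) ?_ ?_ ?_ ?_ hc
  · exact Submodule.zero_mem _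
  · intro a b ha hb; exact Submodule.add_mem _ ha hb
  · intro t a ha; exact Submodule.smul_mem _ _ ha
  · intro j z hz
    by_cases hj : j ≤ Y.dim
    · obtain ⟨l, hl⟩ := Nat.exists_eq_add_of_le hj
      refine sp_mono D.b ?_ ((D.one_degree hl.symm).2.2.2.2 (mem_span_cl hz))
      intro i hi
      exact ⟨j, hj, hi⟩
    · have h1 := W.cl_mem hz
      rw [W.gr_eq_bot Y _ (by omega), Submodule.mem_bot] at h1
      rw [h1]
      exact Submodule.zero_mem _

lemma finrank_algSpan_le : finrank W.K (algSpan W Y) ≤ (qq D.ty D.TTu).card := by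
  rw [card_qq, ← finrank_sp D.b]
  have : Module.Finite W.K (W.H Y) := Module.Finite.of_basis D.b
  exact Submodule.finrank_mono D.algSpan_le

end FData

/-! ### Growth of the algebraic classes -/

section growth

variable {X : 𝒱.Obj}

lemma one_ne (hX : 0 < finrank W.K (W.H X)) : (1 : W.H X) ≠ 0 := by
  intro h
  have h1 : ∀ x : W.H X, x = 0 := fun x => by rw [← one_mul x, h, zero_mul]
  have h2 : finrank W.K (W.H X) = 0 := by
    have : Subsingleton (W.H X) := ⟨fun x y => by rw [h1 x, h1 y]⟩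
    exact Module.finrank_zero_of_subsingleton
  omega

lemma alg_growth (hX : 0 < finrank W.K (W.H X)) (n : ℕ) :
    finrank W.K (W.H X) ^ (n + 1) ≤ finrank W.K (algSpan W (Y133.Half.pw X n)) *
      (n + 3) ^ (finrank W.K (W.H X) ^ 2 + finrank W.K (W.H X)) := by
  set b := finrank W.K (W.H X) with hb
  have hb1 : b ≤ 3 ^ b := (Nat.lt_pow_self (by norm_num)).le
  have hone := one_ne hX
  -- odd indices
  have hodd : ∀ m : ℕ, b ^ (2 * m + 2) ≤
      finrank W.K (algSpan W (Y133.Half.pw X (2 * m + 1))) * (m + 2) ^ (b ^ 2) := by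
    intro m
    have h1 := (algSys W).growth X m
    have h2 := (algSys W).finrank_C_iso (pwAdd X m m)
    rw [h2, show m + m + 1 = 2 * m + 1 by ring] at h1
    rw [show 2 * m + 2 = 2 * (m + 1) by ring]
    exact h1
  rcases Nat.even_or_odd' n with ⟨m, rfl | rfl⟩
  · rcases m with _ | m
    · have h1 : 1 ≤ finrank W.K (algSpan W (Y133.Half.pw X (2 * 0))) := by
        rw [Nat.one_le_iff_ne_zero]
        intro h
        have h2 := Submodule.finrank_eq_zero.1 h
        have h3 : (1 : W.H X) ∈ algSpan W X := one_mem_algSpan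
        have h4 : (1 : W.H X) ∈ (⊥ : Submodule W.K (W.H X)) := h2 ▸ h3
        exact hone ((Submodule.mem_bot _).1 h4)
      calc b ^ (2 * 0 + 1) = b := by ring
        _ ≤ 3 ^ b := hb1
        _ ≤ 3 ^ (b ^ 2 + b) := Nat.pow_le_pow_right (by norm_num) (by omega)
        _ = 1 * (2 * 0 + 3) ^ (b ^ 2 + b) := by ring
        _ ≤ _ := Nat.mul_le_mul_right _ h1
    · -- pull-back to the next power
      have hinj : Function.Injective (W.map (pfst X (2 * m + 1))) := by
        intro x y hxy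
        have h1 : xp W (x - y) (1 : W.H X) = 0 := by
          show W.map (fst _ _) (x - y) * W.map (snd _ _) 1 = 0
          rw [map_one, mul_one, map_sub, sub_eq_zero]
          exact hxy
        exact sub_eq_zero.1 (xp_eq_zero_right hone h1)
      have h2 := (algSys W).finrank_C_le (pfst X (2 * m + 1)) hinj
      have h2' : finrank W.K (algSpan W (Y133.Half.pw X (2 * m + 1))) ≤
          finrank W.K (algSpan W (Y133.Half.pw X (2 * (m + 1)))) := h2
      calc b ^ (2 * (m + 1) + 1) = b ^ (2 * m + 2) * b := by ring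
        _ ≤ (finrank W.K (algSpan W (Y133.Half.pw X (2 * m + 1))) * (m + 2) ^ (b ^ 2)) * b :=
            Nat.mul_le_mul_right _ (hodd m)
        _ ≤ (finrank W.K (algSpan W (Y133.Half.pw X (2 * (m + 1)))) *
            (2 * (m + 1) + 3) ^ (b ^ 2)) * (2 * (m + 1) + 3) ^ b := by
            refine Nat.mul_le_mul (Nat.mul_le_mul h2' (Nat.pow_le_pow_left (by omega) _))
              (hb1.trans (Nat.pow_le_pow_left (by omega) _))
        _ = _ := by rw [pow_add]; ring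
  · calc b ^ (2 * m + 1 + 1) ≤
        finrank W.K (algSpan W (Y133.Half.pw X (2 * m + 1))) * (m + 2) ^ (b ^ 2) := hodd m
      _ ≤ finrank W.K (algSpan W (Y133.Half.pw X (2 * m + 1))) *
          (2 * m + 1 + 3) ^ (b ^ 2 + b) := by
        refine Nat.mul_le_mul_left _ ((Nat.pow_le_pow_left (by omega) _).trans
          (Nat.pow_le_pow_right (by omega) (by omega)))

end growth

/-! ### The main inequalities -/

lemma numRank_le_genU {Φ : FrobSystem W p} {Y : 𝒱.Obj} {j : ℕ} (hj : j ≤ Y.dim) :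
    numRank ops Y j ≤ finrank W.K (genU Φ Y j) := by
  rw [numRank_eq (W := W) hj]
  exact (kRank_le _ _).trans (Submodule.finrank_mono (span_le_genU Φ Y j))

/-- **The main theorem for the sums.** -/
theorem main_sums_pos [IsAlgClosed W.K] (Φ : FrobSystem W p) (X : 𝒱.Obj) :
    FrobSemisimple Φ X ∨ ∃ c C : ℝ, 0 < c ∧ 0 < C ∧ ∀ n : ℕ,
      0 < (∑ j ∈ Finset.range ((Y133.Half.pw X n).dim + 1),
          finrank W.K (genU Φ (Y133.Half.pw X n) j)) ∧
      (∑ j ∈ Finset.range ((Y133.Half.pw X n).dim + 1),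
        (numRank ops (Y133.Half.pw X n) j : ℝ)) * ((n + 1 : ℝ) * √(n + 1 : ℝ)) ≤
        C * ∑ j ∈ Finset.range ((Y133.Half.pw X n).dim + 1),
          (finrank W.K (genU Φ (Y133.Half.pw X n) j) : ℝ) ∧
      (∑ j ∈ Finset.range ((Y133.Half.pw X n).dim + 1),
        (numRank ops (Y133.Half.pw X n) j : ℝ)) * (n + 1 : ℝ) ≤
        C * ∑ j ∈ Finset.range ((Y133.Half.pw X n).dim + 1),
          (finrank W.K (tateSpan Φ (Y133.Half.pw X n) j) : ℝ) ∧
      c * ∑ j ∈ Finset.range ((Y133.Half.pw X n).dim + 1),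
          (finrank W.K (genU Φ (Y133.Half.pw X n) j) : ℝ) ≤
        (∑ j ∈ Finset.range ((Y133.Half.pw X n).dim + 1),
          (finrank W.K (tateSpan Φ (Y133.Half.pw X n) j) : ℝ)) * √(n + 1 : ℝ) ∧
      (∑ j ∈ Finset.range ((Y133.Half.pw X n).dim + 1),
          (finrank W.K (tateSpan Φ (Y133.Half.pw X n) j) : ℝ)) * √(n + 1 : ℝ) ≤
        C * ∑ j ∈ Finset.range ((Y133.Half.pw X n).dim + 1),
          (finrank W.K (genU Φ (Y133.Half.pw X n) j) : ℝ) := by
  rcases exists_base Φ X with h | ⟨G, v, hG, hGb, hv, ⟨D0⟩⟩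
  · exact Or.inl h
  right
  have hX : 0 < finrank W.K (W.H X) := by
    have : (0 : ℝ) < finrank W.K (W.H X) := hG.trans hGb
    exact_mod_cast this
  obtain ⟨C, hC, hCu⟩ := upper (finrank W.K (W.H X) : ℝ) G hG hGb
    (finrank W.K (W.H X) ^ 2 + finrank W.K (W.H X))
  set A : ℝ := 4 * √(2 * v) + 6 with hA
  have hA0 : 0 < A := by positivity
  refine ⟨1 / A, C * A + C, by positivity, by positivity, fun n => ?_⟩
  obtain ⟨D⟩ := exists_pw D0 n
  have hn : (0 : ℝ) < (n + 1 : ℝ) := by positivity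
  have hsn : 0 < √(n + 1 : ℝ) := Real.sqrt_pos.2 hn
  have hsn1 : 1 ≤ √(n + 1 : ℝ) := by
    rw [Real.one_le_sqrt]
    have : (0 : ℝ) ≤ n := Nat.cast_nonneg n
    linarith
  have hss : √(n + 1 : ℝ) * √(n + 1 : ℝ) = (n + 1 : ℝ) := Real.mul_self_sqrt hn.le
  have hgrow : (finrank W.K (W.H X) : ℝ) ^ (n + 1) ≤ ((qq D.ty D.TTu).card : ℝ) *
      (((n + 1 : ℕ) : ℝ) + 2) ^ (finrank W.K (W.H X) ^ 2 + finrank W.K (W.H X)) := by
    have h1 := alg_growth (W := W) hX n
    have h2 : ((finrank W.K (W.H X) ^ (n + 1) : ℕ) : ℝ) ≤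
        ((finrank W.K (algSpan W (Y133.Half.pw X n)) *
          (n + 3) ^ (finrank W.K (W.H X) ^ 2 + finrank W.K (W.H X)) : ℕ) : ℝ) := by
      exact_mod_cast h1
    push_cast at h2
    have h3 : (finrank W.K (algSpan W (Y133.Half.pw X n)) : ℝ) ≤ (qq D.ty D.TTu).card := by
      exact_mod_cast D.finrank_algSpan_le
    have h4 : (((n + 1 : ℕ) : ℝ) + 2) = (n : ℝ) + 3 := by push_cast; ring
    rw [h4]
    exact h2.trans (mul_le_mul_of_nonneg_right h3 (by positivity))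
  obtain ⟨hu1, hu2⟩ := hCu (n + 1) (Nat.succ_pos n) D.I D.Θ D.a D.ty D.kk _ D.TTu D.wts
    (le_of_eq D.sum) hgrow
  have hlow := lower (v := ((n + 1 : ℕ) : ℝ) * v) (by positivity) D.wts D.TTu
    (fun r hr => D.anti D.TTu hr)
  obtain ⟨hs1, hs2, hs3⟩ := D.sums
  rw [D.sum_card] at hu1 hu2 hlow
  set R := ∑ j ∈ Finset.range ((Y133.Half.pw X n).dim + 1),
    (numRank ops (Y133.Half.pw X n) j : ℝ) with hR
  set Z := ∑ j ∈ Finset.range ((Y133.Half.pw X n).dim + 1),
    (finrank W.K (genU Φ (Y133.Half.pw X n) j) : ℝ) with hZ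
  set T := ∑ j ∈ Finset.range ((Y133.Half.pw X n).dim + 1),
    (finrank W.K (tateSpan Φ (Y133.Half.pw X n) j) : ℝ) with hT
  have hZ0 : 0 ≤ Z := Finset.sum_nonneg fun _ _ => Nat.cast_nonneg _
  have hT0 : 0 ≤ T := Finset.sum_nonneg fun _ _ => Nat.cast_nonneg _
  push_cast at hu1 hu2 hlow
  -- the lower bound
  have hA' : 4 * √(2 * ((n + 1 : ℝ) * v)) + 6 ≤ A * √(n + 1 : ℝ) := by
    have e1 : √(2 * ((n + 1 : ℝ) * v)) = √(n + 1 : ℝ) * √(2 * v) := by
      rw [← Real.sqrt_mul hn.le]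
      congr 1
      ring
    rw [e1, hA]
    nlinarith [Real.sqrt_nonneg (2 * v)]
  have hZT : Z ≤ A * (T * √(n + 1 : ℝ)) := by
    have h5 := mul_le_mul_of_nonneg_left hs2
      (show 0 ≤ 4 * √(2 * ((n + 1 : ℝ) * v)) + 6 by positivity)
    have h6 := mul_le_mul_of_nonneg_right hA' hT0
    calc Z ≤ _ := hlow
      _ ≤ _ := h5
      _ ≤ _ := h6
      _ = _ := by ring
  have h1 : R * ((n + 1 : ℝ) * √(n + 1 : ℝ)) ≤ C * Z :=
    (mul_le_mul_of_nonneg_right hs1 (by positivity)).trans hu1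
  have h4 : T * √(n + 1 : ℝ) ≤ C * Z :=
    (mul_le_mul_of_nonneg_right hs3 hsn.le).trans hu2
  refine ⟨?_, ?_, ?_, ?_, ?_⟩
  · have h5 : (0 : ℝ) < Z := by
      have hb0 : (0 : ℝ) < (finrank W.K (W.H X) : ℝ) ^ (n + 1) :=
        pow_pos (hG.trans hGb) _
      have h6 := lt_of_lt_of_le hb0 hgrow
      rw [D.sum_card] at h6
      exact pos_of_mul_pos_left h6 (by positivity)
    have h7 : Z = ((∑ j ∈ Finset.range ((Y133.Half.pw X n).dim + 1),
        finrank W.K (genU Φ (Y133.Half.pw X n) j) : ℕ) : ℝ) := by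
      rw [hZ]
      push_cast
      rfl
    rw [h7] at h5
    exact_mod_cast h5
  · refine h1.trans (mul_le_mul_of_nonneg_right ?_ hZ0)
    have := mul_pos hC hA0
    linarith
  · have h2 : (R * (n + 1 : ℝ)) * √(n + 1 : ℝ) ≤ (C * A * T) * √(n + 1 : ℝ) := by
      calc (R * (n + 1 : ℝ)) * √(n + 1 : ℝ) = R * ((n + 1 : ℝ) * √(n + 1 : ℝ)) := by ring
        _ ≤ C * Z := h1
        _ ≤ C * (A * (T * √(n + 1 : ℝ))) := mul_le_mul_of_nonneg_left hZT hC.le
        _ = _ := by ring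
    have h3 := le_of_mul_le_mul_right h2 hsn
    refine h3.trans (mul_le_mul_of_nonneg_right ?_ hT0)
    linarith
  · rw [one_div, inv_mul_le_iff₀ hA0]
    exact hZT
  · refine h4.trans (mul_le_mul_of_nonneg_right ?_ hZ0)
    have := mul_pos hC hA0
    linarith

/-- **The main theorem for the sums.** -/
theorem main_sums [IsAlgClosed W.K] (Φ : FrobSystem W p) (X : 𝒱.Obj) :
    FrobSemisimple Φ X ∨ ∃ c C : ℝ, 0 < c ∧ 0 < C ∧ ∀ n : ℕ,
      (∑ j ∈ Finset.range ((Y133.Half.pw X n).dim + 1),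
        (numRank ops (Y133.Half.pw X n) j : ℝ)) * ((n + 1 : ℝ) * √(n + 1 : ℝ)) ≤
        C * ∑ j ∈ Finset.range ((Y133.Half.pw X n).dim + 1),
          (finrank W.K (genU Φ (Y133.Half.pw X n) j) : ℝ) := by
  rcases main_sums_pos Φ X with h | ⟨c, C, hc, hC, h⟩
  · exact Or.inl h
  · exact Or.inr ⟨c, C, hc, hC, fun n => (h n).2.1⟩

end Pool.Agent.K7.H8.TH
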