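import Mathlib
import Pool.Agent.K7.H8.TH.Sum

/-!
# Single degrees and the central degree
-/

set_option autoImplicit false
set_option linter.unusedSectionVars false

open CategoryTheory AlgebraicGeometry

universe u v

namespace Pool.Agent.K7.H8.TH

open Module
open Pool.Agent.H914 Pool.Agent.H914.VarClass Pool.Agent.H914.VarClass.Obj
  Pool.Agent.H914.WeilCohomology Pool.Agent.W534 Pool.Agent.Y133.Half Pool.Agent.Y163
  Pool.Agent.Y163.MW Pool.Agent.W536.RR Pool.Agent.H281R3.HT Pool.Agent.H447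

variable {k : Type u} [Field k] {𝒱 : VarClass k} {ops : CycleOps 𝒱}
  {W : WeilCohomology.{u, v} ops} {p : ℕ}

/-- The inequalities in one degree. -/
theorem deg_bound {Φ : FrobSystem W p} {t0 : ℕ} {b G v : ℝ} (hG : 0 < G) (hGb : G < b)
    (hv : 0 < v) (M : ℕ) :
    ∃ c C : ℝ, 0 < c ∧ 0 < C ∧ ∀ (m : ℕ), 0 < m → ∀ (Y : 𝒱.Obj),
      Nonempty (FData Φ t0 Y (G ^ m) ((m : ℝ) * v)) → ∀ j, j ≤ Y.dim →
      c * (finrank W.K (genU Φ Y j) : ℝ) ≤ (finrank W.K (tateSpan Φ Y j) : ℝ) * √(m : ℝ) ∧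
      (b ^ m ≤ (finrank W.K (genU Φ Y j) : ℝ) * ((m : ℝ) + 2) ^ M →
        (numRank ops Y j : ℝ) * ((m : ℝ) * √(m : ℝ)) ≤ C * (finrank W.K (genU Φ Y j) : ℝ) ∧
        (numRank ops Y j : ℝ) * (m : ℝ) ≤ C * (finrank W.K (tateSpan Φ Y j) : ℝ) ∧
        (finrank W.K (tateSpan Φ Y j) : ℝ) * √(m : ℝ) ≤ C * (finrank W.K (genU Φ Y j) : ℝ)) := by
  obtain ⟨C, hC, hCu⟩ := upper b G hG hGb M
  set A : ℝ := 4 * √(2 * v) + 6 with hA
  have hA0 : 0 < A := by positivity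
  refine ⟨1 / A, C * A + C, by positivity, by positivity, ?_⟩
  rintro m hm Y ⟨D⟩ j hj
  obtain ⟨l, hl⟩ := Nat.exists_eq_add_of_le hj
  obtain ⟨h1, h2, h3, h4, -⟩ := D.one_degree hl.symm
  have hn : (0 : ℝ) < (m : ℝ) := by exact_mod_cast hm
  have hsn : 0 < √(m : ℝ) := Real.sqrt_pos.2 hn
  have hsn1 : 1 ≤ √(m : ℝ) := by
    rw [Real.one_le_sqrt]
    exact_mod_cast hm
  have hlow := lower (v := (m : ℝ) * v) (by positivity) D.wts (D.TT j)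
    (fun r hr => D.anti (D.TT j) hr)
  have hcard : ((qq D.ty (D.TT j)).card : ℝ) = (finrank W.K (genU Φ Y j) : ℝ) := by
    rw [h2, card_qq]
    rfl
  have hQ : {i | D.ty i ∈ D.TT j} = D.QQj j := rfl
  rw [hQ] at hlow
  rw [hcard] at hlow
  set Z : ℝ := (finrank W.K (genU Φ Y j) : ℝ) with hZ
  set T : ℝ := (finrank W.K (tateSpan Φ Y j) : ℝ) with hT
  have hZ0 : 0 ≤ Z := Nat.cast_nonneg _
  have hT0 : 0 ≤ T := Nat.cast_nonneg _
  have h3' : (cn D.a (D.QQj j) 0 : ℝ) + cn D.a (D.QQj j) 1 ≤ T := by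
    rw [hT]
    exact_mod_cast h3
  have h4' : T ≤ (cn D.a (D.QQj j) 0 : ℝ) + cn D.a (D.QQj j) (-1) := by
    rw [hT]
    exact_mod_cast h4
  have h1' : (numRank ops Y j : ℝ) ≤ (cn D.a (D.QQj j) 0 : ℝ) - cn D.a (D.QQj j) (-2) := by
    rw [numRank_eq (W := W) hj, show Y.dim - j = l by omega]
    have h5 : (kRank W Y j l : ℝ) + cn D.a (D.QQj j) (-2) ≤ cn D.a (D.QQj j) 0 := by
      exact_mod_cast h1
    linarith
  have hA' : 4 * √(2 * ((m : ℝ) * v)) + 6 ≤ A * √(m : ℝ) := by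
    have e1 : √(2 * ((m : ℝ) * v)) = √(m : ℝ) * √(2 * v) := by
      rw [← Real.sqrt_mul hn.le]
      congr 1
      ring
    rw [e1, hA]
    nlinarith [Real.sqrt_nonneg (2 * v)]
  have hZT : Z ≤ A * (T * √(m : ℝ)) := by
    have h5 := mul_le_mul_of_nonneg_left h3'
      (show 0 ≤ 4 * √(2 * ((m : ℝ) * v)) + 6 by positivity)
    have h6 := mul_le_mul_of_nonneg_right hA' hT0
    calc Z ≤ _ := hlow
      _ ≤ _ := h5
      _ ≤ _ := h6
      _ = _ := by ring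
  refine ⟨?_, fun hgrow => ?_⟩
  · rw [one_div, inv_mul_le_iff₀ hA0]
    exact hZT
  obtain ⟨hu1, hu2⟩ := hCu m hm D.I D.Θ D.a D.ty D.kk _ (D.TT j) D.wts
    (le_of_eq D.sum) (by rw [hcard]; exact hgrow)
  rw [hcard, hQ] at hu1 hu2
  set R : ℝ := (numRank ops Y j : ℝ) with hR
  have h5 : R * ((m : ℝ) * √(m : ℝ)) ≤ C * Z :=
    (mul_le_mul_of_nonneg_right h1' (by positivity)).trans hu1
  have h6 : T * √(m : ℝ) ≤ C * Z :=
    (mul_le_mul_of_nonneg_right h4' hsn.le).trans hu2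
  have hCA := mul_pos hC hA0
  refine ⟨?_, ?_, ?_⟩
  · refine h5.trans (mul_le_mul_of_nonneg_right ?_ hZ0)
    linarith
  · have h7 : (R * (m : ℝ)) * √(m : ℝ) ≤ (C * A * T) * √(m : ℝ) := by
      calc (R * (m : ℝ)) * √(m : ℝ) = R * ((m : ℝ) * √(m : ℝ)) := by ring
        _ ≤ C * Z := h5
        _ ≤ C * (A * (T * √(m : ℝ))) := mul_le_mul_of_nonneg_left hZT hC.le
        _ = _ := by ring
    have h8 := le_of_mul_le_mul_right h7 hsn
    refine h8.trans (mul_le_mul_of_nonneg_right ?_ hT0)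
    linarith
  · refine h6.trans (mul_le_mul_of_nonneg_right ?_ hZ0)
    linarith

/-- The data for the powers with the factors in the other order. -/
theorem exists_pw' {Φ : FrobSystem W p} {t0 : ℕ} {X : 𝒱.Obj} {G v : ℝ} (D : FData Φ t0 X G v)
    (n : ℕ) : Nonempty (FData Φ t0 (Y163.pw X n) (G ^ (n + 1)) ((n + 1 : ℕ) * v)) := by
  induction n with
  | zero =>
    rw [zero_add, pow_one, Nat.cast_one, one_mul]
    exact ⟨D⟩
  | succ n ih =>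
    obtain ⟨E⟩ := ih
    have h := FData.prod D E
    rw [← pow_succ'] at h
    have e : v + ((n + 1 : ℕ) : ℝ) * v = ((n + 1 + 1 : ℕ) : ℝ) * v := by push_cast; ring
    rw [e] at h
    exact h

theorem exists_sq {Φ : FrobSystem W p} {t0 : ℕ} {X : 𝒱.Obj} {G v : ℝ} (D : FData Φ t0 X G v)
    (n : ℕ) : Nonempty (FData Φ t0 (sq X n) (G ^ (2 * n + 2)) (((2 * n + 2 : ℕ) : ℝ) * v)) := by
  obtain ⟨E⟩ := exists_pw' D n
  have h := FData.prod E E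
  have e1 : G ^ (n + 1) * G ^ (n + 1) = G ^ (2 * n + 2) := by ring
  have e2 : ((n + 1 : ℕ) : ℝ) * v + ((n + 1 : ℕ) : ℝ) * v = ((2 * n + 2 : ℕ) : ℝ) * v := by
    push_cast; ring
  rw [e1, e2] at h
  exact h

/-- **All degrees.** -/
theorem main_all [IsAlgClosed W.K] (Φ : FrobSystem W p) (X : 𝒱.Obj) :
    FrobSemisimple Φ X ∨ ∀ M : ℕ, ∃ c C : ℝ, 0 < c ∧ 0 < C ∧ ∀ n j : ℕ,
      j ≤ (Y133.Half.pw X n).dim →
      c * (finrank W.K (genU Φ (Y133.Half.pw X n) j) : ℝ) ≤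
        (finrank W.K (tateSpan Φ (Y133.Half.pw X n) j) : ℝ) * √((n + 1 : ℕ) : ℝ) ∧
      ((finrank W.K (W.H X) : ℝ) ^ (n + 1) ≤
          (finrank W.K (genU Φ (Y133.Half.pw X n) j) : ℝ) * (((n + 1 : ℕ) : ℝ) + 2) ^ M →
        (numRank ops (Y133.Half.pw X n) j : ℝ) * (((n + 1 : ℕ) : ℝ) * √((n + 1 : ℕ) : ℝ)) ≤
          C * (finrank W.K (genU Φ (Y133.Half.pw X n) j) : ℝ) ∧
        (numRank ops (Y133.Half.pw X n) j : ℝ) * ((n + 1 : ℕ) : ℝ) ≤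
          C * (finrank W.K (tateSpan Φ (Y133.Half.pw X n) j) : ℝ) ∧
        (finrank W.K (tateSpan Φ (Y133.Half.pw X n) j) : ℝ) * √((n + 1 : ℕ) : ℝ) ≤
          C * (finrank W.K (genU Φ (Y133.Half.pw X n) j) : ℝ)) := by
  rcases exists_base Φ X with h | ⟨G, v, hG, hGb, hv, ⟨D0⟩⟩
  · exact Or.inl h
  right
  intro M
  obtain ⟨c, C, hc, hC, h⟩ := deg_bound (W := W) (Φ := Φ) (t0 := Φ.e X) hG hGb hv M
  exact ⟨c, C, hc, hC, fun n j hj => h (n + 1) (Nat.succ_pos n) _ (exists_pw D0 n) j hj⟩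

/-- **The central degree of the even powers.** -/
theorem main_central [IsAlgClosed W.K] (Φ : FrobSystem W p) (X : 𝒱.Obj)
    (hX : par (W.isInternal X) ∈ KOp W X X 0) :
    FrobSemisimple Φ X ∨ ∃ c C : ℝ, 0 < c ∧ 0 < C ∧ ∀ n : ℕ,
      (numRank ops (sq X n) ((n + 1) * X.dim) : ℝ) * ((n + 1 : ℝ) * √(n + 1 : ℝ)) ≤
        C * (finrank W.K (genU Φ (sq X n) ((n + 1) * X.dim)) : ℝ) ∧
      (numRank ops (sq X n) ((n + 1) * X.dim) : ℝ) * (n + 1 : ℝ) ≤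
        C * (finrank W.K (tateSpan Φ (sq X n) ((n + 1) * X.dim)) : ℝ) ∧
      c * (finrank W.K (genU Φ (sq X n) ((n + 1) * X.dim)) : ℝ) ≤
        (finrank W.K (tateSpan Φ (sq X n) ((n + 1) * X.dim)) : ℝ) * √(n + 1 : ℝ) ∧
      (finrank W.K (tateSpan Φ (sq X n) ((n + 1) * X.dim)) : ℝ) * √(n + 1 : ℝ) ≤
        C * (finrank W.K (genU Φ (sq X n) ((n + 1) * X.dim)) : ℝ) := by
  rcases exists_base Φ X with h | ⟨G, v, hG, hGb, hv, ⟨D0⟩⟩
  · exact Or.inl h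
  right
  obtain ⟨c, C, hc, hC, h⟩ := deg_bound (W := W) (Φ := Φ) (t0 := Φ.e X) hG hGb hv
    (finrank W.K (W.H X) ^ 2)
  have h2 : (0 : ℝ) < √2 := by positivity
  refine ⟨c / √2, C, by positivity, hC, fun n => ?_⟩
  have hdim := dim_sq X n
  have hj : (n + 1) * X.dim ≤ (sq X n).dim := by rw [hdim]; omega
  obtain ⟨h3, h4⟩ := h (2 * n + 2) (by omega) _ (exists_sq D0 n) ((n + 1) * X.dim) hj
  have hgr := mrank_growth (W := W) (X := X) hX n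
  have hnr : numRank ops (sq X n) ((n + 1) * X.dim) = mrank W X n := numRank_sq X n
  have hle := numRank_le_genU (W := W) (Φ := Φ) hj
  rw [hnr] at hle
  have hgrow : (finrank W.K (W.H X) : ℝ) ^ (2 * n + 2) ≤
      (finrank W.K (genU Φ (sq X n) ((n + 1) * X.dim)) : ℝ) *
        (((2 * n + 2 : ℕ) : ℝ) + 2) ^ (finrank W.K (W.H X) ^ 2) := by
    have h5 : (finrank W.K (W.H X)) ^ (2 * n + 2) ≤
        finrank W.K (genU Φ (sq X n) ((n + 1) * X.dim)) *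
        (2 * n + 2 + 2) ^ (finrank W.K (W.H X) ^ 2) := by
      calc (finrank W.K (W.H X)) ^ (2 * n + 2) = (finrank W.K (W.H X) ^ 2) ^ (n + 1) := by
            rw [← pow_mul]; congr 1
        _ ≤ _ := hgr
        _ ≤ _ := Nat.mul_le_mul hle (Nat.pow_le_pow_left (by omega) _)
    exact_mod_cast h5
  obtain ⟨h5, h6, h7⟩ := h4 hgrow
  have hn1 : (0 : ℝ) < (n + 1 : ℝ) := by positivity
  have e1 : ((2 * n + 2 : ℕ) : ℝ) = 2 * (n + 1 : ℝ) := by push_cast; ring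
  have e2 : √((2 * n + 2 : ℕ) : ℝ) = √2 * √(n + 1 : ℝ) := by
    rw [e1, Real.sqrt_mul (by norm_num)]
  have hs2 : (1 : ℝ) ≤ √2 := by
    rw [Real.one_le_sqrt]; norm_num
  have hle1 : (n + 1 : ℝ) ≤ ((2 * n + 2 : ℕ) : ℝ) := by rw [e1]; linarith
  have hle2 : √(n + 1 : ℝ) ≤ √((2 * n + 2 : ℕ) : ℝ) := Real.sqrt_le_sqrt hle1
  refine ⟨?_, ?_, ?_, ?_⟩
  · refine le_trans (mul_le_mul_of_nonneg_left ?_ (Nat.cast_nonneg _)) h5
    exact mul_le_mul hle1 hle2 (Real.sqrt_nonneg _) (Nat.cast_nonneg _)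
  · exact le_trans (mul_le_mul_of_nonneg_left hle1 (Nat.cast_nonneg _)) h6
  · rw [div_mul_eq_mul_div, div_le_iff₀ h2]
    calc _ ≤ _ := h3
      _ = _ := by rw [e2]; ring
  · exact le_trans (mul_le_mul_of_nonneg_left hle2 (Nat.cast_nonneg _)) h7

end Pool.Agent.K7.H8.TH
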