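import Mathlib
import Pool.Agent.K7.H8.TH.Fin

/-!
# Final forms
-/

set_option autoImplicit false
set_option linter.unusedSectionVars false

open CategoryTheory AlgebraicGeometry

universe u v

namespace Pool.Agent.K7.H8.TH

open Module
open Pool.Agent.H914 Pool.Agent.H914.VarClass Pool.Agent.H914.VarClass.Obj
  Pool.Agent.H914.WeilCohomology Pool.Agent.W534 Pool.Agent.Y133.Half Pool.Agent.Y163
  Pool.Agent.Y163.MW Pool.Agent.W536.RR Pool.Agent.H281R3.HT Pool.Agent.H447

section lin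

variable {K : Type u} [Field K] [CharZero K] {V : Type v} [AddCommGroup V] [Module K V]

lemma pow_apply_of {F : Module.End K V} {μ : K} {c d : V} (h1 : F c = μ • c + d)
    (h2 : F d = μ • d) (m : ℕ) : (F ^ (m + 1)) c = μ ^ (m + 1) • c + ((m + 1 : ℕ) * μ ^ m) • d := by
  induction m with
  | zero => simp [h1]
  | succ m ih =>
    rw [pow_succ', Module.End.mul_apply, ih, map_add, map_smul, map_smul, h1, h2]
    push_cast
    module

lemma eig_of_pow {F : Module.End K V} {μ : K} (hμ : μ ≠ 0) {m : ℕ} (hm : 0 < m) {N : ℕ} :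
    ∀ {c : V}, (F ^ m) c = μ ^ m • c → ((F - μ • (1 : Module.End K V)) ^ N) c = 0 →
      F c = μ • c := by
  obtain ⟨m, rfl⟩ : ∃ m', m = m' + 1 := ⟨m - 1, by omega⟩
  induction N with
  | zero =>
    intro c _ h
    rw [pow_zero, Module.End.one_apply] at h
    rw [h, map_zero, smul_zero]
  | succ N ih =>
    intro c h1 h2
    set d := (F - μ • (1 : Module.End K V)) c with hd
    have hc : F c = μ • c + d := by
      rw [hd, LinearMap.sub_apply, LinearMap.smul_apply, Module.End.one_apply]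
      abel
    have h3 : (F ^ (m + 1)) d = μ ^ (m + 1) • d := by
      have hcomm : Commute (F ^ (m + 1)) (F - μ • (1 : Module.End K V)) :=
        ((Commute.refl F).sub_right ((Commute.one_right F).smul_right μ)).pow_left _
      rw [hd, ← Module.End.mul_apply, hcomm.eq, Module.End.mul_apply, h1, map_smul]
    have h4 : ((F - μ • (1 : Module.End K V)) ^ N) d = 0 := by
      rw [hd, ← Module.End.mul_apply, ← pow_succ]
      exact h2
    have h5 := ih h3 h4
    have h6 := pow_apply_of hc h5 m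
    rw [h1, left_eq_add] at h6
    have h7 : ((m + 1 : ℕ) : K) * μ ^ m ≠ 0 :=
      mul_ne_zero (Nat.cast_ne_zero.2 (Nat.succ_ne_zero m)) (pow_ne_zero _ hμ)
    rw [hc, (smul_eq_zero.1 h6).resolve_left h7, add_zero]

end lin

variable {k : Type u} [Field k] {𝒱 : VarClass k} {ops : CycleOps 𝒱}
  {W : WeilCohomology.{u, v} ops} {p : ℕ}

/-- If the Frobenius endomorphism is semisimple on `H(X)`, the generalised Tate classes on all
powers are eigenvectors, over all finite fields. -/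
theorem ss_pw {Φ : FrobSystem W p} {X : 𝒱.Obj} (h : FrobSemisimple Φ X) (n : ℕ) {s j : ℕ}
    {c : W.H (Y133.Half.pw X n)} (hc : c ∈ genTate Φ (Y133.Half.pw X n) s j) :
    frob Φ (Y133.Half.pw X n) s c = ((card Φ (Y133.Half.pw X n) s : W.K) ^ j) • c := by
  obtain ⟨m, hm, hss⟩ := frob_pw_semisimple Φ h n
  have h1 := genTate_mono Φ s m j hc
  have h2 := (hss s).isFinitelySemisimple.maxGenEigenspace_eq_eigenspace
    ((card Φ (Y133.Half.pw X n) (m * s) : W.K) ^ j)
  have h3 : c ∈ (frob Φ (Y133.Half.pw X n) (s * m)).maxGenEigenspace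
    ((card Φ (Y133.Half.pw X n) (s * m) : W.K) ^ j) := h1.1
  rw [mul_comm s m, h2, Module.End.mem_eigenspace_iff, mul_comm m s, frob_mul_eq, card_mul_eq,
    Nat.cast_pow, pow_right_comm] at h3
  obtain ⟨⟨N, hN⟩, -⟩ := (mem_genTate Φ).1 hc
  exact eig_of_pow (pow_ne_zero _ (card_ne Φ s)) hm h3 hN

lemma finrank_genU_eq (Φ : FrobSystem W p) (Y : 𝒱.Obj) (j : ℕ) :
    finrank W.K (genU Φ Y j) = dimOf W {c | ∃ s, 0 < s ∧ c ∈ genTate Φ Y s j} := by
  rw [dimOf, Set.finrank]
  have h : {c | ∃ s, 0 < s ∧ c ∈ genTate Φ Y s j} = (genU Φ Y j : Set (W.H Y)) := by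
    ext c
    exact (mem_genU Φ).symm
  rw [h, Submodule.span_eq]

lemma finrank_tateSpan_eq (Φ : FrobSystem W p) (Y : 𝒱.Obj) (j : ℕ) :
    finrank W.K (tateSpan Φ Y j) = dimOf W {c | IsTate Φ Y j c} := rfl

/-- The main theorem for the sums, in terms of dimensions of spans. -/
theorem main_sums' [IsAlgClosed W.K] (Φ : FrobSystem W p) (X : 𝒱.Obj) :
    FrobSemisimple Φ X ∨ ∃ c C : ℝ, 0 < c ∧ 0 < C ∧ ∀ n : ℕ,
      0 < (∑ j ∈ Finset.range ((Y133.Half.pw X n).dim + 1),
        dimOf W {x : W.H (Y133.Half.pw X n) |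
          ∃ s, 0 < s ∧ x ∈ genTate Φ (Y133.Half.pw X n) s j}) ∧
      (∑ j ∈ Finset.range ((Y133.Half.pw X n).dim + 1),
        (numRank ops (Y133.Half.pw X n) j : ℝ)) * ((n + 1 : ℝ) * √(n + 1 : ℝ)) ≤
        C * ∑ j ∈ Finset.range ((Y133.Half.pw X n).dim + 1),
          (dimOf W {x : W.H (Y133.Half.pw X n) |
            ∃ s, 0 < s ∧ x ∈ genTate Φ (Y133.Half.pw X n) s j} : ℝ) ∧
      (∑ j ∈ Finset.range ((Y133.Half.pw X n).dim + 1),
        (numRank ops (Y133.Half.pw X n) j : ℝ)) * (n + 1 : ℝ) ≤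
        C * ∑ j ∈ Finset.range ((Y133.Half.pw X n).dim + 1),
          (dimOf W {x : W.H (Y133.Half.pw X n) | IsTate Φ (Y133.Half.pw X n) j x} : ℝ) ∧
      c * ∑ j ∈ Finset.range ((Y133.Half.pw X n).dim + 1),
          (dimOf W {x : W.H (Y133.Half.pw X n) |
            ∃ s, 0 < s ∧ x ∈ genTate Φ (Y133.Half.pw X n) s j} : ℝ) ≤
        (∑ j ∈ Finset.range ((Y133.Half.pw X n).dim + 1),
          (dimOf W {x : W.H (Y133.Half.pw X n) | IsTate Φ (Y133.Half.pw X n) j x} : ℝ)) *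
            √(n + 1 : ℝ) ∧
      (∑ j ∈ Finset.range ((Y133.Half.pw X n).dim + 1),
          (dimOf W {x : W.H (Y133.Half.pw X n) | IsTate Φ (Y133.Half.pw X n) j x} : ℝ)) *
            √(n + 1 : ℝ) ≤
        C * ∑ j ∈ Finset.range ((Y133.Half.pw X n).dim + 1),
          (dimOf W {x : W.H (Y133.Half.pw X n) |
            ∃ s, 0 < s ∧ x ∈ genTate Φ (Y133.Half.pw X n) s j} : ℝ) := by
  rcases main_sums_pos Φ X with h | ⟨c, C, hc, hC, h⟩
  · exact Or.inl h
  · refine Or.inr ⟨c, C, hc, hC, fun n => ?_⟩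
    have h1 := h n
    simp only [finrank_genU_eq, finrank_tateSpan_eq] at h1
    exact h1

end Pool.Agent.K7.H8.TH
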